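import Pool.Agent.KR3.Defs

/-!
# KR3.Api: universal property of `FA X`, coefficients, bump functions, Hausdorffness
-/

namespace KR3

open Set Filter Topology

universe u v w

variable {X : Type u}

/-- homomorphic extension -/
def FA.lift {G : Type v} [AddCommGroup G] (f : X → G) : FA X →+ G := FreeAbelianGroup.lift f

@[simp] theorem FA.lift_of {G : Type v} [AddCommGroup G] (f : X → G) (x : X) :
    FA.lift f (FA.of x) = f x := FreeAbelianGroup.lift_apply_of f x

theorem FA.continuous_of [TopologicalSpace X] : Continuous (FA.of : X → FA X) :=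
  AddGroupTopology.coinduced_continuous _

theorem FA.continuous_lift [TopologicalSpace X] {G : Type v} [AddCommGroup G] [TopologicalSpace G]
    [IsTopologicalAddGroup G] (f : X → G) (hf : Continuous f) : Continuous (FA.lift f) := by
  let t : AddGroupTopology (FA X) :=
    { toTopologicalSpace := TopologicalSpace.induced (FA.lift f) inferInstance
      toIsTopologicalAddGroup := topologicalAddGroup_induced (FA.lift f) }
  have h1 : TopologicalSpace.coinduced (FA.of : X → FA X) inferInstance ≤ t.toTopologicalSpace := by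
    rw [← continuous_iff_coinduced_le]
    refine continuous_induced_rng.2 ?_
    have : (FA.lift f) ∘ (FA.of : X → FA X) = f := by
      funext x; simp
    rw [this]; exact hf
  have h2 : AddGroupTopology.coinduced (FA.of : X → FA X) ≤ t := by
    exact sInf_le h1
  exact continuous_iff_le_induced.2 h2

/-- coefficient of `x` in `g` -/
noncomputable def FA.coeff (x : X) : FA X →+ ℤ := FreeAbelianGroup.coeff x

/-- support of `g` -/
noncomputable def FA.supp (g : FA X) : Finset X := FreeAbelianGroup.support g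

theorem FA.mem_supp {x : X} {g : FA X} : x ∈ FA.supp g ↔ FA.coeff x g ≠ 0 :=
  FreeAbelianGroup.mem_support_iff x g

open Classical in
theorem FA.coeff_of (x y : X) : FA.coeff x (FA.of y) = if x = y then 1 else 0 := by
  change (FreeAbelianGroup.toFinsupp (FreeAbelianGroup.of y)) x = _
  rw [FreeAbelianGroup.toFinsupp_of, Finsupp.single_apply]
  simp [eq_comm]

theorem FA.lift_eq_sum (f : X → ℝ) (g : FA X) :
    FA.lift f g = ∑ x ∈ FA.supp g, (FA.coeff x g : ℝ) * f x := by
  have key : g = ∑ x ∈ FA.supp g, FA.coeff x g • FA.of x :=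
    FreeAbelianGroup.eq_sum_support_coeff_smul_of g
  conv_lhs => rw [key]
  rw [map_sum]
  refine Finset.sum_congr rfl fun x _ => ?_
  rw [map_zsmul, FA.lift_of, zsmul_eq_mul]

theorem FA.ne_zero_iff {g : FA X} : g ≠ 0 ↔ ∃ x, FA.coeff x g ≠ 0 := by
  have h : (FA.supp g).Nonempty ↔ g ≠ 0 := FreeAbelianGroup.nonempty_support_iff
  rw [← h]
  exact ⟨fun ⟨x, hx⟩ => ⟨x, FA.mem_supp.1 hx⟩, fun ⟨x, hx⟩ => ⟨x, FA.mem_supp.2 hx⟩⟩

/-- bump functions in Tychonoff spaces -/
theorem bump [TopologicalSpace X] [T35Space X] (x : X) (O : Set X) (hO : IsOpen O) (hx : x ∈ O) :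
    ∃ f : X → ℝ, Continuous f ∧ (∀ y, 0 ≤ f y) ∧ (∀ y, f y ≤ 1) ∧ f x = 1 ∧
      ∀ y, y ∉ O → f y = 0 := by
  obtain ⟨f, hf, h0, h1⟩ := CompletelyRegularSpace.completely_regular x Oᶜ hO.isClosed_compl
    (by simpa using hx)
  refine ⟨fun y => 1 - (f y : ℝ), by fun_prop, fun y => ?_, fun y => ?_, ?_, fun y hy => ?_⟩
  · have := (f y).2.2; linarith
  · have := (f y).2.1; linarith
  · simp [h0]
  · have := h1 hy
    simp only [Pi.one_apply] at this
    simp [this]

theorem FA.t2 [TopologicalSpace X] [T35Space X] : T2Space (FA X) := by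
  classical
  refine ⟨fun g h hne => ?_⟩
  obtain ⟨x, hx⟩ := FA.ne_zero_iff.1 (sub_ne_zero.2 hne)
  obtain ⟨f, hf, -, -, hfx, hf0⟩ := bump x ((((FA.supp (g - h)).erase x : Finset X) : Set X)ᶜ)
    (Finset.finite_toSet _).isClosed.isOpen_compl (by simp)
  have hc := FA.continuous_lift f hf
  refine separated_by_continuous hc ?_
  rw [← sub_ne_zero, ← map_sub, FA.lift_eq_sum, Finset.sum_eq_single x]
  · rw [hfx, mul_one]; exact_mod_cast hx
  · intro y hy hyx
    rw [hf0 y (by simp [hyx, hy]), mul_zero]
  · intro hx'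
    exact absurd (FA.mem_supp.2 hx) hx'

end KR3
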