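import Pool.Agent.KR3.Disc

/-!
# KR3.CM

Compact sets of a regular T1 space with a compact-countable k-network are second countable (hence metrizable).
secondCountable: Let P be the network, P_K = {A ∈ P | (A ∩ K).Nonempty} countable. Countable base of the compact
Hausdorff space K: interiors (in K) of val⁻¹(⋃₀ F), F ⊆ P_K finite. Given x ∈ U ∩ K, U open: compact nbhd L of x in K
with L ⊆ U (locally compact K), its image is compact, network gives finite F ⊆ P with L ⊆ ⋃₀ F ⊆ U; drop the members
not meeting K.
seqCompact: CompactSpace K + FirstCountableTopology K: `CompactSpace.tendsto_subseq` in the subtype.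
seqClosed: for K compact, K ∩ A is sequentially closed in the metrizable/first countable K, hence closed; then k-space.
seq_in_compact: closure of A in the first countable closed subspace K: mem_closure_iff_seq_limit in the subtype.
seq_noniso: {q}ᶜ is not closed; apply seqClosed (contrapositive) to A = {q}ᶜ: a sequence off q converges to a point not in A, i.e. q.
open_of_seq: contrapositive form of seqClosed for complements.
-/

namespace KR3

open Set Filter Topology

universe u v w

variable {X : Type u}

variable [TopologicalSpace X]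

theorem Base.secondCountable (hX : Base X) (K : Set X) (hK : IsCompact K) :
    SecondCountableTopology K := by
  have : RegularSpace X := hX.strat.1
  have : T1Space X := hX.strat.2.1
  have : T3Space X := {}
  have : CompactSpace K := isCompact_iff_compactSpace.1 hK
  obtain ⟨P, hP, hPc⟩ := hX.net
  set PK : Set (Set X) := {A ∈ P | (A ∩ K).Nonempty} with hPK
  have hPKc : PK.Countable := hPc K hK
  set B : Set (Set K) := (fun F : Set (Set X) => interior ((Subtype.val : K → X) ⁻¹' (⋃₀ F))) ''
    {F | F.Finite ∧ F ⊆ PK} with hB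
  have hBc : B.Countable := (Set.countable_setOf_finite_subset hPKc).image _
  have hbase : TopologicalSpace.IsTopologicalBasis B := by
    apply TopologicalSpace.isTopologicalBasis_of_isOpen_of_nhds
    · rintro u ⟨F, -, rfl⟩
      exact isOpen_interior
    · intro a u hau hu
      obtain ⟨U, hU, rfl⟩ := isOpen_induced_iff.1 hu
      obtain ⟨L, hL, haL, hLU⟩ := exists_compact_subset hu hau
      have hL' : IsCompact ((Subtype.val : K → X) '' L) := hL.image continuous_subtype_val
      have hL'U : (Subtype.val : K → X) '' L ⊆ U := by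
        rintro y ⟨z, hz, rfl⟩
        exact hLU hz
      obtain ⟨F, hF, hFP, hLF, hFU⟩ := hP _ U hL' hU hL'U
      refine ⟨_, ⟨{A ∈ F | (A ∩ K).Nonempty}, ⟨hF.subset (fun A hA => hA.1), ?_⟩, rfl⟩, ?_, ?_⟩
      · intro A hA
        exact ⟨hFP hA.1, hA.2⟩
      · apply interior_mono _ haL
        intro z hz
        obtain ⟨A, hA, hzA⟩ := hLF (mem_image_of_mem _ hz)
        exact ⟨A, ⟨hA, ⟨z.1, hzA, z.2⟩⟩, hzA⟩
      · refine interior_subset.trans ?_
        rintro z ⟨A, hA, hzA⟩
        exact hFU ⟨A, hA.1, hzA⟩
  exact hbase.secondCountableTopology hBc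

theorem Base.seqCompact (hX : Base X) {K : Set X} (hK : IsCompact K) (s : ℕ → X)
    (hs : ∀ n, s n ∈ K) :
    ∃ a ∈ K, ∃ φ : ℕ → ℕ, StrictMono φ ∧ Tendsto (s ∘ φ) atTop (𝓝 a) := by
  have := hX.secondCountable K hK
  have : CompactSpace K := isCompact_iff_compactSpace.1 hK
  obtain ⟨a, φ, hφ, hlim⟩ := CompactSpace.tendsto_subseq (fun n => (⟨s n, hs n⟩ : K))
  refine ⟨a.1, a.2, φ, hφ, ?_⟩
  exact (continuous_subtype_val.tendsto a).comp hlim

theorem Base.seqClosed (hX : Base X) (A : Set X)
    (h : ∀ (s : ℕ → X) (a : X), (∀ n, s n ∈ A) → Tendsto s atTop (𝓝 a) → a ∈ A) : IsClosed A := by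
  apply hX.ksp
  intro K hK
  have := hX.secondCountable K hK
  apply IsSeqClosed.isClosed
  intro s a hs hlim
  exact h (fun n => (s n).1) a.1 hs ((continuous_subtype_val.tendsto a).comp hlim)

theorem Base.open_of_seq (hX : Base X) (U : Set X)
    (h : ∀ (s : ℕ → X) (a : X), a ∈ U → Tendsto s atTop (𝓝 a) → ∃ n, s n ∈ U) : IsOpen U := by
  rw [← isClosed_compl_iff]
  apply hX.seqClosed
  intro s a hs hlim ha
  obtain ⟨n, hn⟩ := h s a ha hlim
  exact hs n hn

theorem Base.seq_in_compact (hX : Base X) {K A : Set X} (hK : IsCompact K) (hA : A ⊆ K) {a : X}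
    (ha : a ∈ closure A) : ∃ s : ℕ → X, (∀ n, s n ∈ A) ∧ Tendsto s atTop (𝓝 a) := by
  have : RegularSpace X := hX.strat.1
  have : T1Space X := hX.strat.2.1
  have : T3Space X := {}
  have := hX.secondCountable K hK
  have haK : a ∈ K := closure_minimal hA hK.isClosed ha
  have h1 : (⟨a, haK⟩ : K) ∈ closure ((Subtype.val : K → X) ⁻¹' A) := by
    rw [closure_subtype, Subtype.image_preimage_coe, inter_eq_self_of_subset_right hA]
    exact ha
  obtain ⟨x, hx, hlim⟩ := mem_closure_iff_seq_limit.1 h1
  exact ⟨fun n => (x n).1, hx, (continuous_subtype_val.tendsto _).comp hlim⟩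

theorem Base.seq_noniso (hX : Base X) (q : X) (hq : ¬ IsOpen ({q} : Set X)) :
    ∃ y : ℕ → X, (∀ n, y n ≠ q) ∧ Tendsto y atTop (𝓝 q) := by
  by_contra hcon
  push Not at hcon
  apply hq
  have h1 : IsClosed ({q}ᶜ : Set X) := by
    apply hX.seqClosed
    intro s a hs hlim ha
    rw [mem_singleton_iff] at ha
    subst ha
    exact hcon s (fun n => hs n) hlim
  exact isClosed_compl_iff.1 h1

end KR3
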