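import Pool.Agent.KR3.StrN

/-!
# KR3.StrG

levels: L n = S U n.
gfun: g n x = (closure (S ({x}ᶜ) n))ᶜ: open nbhd of x (T1: {x}ᶜ open, closure(S {x}ᶜ n) ⊆ {x}ᶜ).
Claim: l i → a, l i ∈ g (k i) (x i), k i → ∞ imply x i → a. Let U be an open nbhd of a; a ∈ S U n for some n; eventually
l i ∈ S U n and k i ≥ n. If x i ∉ U then U ⊆ {x i}ᶜ so l i ∈ S U n ⊆ S {x i}ᶜ n ⊆ S {x i}ᶜ (k i) ⊆ closure, contradiction.
-/

namespace KR3

open Set Filter Topology

universe u v w

variable {X : Type u}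

variable [TopologicalSpace X]

theorem Stratifiable.levels (h : Stratifiable X) (U : Set X) (hU : IsOpen U) :
    ∃ L : ℕ → Set X, (∀ n, IsOpen (L n)) ∧ (∀ n, closure (L n) ⊆ U) ∧ Monotone L ∧ ⋃ n, L n = U := by
  obtain ⟨S, hS⟩ := exists_strat h
  exact ⟨S U, fun n => hS.op U n hU, fun n => hS.cl U n hU, fun m n hmn => hS.incr U m n hmn,
    hS.un U hU⟩

theorem Stratifiable.gfun (h : Stratifiable X) : ∃ g : ℕ → X → Set X,
    (∀ n x, IsOpen (g n x) ∧ x ∈ g n x) ∧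
    ∀ (l x : ℕ → X) (k : ℕ → ℕ) (a : X), Tendsto k atTop atTop → (∀ i, l i ∈ g (k i) (x i)) →
      Tendsto l atTop (𝓝 a) → Tendsto x atTop (𝓝 a) := by
  have : T1Space X := h.2.1
  obtain ⟨S, hS⟩ := exists_strat h
  have hop : ∀ x : X, IsOpen ({x}ᶜ : Set X) := fun x => isClosed_singleton.isOpen_compl
  refine ⟨fun n x => (closure (S ({x}ᶜ) n))ᶜ, fun n x => ⟨isClosed_closure.isOpen_compl, ?_⟩, ?_⟩
  · intro hx
    exact hS.cl _ n (hop x) hx rfl
  · intro l x k a hk hl hla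
    rw [tendsto_nhds]
    intro U hU haU
    obtain ⟨n, hn⟩ : ∃ n, a ∈ S U n := by
      have := hS.un U hU
      rw [← this] at haU
      exact mem_iUnion.1 haU
    have h1 : ∀ᶠ i in atTop, l i ∈ S U n := hla.eventually_mem ((hS.op U n hU).mem_nhds hn)
    have h2 : ∀ᶠ i in atTop, n ≤ k i := hk.eventually_ge_atTop n
    filter_upwards [h1, h2] with i hi1 hi2
    by_contra hxi
    have hsub : U ⊆ ({x i}ᶜ : Set X) := by
      intro y hy hyx
      exact hxi (by
        rw [mem_singleton_iff] at hyx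
        change x i ∈ U
        rw [← hyx]
        exact hy)
    exact hl i (subset_closure (hS.incr _ n (k i) hi2 (hS.mono U _ n hU (hop _) hsub hi1)))

end KR3
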