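import Pool.Agent.KR3.Api

/-!
# KR3.FSum

Continuity of finite-on-compact / locally finite sums.
`contOn_finsum`: on L the finsum equals the Finset sum over the finite set hfin (finsum_eq_sum_of_support_subset);
`ContinuousOn.congr`.
`continuous_finsum_disc`: every point has a neighbourhood N meeting at most one O i; on N the sum is either 0
or a single F i (locally finite supports: `continuous_finsum`).
-/

namespace KR3

open Set Filter Topology

universe u v w

variable {X : Type u}

theorem contOn_finsum {Z : Type v} {ι : Type w} [TopologicalSpace Z] (F : ι → Z → ℝ)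
    (hF : ∀ i, Continuous (F i)) (L : Set Z) (hfin : {i | ∃ z ∈ L, F i z ≠ 0}.Finite) :
    ContinuousOn (fun z => ∑ᶠ i, F i z) L := by
  classical
  have h : ∀ z ∈ L, ∑ᶠ i, F i z = ∑ i ∈ hfin.toFinset, F i z := by
    intro z hz
    apply finsum_eq_sum_of_support_subset
    intro i hi
    rw [Set.Finite.coe_toFinset]
    exact ⟨z, hz, hi⟩
  exact ContinuousOn.congr (continuous_finset_sum _ (fun i _ => hF i)).continuousOn h

theorem le_finsum {ι : Type w} (F : ι → ℝ) (h0 : ∀ i, 0 ≤ F i) (hfin : {i | F i ≠ 0}.Finite) (i : ι) :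
    F i ≤ ∑ᶠ j, F j := by
  exact single_le_finsum i hfin h0

theorem continuous_finsum_disc [TopologicalSpace X] {ι : Type w} (F : ι → X → ℝ)
    (hF : ∀ i, Continuous (F i)) (O : ι → Set X) (hO : DiscFam O)
    (hs : ∀ i x, x ∉ O i → F i x = 0) : Continuous (fun x => ∑ᶠ i, F i x) := by
  refine continuous_finsum hF ?_
  intro x
  obtain ⟨N, hN, hN'⟩ := hO x
  refine ⟨N, hN, ?_⟩
  refine Set.Subsingleton.finite ?_
  have key : ∀ i, (Function.support (F i) ∩ N).Nonempty → (O i ∩ N).Nonempty := by
    rintro i ⟨y, hy, hyN⟩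
    refine ⟨y, ?_, hyN⟩
    by_contra hyO
    exact hy (hs i y hyO)
  intro i hi j hj
  exact hN' i j (key i hi) (key j hj)

/-- at every point the discrete sum is the value of the unique relevant term -/
theorem finsum_disc_eq [TopologicalSpace X] {ι : Type w} (F : ι → X → ℝ)
    (O : ι → Set X) (hO : DiscFam O) (hs : ∀ i x, x ∉ O i → F i x = 0) (i : ι) (x : X)
    (hx : x ∈ O i) : ∑ᶠ j, F j x = F i x := by
  obtain ⟨N, hN, hN'⟩ := hO x
  refine finsum_eq_single (fun j => F j x) i ?_
  intro j hj
  refine hs j x ?_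
  intro hxj
  exact hj (hN' j i ⟨x, hxj, mem_of_mem_nhds hN⟩ ⟨x, hx, mem_of_mem_nhds hN⟩)

end KR3
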