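import Pool.Agent.KR3.StrN

/-!
# KR3.StrQ

Subparacompactness: every open cover U (indexed by a well-ordered type A) has a σ-discrete closed refinement:
E n a = closure (S (⋃ b ≤ a, U b) n) \ ⋃ b < a, U b.
Closed; E n a ⊆ U a since closure(S ..) ⊆ ⋃ b ≤ a, U b.  Discrete in a for fixed n: at x let a be minimal with
x ∈ U a; the nbhd U a ∩ (closure (S (⋃ b < a, U b) n))ᶜ of x misses E n c for c > a (since E n c misses U a) and for
c < a (E n c ⊆ closure (S (⋃ b ≤ c, U b) n) ⊆ closure (S (⋃ b < a, U b) n), and x ∉ ⋃ b < a, U b).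
Covers: x with minimal a lies in S (⋃ b ≤ a, U b) n for some n.
-/

namespace KR3

open Set Filter Topology

universe u v w

variable {X : Type u}

variable [TopologicalSpace X]

theorem Stratifiable.subpara (h : Stratifiable X) {A : Type v} [LinearOrder A] [WellFoundedLT A]
    (U : A → Set X) (hU : ∀ a, IsOpen (U a)) (hcov : ⋃ a, U a = univ) :
    ∃ E : ℕ → A → Set X, (∀ n a, IsClosed (E n a)) ∧ (∀ n a, E n a ⊆ U a) ∧
      (∀ n, DiscFam (E n)) ∧ ∀ x, ∃ n a, x ∈ E n a := by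
  obtain ⟨S, hS⟩ := exists_strat h
  set L : A → Set X := fun a => ⋃ b : {b // b < a}, U b.1 with hL
  set M : A → Set X := fun a => ⋃ b : {b // b ≤ a}, U b.1 with hM
  have hLo : ∀ a, IsOpen (L a) := fun a => isOpen_iUnion fun b => hU b.1
  have hMo : ∀ a, IsOpen (M a) := fun a => isOpen_iUnion fun b => hU b.1
  have hmin : ∀ x, ∃ a, x ∈ U a ∧ x ∉ L a := by
    intro x
    have hne : {a | x ∈ U a}.Nonempty := by
      have : x ∈ ⋃ a, U a := by rw [hcov]; exact mem_univ x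
      exact mem_iUnion.1 this
    obtain ⟨a, ha, hmin⟩ := (wellFounded_lt (α := A)).has_min {a | x ∈ U a} hne
    refine ⟨a, ha, ?_⟩
    intro hx
    obtain ⟨⟨b, hb⟩, hxb⟩ := mem_iUnion.1 hx
    exact hmin b hxb hb
  refine ⟨fun n a => closure (S (M a) n) \ L a, ?_, ?_, ?_, ?_⟩
  · intro n a
    show IsClosed (closure (S (M a) n) \ L a)
    rw [diff_eq]
    exact isClosed_closure.inter (hLo a).isClosed_compl
  · intro n a x hx
    have h1 : x ∈ M a := hS.cl _ n (hMo a) hx.1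
    obtain ⟨⟨b, hb⟩, hxb⟩ := mem_iUnion.1 h1
    rcases hb.lt_or_eq with h2 | h2
    · exact absurd (mem_iUnion.2 ⟨⟨b, h2⟩, hxb⟩) hx.2
    · exact h2 ▸ hxb
  · intro n x
    obtain ⟨a, ha, hxa⟩ := hmin x
    refine ⟨U a ∩ (closure (S (L a) n))ᶜ, ?_, ?_⟩
    · apply ((hU a).inter isClosed_closure.isOpen_compl).mem_nhds
      exact ⟨ha, fun h2 => hxa (hS.cl _ n (hLo a) h2)⟩
    · have key : ∀ c, ((closure (S (M c) n) \ L c) ∩ (U a ∩ (closure (S (L a) n))ᶜ)).Nonempty →
          c = a := by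
        rintro c ⟨y, ⟨hy1, hy2⟩, hy3, hy4⟩
        rcases lt_trichotomy c a with h2 | h2 | h2
        · exfalso
          apply hy4
          have h3 : M c ⊆ L a := by
            intro z hz
            obtain ⟨⟨b, hb⟩, hzb⟩ := mem_iUnion.1 hz
            exact mem_iUnion.2 ⟨⟨b, lt_of_le_of_lt hb h2⟩, hzb⟩
          exact closure_mono (hS.mono _ _ n (hMo c) (hLo a) h3) hy1
        · exact h2
        · exact absurd (mem_iUnion.2 ⟨⟨a, h2⟩, hy3⟩) hy2
      intro i j hi hj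
      exact (key i hi).trans (key j hj).symm
  · intro x
    obtain ⟨a, ha, hxa⟩ := hmin x
    have h1 : x ∈ ⋃ n, S (M a) n := by
      rw [hS.un _ (hMo a)]
      exact mem_iUnion.2 ⟨⟨a, le_rfl⟩, ha⟩
    obtain ⟨n, hn⟩ := mem_iUnion.1 h1
    exact ⟨n, a, subset_closure hn, hxa⟩

end KR3
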