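import Pool.Agent.KR3.StrN
import Pool.Agent.KR3.StrQ
import Pool.Agent.KR3.FSum

/-!
# KR3.StrP

Paracompactness. Let U : A → Set X be an open cover (well-order A: `exists_wellFoundedLT`/`WellOrderingRel`, or
`linearOrderOfSTO WellOrderingRel`), E from StrQ. Expand (E n) to a discrete open family G n a ⊇ E n a (expandFam),
and replace G n a by G n a ∩ U a. By Urysohn (T4) choose continuous h n a : X → [0,1], =1 on E n a, =0 off G n a.
s n = ∑ᶠ a, h n a (continuous by continuous_finsum_disc; 0 ≤ s n ≤ 1; = 1 on ⋃ a, E n a; if s n x > 0 then h n a x > 0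
for some a).  t n = max 0 (s n - 2 ∑_{k<n} s k) continuous.  V n a = {x | 0 < t n x * h n a x}: open, ⊆ U a.
Cover: for x let n be minimal with s n x > 0 (exists): t n x = s n x > 0.
Locally finite: at x pick k with s k x = 1; on the open nbhd {s k > 1/2} we have t n = 0 for all n > k; the finitely
many discrete families (V n a)_a, n ≤ k, are locally finite; hence the whole family indexed by ℕ × A is.
ParacompactSpace.mk: wants a locally finite refinement of an arbitrary cover by `s : A → Set X` with index type in the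
same universe: index type ULift ℕ × A (or use any trick).
-/

namespace KR3

open Set Filter Topology

universe u v w

variable {X : Type u}

variable [TopologicalSpace X]

/-- the combinatorial part: a cover with sigma discrete closed refinement in a collectionwise normal
space has a locally finite open refinement -/
theorem strP_aux [NormalSpace X] {A : Type u} (U : A → Set X) (E : ℕ → A → Set X)
    (hEc : ∀ n a, IsClosed (E n a)) (G : ℕ → A → Set X) (hGo : ∀ n a, IsOpen (G n a))
    (hEG : ∀ n a, E n a ⊆ G n a) (hGU : ∀ n a, G n a ⊆ U a) (hGd : ∀ n, DiscFam (G n))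
    (hcov : ∀ x, ∃ n a, x ∈ E n a) :
    ∃ (β : Type u) (t : β → Set X), (∀ b, IsOpen (t b)) ∧ (⋃ b, t b = univ) ∧
      LocallyFinite t ∧ ∀ b, ∃ a, t b ⊆ U a := by
  classical
  have hur : ∀ n a, ∃ f : C(X, ℝ), EqOn f 0 (G n a)ᶜ ∧ EqOn f 1 (E n a) ∧
      ∀ x, f x ∈ Icc (0 : ℝ) 1 := by
    intro n a
    refine exists_continuous_zero_one_of_isClosed (hGo n a).isClosed_compl (hEc n a) ?_
    rw [disjoint_compl_left_iff_subset]
    exact hEG n a
  choose f hf0 hf1 hf using hur
  have hz : ∀ n a x, x ∉ G n a → f n a x = 0 := fun n a x hx => hf0 n a hx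
  let s : ℕ → X → ℝ := fun n x => ∑ᶠ a, f n a x
  have hsc : ∀ n, Continuous (s n) := fun n =>
    continuous_finsum_disc (fun a => f n a) (fun a => (f n a).continuous) (G n) (hGd n) (hz n)
  have hs_in : ∀ n a x, x ∈ G n a → s n x = f n a x := fun n a x hx =>
    finsum_disc_eq (fun a => f n a) (G n) (hGd n) (hz n) a x hx
  have hs_out : ∀ n x, (∀ a, x ∉ G n a) → s n x = 0 := by
    intro n x hx
    exact finsum_eq_zero_of_forall_eq_zero fun a => hz n a x (hx a)
  have hs0 : ∀ n x, 0 ≤ s n x := fun n x => finsum_nonneg fun a => (hf n a x).1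
  have hs1 : ∀ n x, s n x ≤ 1 := by
    intro n x
    by_cases hx : ∃ a, x ∈ G n a
    · obtain ⟨a, ha⟩ := hx
      rw [hs_in n a x ha]
      exact (hf n a x).2
    · push Not at hx
      rw [hs_out n x hx]
      exact zero_le_one
  let t : ℕ → X → ℝ := fun n x => max 0 (s n x - 2 * ∑ k ∈ Finset.range n, s k x)
  have htc : ∀ n, Continuous (t n) := by
    intro n
    refine continuous_const.max ((hsc n).sub (continuous_const.mul ?_))
    exact continuous_finsetSum _ fun k _ => hsc k
  let V : ULift.{u} ℕ × A → Set X := fun b => {x | 0 < t b.1.down x * f b.1.down b.2 x}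
  have hVG : ∀ b, V b ⊆ G b.1.down b.2 := by
    intro b x hx
    by_contra hxG
    have : 0 < t b.1.down x * f b.1.down b.2 x := hx
    rw [hz _ _ _ hxG, mul_zero] at this
    exact lt_irrefl _ this
  refine ⟨ULift.{u} ℕ × A, V, ?_, ?_, ?_, ?_⟩
  · intro b
    exact isOpen_lt continuous_const ((htc _).mul (f _ _).continuous)
  · rw [eq_univ_iff_forall]
    intro x
    have hex : ∃ n, 0 < s n x := by
      obtain ⟨n, a, hna⟩ := hcov x
      refine ⟨n, ?_⟩
      rw [hs_in n a x (hEG n a hna), hf1 n a hna]
      exact zero_lt_one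
    have hmin : ∀ k < Nat.find hex, s k x = 0 := by
      intro k hk
      exact le_antisymm (not_lt.1 (Nat.find_min hex hk)) (hs0 k x)
    have hpos : 0 < s (Nat.find hex) x := Nat.find_spec hex
    have ht : t (Nat.find hex) x = s (Nat.find hex) x := by
      change max 0 (s (Nat.find hex) x - 2 * ∑ k ∈ Finset.range (Nat.find hex), s k x) = _
      rw [Finset.sum_eq_zero fun k hk => hmin k (Finset.mem_range.1 hk), mul_zero, sub_zero]
      exact max_eq_right hpos.le
    have hxG : ∃ a, x ∈ G (Nat.find hex) a := by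
      by_contra hne
      push Not at hne
      rw [hs_out _ x hne] at hpos
      exact lt_irrefl _ hpos
    obtain ⟨a, ha⟩ := hxG
    refine mem_iUnion.2 ⟨(⟨Nat.find hex⟩, a), ?_⟩
    change 0 < t (Nat.find hex) x * f (Nat.find hex) a x
    rw [ht, ← hs_in _ a x ha]
    exact mul_pos hpos hpos
  · intro x
    obtain ⟨k, a, hka⟩ := hcov x
    have hskx : s k x = 1 := by
      rw [hs_in k a x (hEG k a hka), hf1 k a hka]
      rfl
    have hlf : ∀ n, ∃ N ∈ 𝓝 x, {a | (G n a ∩ N).Nonempty}.Finite := fun n =>
      (hGd n).locallyFinite x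
    choose N hN hNf using hlf
    refine ⟨{y | 1 / 2 < s k y} ∩ ⋂ n ∈ Finset.range (k + 1), N n, ?_, ?_⟩
    · refine inter_mem ?_ ((Filter.biInter_finset_mem _).2 fun n _ => hN n)
      refine (isOpen_lt continuous_const (hsc k)).mem_nhds ?_
      change 1 / 2 < s k x
      rw [hskx]
      norm_num
    · have hfin : (⋃ n ∈ Finset.range (k + 1), (fun a : A => ((⟨n⟩, a) : ULift.{u} ℕ × A)) ''
          {a | (G n a ∩ N n).Nonempty}).Finite := by
        refine Set.Finite.biUnion (Finset.finite_toSet _) fun n _ => (hNf n).image _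
      refine hfin.subset ?_
      rintro ⟨⟨n⟩, b⟩ ⟨y, hyV, hys, hyN⟩
      have hyV' : 0 < t n y * f n b y := hyV
      have hyG : y ∈ G n b := hVG (⟨n⟩, b) hyV
      have hnk : n ∈ Finset.range (k + 1) := by
        rw [Finset.mem_range]
        by_contra hnk
        push Not at hnk
        have ht0 : t n y = 0 := by
          refine max_eq_left ?_
          have h1 : s k y ≤ ∑ j ∈ Finset.range n, s j y :=
            Finset.single_le_sum (f := fun j => s j y) (fun j _ => hs0 j y)
              (Finset.mem_range.2 (by omega))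
          have h2 : 1 / 2 < s k y := hys
          have h3 := hs1 n y
          linarith
        rw [ht0, zero_mul] at hyV'
        exact lt_irrefl _ hyV'
      refine mem_iUnion₂.2 ⟨n, hnk, b, ⟨y, hyG, ?_⟩, rfl⟩
      exact mem_iInter₂.1 hyN n hnk
  · intro b
    exact ⟨b.2, (hVG b).trans (hGU _ _)⟩

theorem Stratifiable.paracompact (h : Stratifiable X) : ParacompactSpace X := by
  classical
  have h4 : T4Space X := h.t4
  refine ⟨fun A U hU hcov => ?_⟩
  let lo : LinearOrder A := linearOrderOfSTO WellOrderingRel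
  have wf : WellFoundedLT A := ⟨(inferInstance : IsWellOrder A WellOrderingRel).toIsWellFounded.wf⟩
  obtain ⟨E, hEc, hEU, hEd, hEcov⟩ := h.subpara U hU hcov
  have hexp : ∀ n, ∃ O : A → Set X, (∀ i, IsOpen (O i) ∧ E n i ⊆ O i) ∧ DiscFam O := fun n =>
    h.expandFam (E n) (hEc n) (hEd n)
  choose O hO hOd using hexp
  exact strP_aux U E hEc (fun n a => O n a ∩ U a) (fun n a => (hO n a).1.inter (hU a))
    (fun n a => subset_inter (hO n a).2 (hEU n a)) (fun n a => inter_subset_right)
    (fun n => (hOd n).mono fun a => inter_subset_left) hEcov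

end KR3
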