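import Pool.Agent.KR3.StrN
import Pool.Agent.KR3.StrP
import Pool.Agent.KR3.StrG
import Pool.Agent.KR3.CM

/-!
# KR3.BaseI

Interface lemmas for `Base X` (short consequences).
expand: q injective with CD range: apply expandFam to the singletons.
compact_of_noCD: F closed, every CD subset finite ⇒ compact. Given a cover of F by open sets W j, take a locally
finite refinement V (ParacompactSpace) of the cover {W j} ∪ {Fᶜ} of X; for those V i which meet F choose a point
x i ∈ V i ∩ F: {x i} is CD (locally finite family of points in a T1 space: every union of a subfamily of the closed sets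
{x i} is closed), hence finite; every point lies in finitely many V i, so finitely many V i meet F, so F is
covered by finitely many W j.  (`isCompact_of_finite_subcover`.)
exists_seq_of_noncompact: closure A is not compact, so it has an infinite CD subset D; take an injective sequence in D,
expand it to a discrete open family O n ∋ d n; O n meets A, choose a n ∈ O n ∩ A: CD range and injective by DiscFam.cd_range.
-/

namespace KR3

open Set Filter Topology

universe u v w

variable {X : Type u}

variable [TopologicalSpace X]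

theorem Base.t4 (hX : Base X) : T4Space X := hX.strat.t4

theorem Base.para (hX : Base X) : ParacompactSpace X := hX.strat.paracompact

theorem Base.t35 (hX : Base X) : T35Space X := by
  have := hX.t4
  infer_instance

theorem Base.t2 (hX : Base X) : T2Space X := by
  have := hX.t4
  infer_instance

theorem Base.expand (hX : Base X) {ι : Type v} {q : ι → X} (hq : Function.Injective q)
    (hcd : CD (range q)) : ∃ O : ι → Set X, (∀ i, IsOpen (O i) ∧ q i ∈ O i) ∧ DiscFam O := by
  have := hX.t4
  obtain ⟨O, hO, hd⟩ := hX.strat.expandFam (fun i => ({q i} : Set X)) (fun i => isClosed_singleton)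
    (CD.discFam_singletons hq hcd)
  exact ⟨O, fun i => ⟨(hO i).1, (hO i).2 rfl⟩, hd⟩

theorem Base.compact_of_noCD (hX : Base X) {F : Set X} (hF : IsClosed F)
    (h : ∀ D ⊆ F, CD D → D.Finite) : IsCompact F := by
  have := hX.t4
  have := hX.para
  refine isCompact_of_finite_subcover fun {κ} U hU hFU => ?_
  obtain ⟨v, hvo, hFv, hlf, hvU⟩ := precise_refinement_set hF U hU hFU
  set J : Set κ := {i | (v i ∩ F).Nonempty} with hJ
  set x : J → X := fun i => i.2.some with hx
  have hxm : ∀ i : J, x i ∈ v i ∩ F := fun i => i.2.some_mem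
  have hcd : CD (range x) := by
    intro A hA
    have hAeq : A = ⋃ i : J, {y | y = x i ∧ y ∈ A} := by
      ext y
      simp only [mem_iUnion, mem_ofPred_eq]
      constructor
      · intro hy
        obtain ⟨i, hi⟩ := hA hy
        exact ⟨i, hi.symm, hy⟩
      · rintro ⟨i, -, hy⟩
        exact hy
    rw [hAeq]
    have hlf' : LocallyFinite (fun i : J => v i) := hlf.comp_injective Subtype.val_injective
    refine (hlf'.subset fun i => ?_).isClosed_iUnion fun i => ?_
    · rintro y ⟨hy, -⟩
      rw [hy]
      exact (hxm i).1
    · exact ((Set.finite_singleton (x i)).subset (by rintro y ⟨hy, -⟩; exact hy)).isClosed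
  have hDfin : (range x).Finite := by
    refine h _ ?_ hcd
    rintro y ⟨i, rfl⟩
    exact (hxm i).2
  have hJfin : J.Finite := by
    refine (hDfin.biUnion fun y _ => hlf.point_finite y).subset ?_
    intro i hi
    exact mem_biUnion (mem_range_self (⟨i, hi⟩ : J)) (hxm ⟨i, hi⟩).1
  refine ⟨hJfin.toFinset, fun y hy => ?_⟩
  obtain ⟨i, hi⟩ := mem_iUnion.1 (hFv hy)
  refine mem_biUnion (x := i) ?_ (hvU i hi)
  exact hJfin.mem_toFinset.2 ⟨y, hi, hy⟩

theorem Base.exists_seq_of_noncompact (hX : Base X) {A : Set X} (hA : ¬ IsCompact (closure A)) :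
    ∃ a : ℕ → X, Function.Injective a ∧ CD (range a) ∧ ∀ n, a n ∈ A := by
  have := hX.t4
  have h1 : ∃ D ⊆ closure A, CD D ∧ ¬ D.Finite := by
    by_contra hcon
    refine hA (hX.compact_of_noCD isClosed_closure fun D hD hcd => ?_)
    by_contra hinf
    exact hcon ⟨D, hD, hcd, hinf⟩
  obtain ⟨D, hD, hcd, hinf⟩ := h1
  set f := Set.Infinite.natEmbedding D hinf with hf
  have hd : Function.Injective (fun n => (f n : X)) :=
    Subtype.val_injective.comp f.injective
  have hcd' : CD (range fun n => (f n : X)) := by
    refine hcd.subset ?_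
    rintro y ⟨n, rfl⟩
    exact (f n).2
  obtain ⟨O, hO, hdisc⟩ := hX.expand hd hcd'
  have h2 : ∀ n, ∃ y, y ∈ O n ∧ y ∈ A := fun n => by
    obtain ⟨y, hy1, hy2⟩ := mem_closure_iff.1 (hD (f n).2) (O n) (hO n).1 (hO n).2
    exact ⟨y, hy1, hy2⟩
  choose a ha1 ha2 using h2
  obtain ⟨h3, h4⟩ := hdisc.cd_range ha1
  exact ⟨a, h4, h3, ha2⟩

end KR3
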