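import Pool.Agent.KR3.BaseI

/-!
# KR3.Case1

C = {x | ¬ IsOpen {x}} compact with a countable base V n of open neighbourhoods. 
firstCountable: at an isolated point 𝓝 x = pure x. At c ∈ C: C is second countable (CM), so there are open O k ∋ c of X such that
every open U ∋ c has O k ∩ C ⊆ U for some k; regularity: open G k ∋ c with closure (G k) ⊆ O k. {G k ∩ V n} is a countable base at c:
for U ∋ c open pick k with closure (G k) ∩ C ⊆ U; the open set U ∪ (closure (G k))ᶜ ⊇ C contains some V n; G k ∩ V n ⊆ U.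
H3: X × X × X is first countable, so KOpen sets are open (if p ∈ O is not interior there is a sequence in Oᶜ converging to p
(first countable: `mem_closure_iff_seq_limit`), {p} ∪ range is compact and contradicts KOpen).
Beta: a, O, V0. If a is isolated: V = {a}, W = {w | (a,w) ∈ O}. If a ∈ C: the compact {a} × diag(C) ⊆ O: generalized_tube_lemma: open V1 ∋ a,
W1 ⊇ {(y,y) | y ∈ C} with V1 × W1 ⊆ O. V = V1 ∩ V0, W = W1 ∪ {(y,y) | y ∉ C} ({(y,y)} is open for y isolated).
-/

namespace KR3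

open Set Filter Topology

universe u v w

variable {X : Type u}

theorem KOpen.isOpen_of_seq {Z : Type u} [TopologicalSpace Z] [SequentialSpace Z] {O : Set Z}
    (hO : KOpen O) : IsOpen O := by
  rw [← isClosed_compl_iff]
  refine IsSeqClosed.isClosed fun s p hs hp hpO => ?_
  have hK : IsCompact (insert p (range s)) := hp.isCompact_insert_range
  obtain ⟨O', hO', hOO'⟩ := isOpen_induced_iff.1 (hO _ hK)
  have h1 : ∀ q ∈ insert p (range s), (q ∈ O' ↔ q ∈ O) := fun q hq => by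
    have := congrArg (fun S => (⟨q, hq⟩ : (insert p (range s) : Set Z)) ∈ S) hOO'
    simpa using this
  have h2 : p ∈ O' := (h1 p (mem_insert _ _)).2 hpO
  obtain ⟨n, hn⟩ := (hp.eventually (hO'.mem_nhds h2)).exists
  exact hs n ((h1 (s n) (mem_insert_of_mem _ (mem_range_self n))).1 hn)

variable [TopologicalSpace X]

theorem case1_firstCountable (hX : Base X) (hC : IsCompact {x : X | ¬ IsOpen ({x} : Set X)})
    (hch : ∃ V : ℕ → Set X, (∀ n, IsOpen (V n) ∧ {x : X | ¬ IsOpen ({x} : Set X)} ⊆ V n) ∧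
      ∀ U, IsOpen U → {x : X | ¬ IsOpen ({x} : Set X)} ⊆ U → ∃ n, V n ⊆ U) :
    FirstCountableTopology X := by
  have := hX.t4
  obtain ⟨V, hV, hVU⟩ := hch
  refine ⟨fun c => ?_⟩
  by_cases hc : IsOpen ({c} : Set X)
  · rw [(isOpen_singleton_iff_nhds_eq_pure c).1 hc]
    infer_instance
  · have := hX.secondCountable _ hC
    have hcC : c ∈ {x : X | ¬ IsOpen ({x} : Set X)} := hc
    obtain ⟨B, hB⟩ := (𝓝 (⟨c, hcC⟩ : {x : X | ¬ IsOpen ({x} : Set X)})).exists_antitone_basis
    have h1 : ∀ k, ∃ G, (G ∈ 𝓝 c ∧ IsClosed G) ∧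
        (Subtype.val ⁻¹' G : Set {x : X | ¬ IsOpen ({x} : Set X)}) ⊆ B k := fun k => by
      have : B k ∈ 𝓝 (⟨c, hcC⟩ : {x : X | ¬ IsOpen ({x} : Set X)}) := hB.toHasBasis.mem_of_mem trivial
      rw [nhds_subtype, mem_comap] at this
      obtain ⟨t, ht, htB⟩ := this
      obtain ⟨G, hG, hGt⟩ := (closed_nhds_basis c).mem_iff.1 ht
      exact ⟨G, hG, (preimage_mono hGt).trans htB⟩
    choose G hG hGB using h1
    have hbasis : (𝓝 c).HasBasis (fun _ : ℕ × ℕ => True) (fun p => G p.1 ∩ V p.2) := by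
      refine ⟨fun U => ⟨fun hU => ?_, ?_⟩⟩
      · obtain ⟨U', hU'U, hU', hcU'⟩ := mem_nhds_iff.1 hU
        have h2 : (Subtype.val ⁻¹' U' : Set {x : X | ¬ IsOpen ({x} : Set X)}) ∈
            𝓝 (⟨c, hcC⟩ : {x : X | ¬ IsOpen ({x} : Set X)}) :=
          (hU'.preimage continuous_subtype_val).mem_nhds hcU'
        obtain ⟨k, -, hk⟩ := hB.toHasBasis.mem_iff.1 h2
        obtain ⟨n, hn⟩ := hVU (U' ∪ (G k)ᶜ) (hU'.union (hG k).2.isOpen_compl) (fun y hy => by
          by_cases hyG : y ∈ G k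
          · exact Or.inl (hk (hGB k (show (⟨y, hy⟩ : {x : X | ¬ IsOpen ({x} : Set X)}) ∈ _ from hyG)))
          · exact Or.inr hyG)
        refine ⟨(k, n), trivial, fun y hy => hU'U ?_⟩
        rcases hn hy.2 with h | h
        · exact h
        · exact absurd hy.1 h
      · rintro ⟨⟨k, n⟩, -, h⟩
        exact mem_of_superset (inter_mem (hG k).1 ((hV n).1.mem_nhds ((hV n).2 hcC))) h
    exact (⟨hbasis, Set.to_countable _⟩ : HasCountableBasis (𝓝 c) _ _).isCountablyGenerated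

theorem case1_beta (hC : IsCompact {x : X | ¬ IsOpen ({x} : Set X)}) : Beta X := by
  intro a O V0 hO hV0 haV0 h
  by_cases ha : IsOpen ({a} : Set X)
  · refine ⟨{a}, ha, rfl, {w | (a, w) ∈ O}, hO.preimage (by fun_prop), fun y => h a haV0 y, ?_⟩
    intro v hv w hw
    rw [mem_singleton_iff] at hv
    subst hv
    exact hw
  · have hD : IsCompact ((fun y : X => (y, y)) '' {x : X | ¬ IsOpen ({x} : Set X)}) :=
      hC.image (by fun_prop)
    obtain ⟨V1, W1, hV1, hW1, haV1, hDW1, hVW⟩ := generalized_tube_lemma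
      (isCompact_singleton (x := a)) hD hO (by
        rintro ⟨v, w⟩ ⟨hv, y, hy, hyw⟩
        simp only [mem_singleton_iff] at hv
        subst hv
        simp only at hyw
        subst hyw
        exact h v haV0 y)
    refine ⟨V1 ∩ V0, hV1.inter hV0, ⟨haV1 rfl, haV0⟩,
      W1 ∪ ⋃ y ∈ {x : X | IsOpen ({x} : Set X)}, ({y} ×ˢ {y} : Set (X × X)), ?_, ?_, ?_⟩
    · refine hW1.union (isOpen_biUnion fun y hy => ?_)
      exact IsOpen.prod hy hy
    · intro y
      by_cases hy : IsOpen ({y} : Set X)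
      · refine Or.inr (mem_biUnion (x := y) hy ⟨rfl, rfl⟩)
      · exact Or.inl (hDW1 ⟨y, hy, rfl⟩)
    · rintro v ⟨hv1, hv0⟩ w (hw | hw)
      · exact hVW ⟨hv1, hw⟩
      · obtain ⟨y, hy, hw1, hw2⟩ := mem_iUnion₂.1 hw
        obtain ⟨w1, w2⟩ := w
        simp only [mem_singleton_iff] at hw1 hw2
        subst hw1
        subst hw2
        exact h v hv0 _

theorem case1 (hX : Base X) (hC : IsCompact {x : X | ¬ IsOpen ({x} : Set X)})
    (hch : ∃ V : ℕ → Set X, (∀ n, IsOpen (V n) ∧ {x : X | ¬ IsOpen ({x} : Set X)} ⊆ V n) ∧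
      ∀ U, IsOpen U → {x : X | ¬ IsOpen ({x} : Set X)} ⊆ U → ∃ n, V n ⊆ U) : H3 X ∧ Beta X := by
  have := case1_firstCountable hX hC hch
  exact ⟨fun O hO => hO.isOpen_of_seq, case1_beta hC⟩

end KR3
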