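import Pool.Agent.KR3.Defs

/-!
# KR3.Case2

X Hausdorff with compact neighbourhoods: X (WeaklyLocallyCompactSpace + T2 ⇒ LocallyCompactSpace), so X × X × X is locally compact
and KOpen sets are open (compact nbhd K of the point: O ∩ K relatively open). Beta: V0 ∋ a contains a compact nbhd Vc of a;
for each y the compact Vc × {(y,y)} ⊆ O: tube lemma gives open W_y ∋ (y,y) with Vc × W_y ⊆ O. V = interior Vc, W = ⋃ W_y.
-/

namespace KR3

open Set Filter Topology

universe u v w

variable {X : Type u}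

variable [TopologicalSpace X]

theorem case2 [T2Space X] (hlc : ∀ x : X, ∃ K ∈ 𝓝 x, IsCompact K) : H3 X ∧ Beta X := by
  haveI : WeaklyLocallyCompactSpace X := ⟨fun x => by
    obtain ⟨K, hK, hc⟩ := hlc x
    exact ⟨K, hc, hK⟩⟩
  haveI : LocallyCompactSpace X := inferInstance
  refine ⟨?_, ?_⟩
  · intro O hO
    rw [isOpen_iff_mem_nhds]
    intro p hp
    obtain ⟨K, hK, hKn⟩ := exists_compact_mem_nhds p
    obtain ⟨O', hO', he⟩ := isOpen_induced_iff.1 (hO K hK)
    have hpK : p ∈ K := mem_of_mem_nhds hKn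
    have hiff : ∀ q ∈ K, (q ∈ O' ↔ q ∈ O) := by
      intro q hq
      have := congrArg (fun s : Set K => (⟨q, hq⟩ : K) ∈ s) he
      simpa using this
    filter_upwards [hO'.mem_nhds ((hiff p hpK).2 hp), hKn] with q hq hqK
    exact (hiff q hqK).1 hq
  · intro a O V0 hO hV0 ha h
    obtain ⟨Vc, hVc, haV, hVV⟩ := exists_compact_subset hV0 ha
    have hy : ∀ y : X, ∃ W : Set (X × X), IsOpen W ∧ (y, y) ∈ W ∧ ∀ v ∈ Vc, ∀ w ∈ W, (v, w) ∈ O := by
      intro y
      obtain ⟨U, W, -, hW, hU', hW', hUW⟩ := generalized_tube_lemma hVc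
        (isCompact_singleton (x := (y, y))) hO (by
          rintro ⟨v, w⟩ ⟨hv, hw⟩
          obtain rfl : w = (y, y) := hw
          exact h v (hVV hv) y)
      exact ⟨W, hW, hW' rfl, fun v hv w hw => hUW ⟨hU' hv, hw⟩⟩
    choose W hW hyW hWO using hy
    refine ⟨interior Vc, isOpen_interior, haV, ⋃ y, W y, isOpen_iUnion hW, ?_, ?_⟩
    · intro y
      exact mem_iUnion.2 ⟨y, hyW y⟩
    · intro v hv w hw
      obtain ⟨y, hy⟩ := mem_iUnion.1 hw
      exact hWO y v (interior_subset hv) w hy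

end KR3
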