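import Pool.Agent.KR3.Defs

/-!
# KR3.Comp

Graph-theoretic lemma. r symmetric reflexive relation on a type/set with countable neighbourhoods: the classes of the
generated equivalence relation are countable (union over n of the n-step neighbourhoods, each countable).
uncountable_indep: choose one element in every class; if there were only countably many classes the type would be countable.
-/

namespace KR3

open Set Filter Topology

universe u v w

variable {X : Type u}

theorem eqvGen_countable {Q : Type u} (r : Q → Q → Prop) (hc : ∀ a, {b | r a b ∨ r b a}.Countable)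
    (a : Q) : {b | Relation.EqvGen r a b}.Countable := by
  let S : ℕ → Set Q := fun n => Nat.rec {a} (fun _ T => T ∪ ⋃ x ∈ T, {b | r x b ∨ r b x}) n
  have hS0 : S 0 = {a} := rfl
  have hSs : ∀ n, S (n + 1) = S n ∪ ⋃ x ∈ S n, {b | r x b ∨ r b x} := fun n => rfl
  have hcS : ∀ n, (S n).Countable := by
    intro n
    induction n with
    | zero => rw [hS0]; exact countable_singleton a
    | succ n ih =>
      rw [hSs]
      exact ih.union (ih.biUnion fun x _ => hc x)
  refine (countable_iUnion hcS).mono ?_
  have key : ∀ x y, Relation.EqvGen r x y → (x ∈ ⋃ n, S n ↔ y ∈ ⋃ n, S n) := by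
    intro x y h
    induction h with
    | rel x y h =>
      constructor
      · intro hx
        obtain ⟨n, hn⟩ := mem_iUnion.1 hx
        refine mem_iUnion.2 ⟨n + 1, ?_⟩
        rw [hSs]
        exact Or.inr (mem_biUnion hn (Or.inl h))
      · intro hy
        obtain ⟨n, hn⟩ := mem_iUnion.1 hy
        refine mem_iUnion.2 ⟨n + 1, ?_⟩
        rw [hSs]
        exact Or.inr (mem_biUnion hn (Or.inr h))
    | refl x => exact Iff.rfl
    | symm x y _ ih => exact ih.symm
    | trans x y z _ _ ih1 ih2 => exact ih1.trans ih2
  intro b hb
  exact (key a b hb).1 (mem_iUnion.2 ⟨0, rfl⟩)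

/-- an uncountable set with a relation of countable degrees contains an uncountable independent set -/
theorem uncountable_indep {Q : Type u} [Uncountable Q] (r : Q → Q → Prop)
    (hc : ∀ a, {b | r a b ∨ r b a}.Countable) :
    ∃ J : Set Q, ¬ J.Countable ∧ ∀ a ∈ J, ∀ b ∈ J, a ≠ b → ¬ r a b := by
  let s : Setoid Q := Relation.EqvGen.setoid r
  refine ⟨range (Quotient.out : Quotient s → Q), fun hJ => ?_, ?_⟩
  · have h1 : (univ : Set Q) ⊆ ⋃ a ∈ range (Quotient.out : Quotient s → Q),
        {b | Relation.EqvGen r a b} := by
      intro b _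
      refine mem_biUnion (x := (Quotient.mk s b).out) ⟨_, rfl⟩ ?_
      exact Quotient.exact (Quotient.out_eq (Quotient.mk s b))
    have h2 : (univ : Set Q).Countable :=
      (hJ.biUnion fun a _ => eqvGen_countable r hc a).mono h1
    exact not_countable (α := Q) (countable_univ_iff.1 h2)
  · rintro _ ⟨x, rfl⟩ _ ⟨y, rfl⟩ hne h
    apply hne
    have : x.out ≈ y.out := Relation.EqvGen.rel _ _ h
    rw [Quotient.out_equiv_out.1 this]

end KR3
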