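import Pool.Agent.KR3.BaseI
import Pool.Agent.KR3.Comp

/-!
# KR3.DecM

WLOG drop the empty set from Q (Q₀ = {A ∈ Q | A.Nonempty}; still a k-network: remove ∅ from the finite families).
Relation on the type Q₀: r A B :⇔ (closure A ∩ closure B).Nonempty; countable degrees by hcl (C = closure A). Let I = Quot of
EqvGen r (classes). Every x lies in some A ∈ Q₀ (network for K = {x}); cl x = class of such an A (well defined: x ∈ A ∩ B gives
r A B; use a choice of A). For A ∈ Q₀ and x ∈ closure A: cl x = class A (the chosen B ∋ x has r A B).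
cl ⁻¹' {i} = ⋃_{A ∈ i} closure A. clopen: for L compact, covered by a finite F ⊆ Q₀ : L ∩ cl⁻¹{i} = L ∩ ⋃_{R ∈ F, R ∈ i} closure R
closed; similarly the complement; use the k-space property twice.
Y i n: enumerate the countable nonempty class i as A_0, A_1, ... and Y i n = ⋃_{k ≤ n} closure (A_k). exh: L ⊆ cl⁻¹{i} compact is
covered by a finite F ⊆ Q₀, keep the members meeting L; they are in class i, so occur among the A_k, k ≤ n, for n large.
-/

namespace KR3

open Set Filter Topology

universe u v w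

variable {X : Type u}

variable [TopologicalSpace X]

theorem decM (hX : Base X) (Q : Set (Set X)) (hQ : IsKNetwork Q) 
    (hcomp : ∀ A ∈ Q, IsCompact (closure A))
    (hcl : ∀ C : Set X, IsCompact C → {A ∈ Q | (closure A ∩ C).Nonempty}.Countable) :
    ∃ (I : Type u) (cl : X → I) (Y : I → ℕ → Set X), Dec X I cl Y := by
  classical
  let T : Type u := {A : Set X // A ∈ Q ∧ A.Nonempty}
  let r : T → T → Prop := fun A B => (closure A.1 ∩ closure B.1).Nonempty
  have hdeg : ∀ A : T, {B | r A B ∨ r B A}.Countable := by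
    intro A
    have h1 := hcl (closure A.1) (hcomp A.1 A.2.1)
    have h2 : ((fun B : T => B.1) ⁻¹' {B ∈ Q | (closure B ∩ closure A.1).Nonempty}).Countable :=
      h1.preimage Subtype.val_injective
    refine h2.mono ?_
    rintro B hB
    refine ⟨B.2.1, ?_⟩
    rcases hB with hB | hB
    · change (closure B.1 ∩ closure A.1).Nonempty
      rw [inter_comm]; exact hB
    · exact hB
  have hcov : ∀ L : Set X, IsCompact L → ∃ F : Set (Set X), F.Finite ∧
      (∀ A ∈ F, A ∈ Q ∧ A.Nonempty) ∧ L ⊆ ⋃₀ F := by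
    intro L hL
    obtain ⟨F, hF, hFQ, hLF, -⟩ := hQ L univ hL isOpen_univ (subset_univ L)
    refine ⟨{A ∈ F | A.Nonempty}, hF.subset (sep_subset _ _), fun A hA => ⟨hFQ hA.1, hA.2⟩, ?_⟩
    intro x hx
    obtain ⟨A, hA, hxA⟩ := hLF hx
    exact ⟨A, ⟨hA, ⟨x, hxA⟩⟩, hxA⟩
  have hpt : ∀ x : X, ∃ A : T, x ∈ A.1 := by
    intro x
    obtain ⟨F, -, hFQ, hxF⟩ := hcov {x} isCompact_singleton
    obtain ⟨A, hA, hxA⟩ := hxF (mem_singleton x)
    exact ⟨⟨A, hFQ A hA⟩, hxA⟩
  choose c hc using hpt
  have key : ∀ (A : T) (x : X), x ∈ closure A.1 → Quot.mk r (c x) = Quot.mk r A := by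
    intro A x hx
    exact Quot.sound ⟨x, subset_closure (hc x), hx⟩
  let cl : X → Quot r := fun x => Quot.mk r (c x)
  have hclosed : ∀ P : Quot r → Prop, IsClosed {x | P (cl x)} := by
    intro P
    refine hX.ksp _ fun L hL => ?_
    obtain ⟨F, hF, hFQ, hLF⟩ := hcov L hL
    have heq : (Subtype.val : L → X) ⁻¹' {x | P (cl x)} =
        (Subtype.val : L → X) ⁻¹' (⋃ A ∈ {A ∈ F | ∃ h : A ∈ Q ∧ A.Nonempty,
          P (Quot.mk r (⟨A, h⟩ : T))}, closure A) := by
      ext x
      simp only [mem_preimage, mem_iUnion]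
      constructor
      · intro hx
        obtain ⟨A, hA, hxA⟩ := hLF x.2
        refine ⟨A, ⟨hA, hFQ A hA, ?_⟩, subset_closure hxA⟩
        have h1 := key ⟨A, hFQ A hA⟩ x.1 (subset_closure hxA)
        have h2 : P (cl x.1) := hx
        change P (Quot.mk r (c x.1)) at h2
        rw [h1] at h2
        exact h2
      · rintro ⟨A, ⟨hA, h, hP⟩, hxA⟩
        change P (Quot.mk r (c x.1))
        rw [key ⟨A, h⟩ x.1 hxA]
        exact hP
    rw [heq]
    refine IsClosed.preimage continuous_subtype_val ?_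
    exact (hF.subset (sep_subset _ _)).isClosed_biUnion fun A _ => isClosed_closure
  have henum : ∀ i : Quot r, ∃ e : ℕ → T, ∀ B : T, Quot.mk r B = i ↔ ∃ k, e k = B := by
    intro i
    obtain ⟨A, rfl⟩ := Quot.exists_rep i
    have hcnt : {B : T | Quot.mk r B = Quot.mk r A}.Countable := by
      refine (eqvGen_countable r hdeg A).mono ?_
      intro B hB
      exact Quot.eqvGen_exact (Eq.symm hB)
    obtain ⟨e, he⟩ := hcnt.exists_eq_range ⟨A, rfl⟩
    refine ⟨e, fun B => ?_⟩
    have h1 : B ∈ {B : T | Quot.mk r B = Quot.mk r A} ↔ B ∈ range e := by rw [he]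
    exact h1
  choose e he using henum
  let Y : Quot r → ℕ → Set X := fun i n => ⋃ k ∈ Finset.range (n + 1), closure (e i k).1
  have hYsub : ∀ i n, Y i n ⊆ cl ⁻¹' {i} := by
    intro i n x hx
    simp only [Y, mem_iUnion] at hx
    obtain ⟨k, -, hxk⟩ := hx
    change Quot.mk r (c x) = i
    rw [key (e i k) x hxk]
    exact (he i (e i k)).2 ⟨k, rfl⟩
  refine ⟨Quot r, cl, Y, ?_, ?_, ?_, hYsub, ?_⟩
  · intro i
    refine ⟨hclosed fun j => j = i, ?_⟩
    rw [← isClosed_compl_iff]
    exact hclosed fun j => j ≠ i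
  · intro i n
    exact (Finset.range (n + 1)).isCompact_biUnion fun k _ => hcomp _ (e i k).2.1
  · intro i m n hmn
    refine biUnion_subset_biUnion_left ?_
    intro k hk
    have h1 : k ∈ Finset.range (m + 1) := hk
    have h2 : k ∈ Finset.range (n + 1) := by
      rw [Finset.mem_range] at h1 ⊢; omega
    exact h2
  · intro i L hL hLi
    obtain ⟨F, hF, hFQ, hLF⟩ := hcov L hL
    let kk : Set X → ℕ := fun A => if h : ∃ k, (e i k).1 = A then h.choose else 0
    refine ⟨hF.toFinset.sup kk, fun x hx => ?_⟩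
    obtain ⟨A, hA, hxA⟩ := hLF hx
    have h1 : Quot.mk r (⟨A, hFQ A hA⟩ : T) = i := by
      rw [← key ⟨A, hFQ A hA⟩ x (subset_closure hxA)]
      exact hLi hx
    obtain ⟨k, hk⟩ := (he i _).1 h1
    have h2 : ∃ k, (e i k).1 = A := ⟨k, by rw [hk]⟩
    have h3 : (e i (kk A)).1 = A := by
      simp only [kk, dif_pos h2]
      exact h2.choose_spec
    have h4 : kk A ≤ hF.toFinset.sup kk := Finset.le_sup (hF.mem_toFinset.2 hA)
    simp only [Y, mem_iUnion]
    refine ⟨kk A, Finset.mem_range.2 (by omega), ?_⟩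
    rw [h3]
    exact subset_closure hxA

end KR3
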