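import Mathlib

/-!
# KR3: definitions (k-spaces, k_R-spaces, free abelian topological groups, stratifiable spaces)
-/

namespace KR3

open Set Filter Topology

universe u v w

/-- The free abelian group on `X`, carrier of the free abelian topological group `A(X)`. -/
def FA (X : Type u) : Type u := FreeAbelianGroup X

instance (X : Type u) : AddCommGroup (FA X) := inferInstanceAs (AddCommGroup (FreeAbelianGroup X))

/-- The canonical map `X → A(X)`. -/
def FA.of {X : Type u} : X → FA X := FreeAbelianGroup.of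

/-- The topology of `A(X)` (Markov): the finest group topology on the free abelian group such that
the canonical map `X → A(X)` is continuous. -/
instance FA.instTop (X : Type u) [TopologicalSpace X] : TopologicalSpace (FA X) :=
  (AddGroupTopology.coinduced (FA.of : X → FA X)).toTopologicalSpace

instance FA.instGrp (X : Type u) [TopologicalSpace X] : IsTopologicalAddGroup (FA X) :=
  (AddGroupTopology.coinduced (FA.of : X → FA X)).toIsTopologicalAddGroup

/-- `A_3(X)`: the set of all `ε₁x₁+ε₂x₂+ε₃x₃` with `xᵢ ∈ X`, `εᵢ ∈ {-1,0,1}`. -/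
def A3 (X : Type u) : Set (FA X) :=
  {g | ∃ (x : Fin 3 → X) (ε : Fin 3 → ℤ), (∀ i, ε i = -1 ∨ ε i = 0 ∨ ε i = 1) ∧
    g = ∑ i, ε i • FA.of (x i)}

/-- `O` is `k`-open: its trace on every compact set is relatively open. -/
def KOpen {Z : Type u} [TopologicalSpace Z] (O : Set Z) : Prop :=
  ∀ K : Set Z, IsCompact K → IsOpen ((Subtype.val : K → Z) ⁻¹' O)

/-- `k`-spaces: a set is closed if its trace on every compact set `K` is closed in `K`. -/
def IsKSpace (Z : Type u) [TopologicalSpace Z] : Prop :=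
  ∀ F : Set Z, (∀ K : Set Z, IsCompact K → IsClosed ((Subtype.val : K → Z) ⁻¹' F)) → IsClosed F

/-- `k_R`-spaces: Tychonoff, and a real function is continuous if it is continuous on every
compact set. -/
def IsKRSpace (Z : Type u) [TopologicalSpace Z] : Prop :=
  T35Space Z ∧ ∀ f : Z → ℝ, (∀ K : Set Z, IsCompact K → ContinuousOn f K) → Continuous f

/-- Stratifiable spaces: regular `T₁` and every open `U` is assigned open sets `S U n` with
`closure (S U n) ⊆ U`, `⋃ n, S U n = U`, and `S U n ⊆ S V n` whenever `U ⊆ V`. -/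
def Stratifiable (X : Type u) [TopologicalSpace X] : Prop :=
  RegularSpace X ∧ T1Space X ∧ ∃ S : Set X → ℕ → Set X,
    (∀ U n, IsOpen U → IsOpen (S U n)) ∧ (∀ U n, IsOpen U → closure (S U n) ⊆ U) ∧
    (∀ U, IsOpen U → ⋃ n, S U n = U) ∧
    (∀ U V n, IsOpen U → IsOpen V → U ⊆ V → S U n ⊆ S V n)

/-- `k`-networks. -/
def IsKNetwork {X : Type u} [TopologicalSpace X] (P : Set (Set X)) : Prop :=
  ∀ K U : Set X, IsCompact K → IsOpen U → K ⊆ U →
    ∃ F : Set (Set X), F.Finite ∧ F ⊆ P ∧ K ⊆ ⋃₀ F ∧ ⋃₀ F ⊆ U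

/-- Compact-countable families: every compact set meets at most countably many members. -/
def CompactCountable {X : Type u} [TopologicalSpace X] (P : Set (Set X)) : Prop :=
  ∀ K : Set X, IsCompact K → {A ∈ P | (A ∩ K).Nonempty}.Countable

/-- The standing hypotheses on `X`: stratifiable `k`-space with a compact-countable `k`-network. -/
structure Base (X : Type u) [TopologicalSpace X] : Prop where
  strat : Stratifiable X
  ksp : IsKSpace X
  net : ∃ P : Set (Set X), IsKNetwork P ∧ CompactCountable P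

/-- closed discrete subsets (all subsets are closed) -/
def CD {X : Type u} [TopologicalSpace X] (D : Set X) : Prop := ∀ A ⊆ D, IsClosed A

/-- discrete families: every point has a neighbourhood meeting at most one member -/
def DiscFam {X : Type u} [TopologicalSpace X] {ι : Type v} (O : ι → Set X) : Prop :=
  ∀ x, ∃ N ∈ 𝓝 x, ∀ i j, (O i ∩ N).Nonempty → (O j ∩ N).Nonempty → i = j

/-- a stratification which is also increasing in `n` -/
structure IsStrat {X : Type u} [TopologicalSpace X] (S : Set X → ℕ → Set X) : Prop where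
  op : ∀ U n, IsOpen U → IsOpen (S U n)
  cl : ∀ U n, IsOpen U → closure (S U n) ⊆ U
  un : ∀ U, IsOpen U → ⋃ n, S U n = U
  mono : ∀ U V n, IsOpen U → IsOpen V → U ⊆ V → S U n ⊆ S V n
  incr : ∀ U m n, m ≤ n → S U m ⊆ S U n

/-- `M`-configuration: a compact `K` and infinite closed discrete sets `{a n m : m}` (`n ∈ ℕ`)
converging to `K`. -/
def HasM (X : Type u) [TopologicalSpace X] : Prop :=
  ∃ (K : Set X) (a : ℕ → ℕ → X), IsCompact K ∧ (∀ n, Function.Injective (a n)) ∧
    (∀ n, CD (range (a n))) ∧ ∀ V, IsOpen V → K ⊆ V → ∃ N, ∀ n ≥ N, ∀ m, a n m ∈ V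

/-- `S`-configuration (data): a compact `C` and sequences `s j` converging to `c j ∈ C` off `C`,
such that each compact set meets only finitely many of them. -/
structure SConf {X : Type u} [TopologicalSpace X] {J : Type v} (C : Set X) (s : J → ℕ → X)
    (c : J → X) : Prop where
  comp : IsCompact C
  mem : ∀ j, c j ∈ C
  lim : ∀ j, Tendsto (s j) atTop (𝓝 (c j))
  off : ∀ j m, s j m ∉ C
  fin : ∀ L, IsCompact L → {j | ∃ m, s j m ∈ L}.Finite

/-- `S`-configuration. -/
def HasS (J : Type v) (X : Type u) [TopologicalSpace X] : Prop :=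
  ∃ (C : Set X) (s : J → ℕ → X) (c : J → X), SConf C s c

/-- every `k`-open subset of `X × X × X` is open -/
def H3 (X : Type u) [TopologicalSpace X] : Prop := ∀ O : Set (X × X × X), KOpen O → IsOpen O

/-- the uniform tube property at the diagonal -/
def Beta (X : Type u) [TopologicalSpace X] : Prop :=
  ∀ (a : X) (O : Set (X × X × X)) (V0 : Set X), IsOpen O → IsOpen V0 → a ∈ V0 →
    (∀ v ∈ V0, ∀ y, (v, y, y) ∈ O) →
    ∃ V : Set X, IsOpen V ∧ a ∈ V ∧ ∃ W : Set (X × X), IsOpen W ∧ (∀ y, (y, y) ∈ W) ∧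
      ∀ v ∈ V, ∀ w ∈ W, (v, w) ∈ O

/-- continuous pseudometrics bounded by 1 -/
structure IsPM {X : Type u} [TopologicalSpace X] (ρ : X → X → ℝ) : Prop where
  cont : Continuous (fun p : X × X => ρ p.1 p.2)
  self : ∀ x, ρ x x = 0
  symm : ∀ x y, ρ x y = ρ y x
  tri : ∀ x y z, ρ x z ≤ ρ x y + ρ y z
  le_one : ∀ x y, ρ x y ≤ 1

/-- decomposition into clopen pieces `cl ⁻¹' {i}`, each exhausted by compact sets `Y i n` -/
structure Dec (X : Type u) [TopologicalSpace X] (I : Type v) (cl : X → I) (Y : I → ℕ → Set X) :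
    Prop where
  clopen : ∀ i, IsClopen (cl ⁻¹' {i})
  comp : ∀ i n, IsCompact (Y i n)
  mono : ∀ i, Monotone (Y i)
  sub : ∀ i n, Y i n ⊆ cl ⁻¹' {i}
  exh : ∀ i L, IsCompact L → L ⊆ cl ⁻¹' {i} → ∃ n, L ⊆ Y i n

/-- systems of compact relative neighbourhoods in a compact set `Y` -/
structure NSys {X : Type u} [TopologicalSpace X] (Y : Set X) (N : Set X → ℕ → Set X) : Prop where
  comp : ∀ K m, IsCompact K → K ⊆ Y → IsCompact (N K m)
  sub : ∀ K m, N K m ⊆ Y
  self : ∀ K m, K ⊆ Y → K ⊆ N K m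
  nhd : ∀ K m, IsCompact K → K ⊆ Y → ∃ O, IsOpen O ∧ K ⊆ O ∧ O ∩ Y ⊆ N K m
  mono : ∀ K K' m, K ⊆ K' → N K m ⊆ N K' m
  anti : ∀ K m m', m ≤ m' → N K m' ⊆ N K m
  small : ∀ K U, IsCompact K → K ⊆ Y → IsOpen U → K ⊆ U → ∃ m, N K m ⊆ U

end KR3
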