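import Pool.Agent.KR3.Api

/-!
# KR3.Disc

Elementary facts on discrete families, closed discrete sets, compact sets.
finite_compact: cover L by finitely many neighbourhoods N_x from the definition; each meets at most one O i.
cd_range: injectivity: x i = x j =: p, use the neighbourhood N of p. Closedness of A ⊆ range x: for p, the nbhd N
contains at most one of the points x i, so N ∩ (A \ {p}) is finite (≤ 1 point) (T1).
inter_compact_finite: D ∩ L is a closed subset of L hence compact, and all its subsets are closed, so it is
discrete: compact + discrete = finite.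
cd_of_finite_compact: for A ⊆ D and K compact, A ∩ K is finite hence closed, so A is closed by the k-property.
discFam_singletons: for x use N = (range q \ {x})ᶜ.
closed_iUnion: DiscFam implies LocallyFinite; LocallyFinite.isClosed_iUnion.
-/

namespace KR3

open Set Filter Topology

universe u v w

variable {X : Type u}

variable [TopologicalSpace X]

theorem DiscFam.locallyFinite {ι : Type v} {O : ι → Set X} (hO : DiscFam O) : LocallyFinite O := by
  intro x
  obtain ⟨N, hN, h⟩ := hO x
  refine ⟨N, hN, ?_⟩
  apply Set.Subsingleton.finite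
  intro i hi j hj
  exact h i j hi hj

theorem DiscFam.finite_compact {ι : Type v} {O : ι → Set X} (hO : DiscFam O) {L : Set X}
    (hL : IsCompact L) : {i | (O i ∩ L).Nonempty}.Finite := by
  exact hO.locallyFinite.finite_nonempty_inter_compact hL

theorem DiscFam.cd_range [T1Space X] {ι : Type v} {O : ι → Set X} (hO : DiscFam O) {x : ι → X}
    (hx : ∀ i, x i ∈ O i) : CD (range x) ∧ Function.Injective x := by
  have hinj : Function.Injective x := by
    intro i j hij
    obtain ⟨N, hN, h⟩ := hO (x i)
    have hm : x i ∈ N := mem_of_mem_nhds hN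
    exact h i j ⟨x i, hx i, hm⟩ ⟨x i, hij ▸ hx j, hm⟩
  refine ⟨?_, hinj⟩
  intro A hA
  have hlf : LocallyFinite (fun i : {i // x i ∈ A} => ({x i.1} : Set X)) := by
    have h1 : LocallyFinite (fun i : {i // x i ∈ A} => O i.1) :=
      hO.locallyFinite.comp_injective Subtype.val_injective
    exact h1.subset (fun i => singleton_subset_iff.2 (hx i.1))
  have hc := hlf.isClosed_iUnion (fun i => isClosed_singleton)
  have he : A = ⋃ i : {i // x i ∈ A}, ({x i.1} : Set X) := by
    ext y
    simp only [mem_iUnion, mem_singleton_iff, Subtype.exists, exists_prop]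
    constructor
    · intro hy
      obtain ⟨i, rfl⟩ := hA hy
      exact ⟨i, hy, rfl⟩
    · rintro ⟨i, hi, rfl⟩
      exact hi
  rw [he]
  exact hc

theorem DiscFam.mono {ι : Type v} {O O' : ι → Set X} (hO : DiscFam O) (h : ∀ i, O' i ⊆ O i) :
    DiscFam O' := by
  intro x
  obtain ⟨N, hN, hh⟩ := hO x
  refine ⟨N, hN, ?_⟩
  intro i j hi hj
  exact hh i j (hi.mono (inter_subset_inter_left _ (h i)))
    (hj.mono (inter_subset_inter_left _ (h j)))

theorem DiscFam.comp {ι : Type v} {κ : Type w} {O : ι → Set X} (hO : DiscFam O) {f : κ → ι}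
    (hf : Function.Injective f) : DiscFam (fun k => O (f k)) := by
  intro x
  obtain ⟨N, hN, hh⟩ := hO x
  refine ⟨N, hN, ?_⟩
  intro i j hi hj
  exact hf (hh _ _ hi hj)

theorem DiscFam.closed_iUnion {ι : Type v} {E : ι → Set X} (hE : DiscFam E)
    (hc : ∀ i, IsClosed (E i)) : IsClosed (⋃ i, E i) := by
  exact hE.locallyFinite.isClosed_iUnion hc

theorem CD.subset {D A : Set X} (hD : CD D) (h : A ⊆ D) : CD A := by
  intro B hB
  exact hD B (hB.trans h)

theorem CD.inter_compact_finite {D L : Set X} (hD : CD D) (hL : IsCompact L) : (D ∩ L).Finite := by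
  have hK : IsCompact (D ∩ L) := by
    rw [inter_comm]
    exact hL.inter_right (hD D subset_rfl)
  have hdisc : DiscreteTopology (D ∩ L : Set X) := by
    rw [discreteTopology_iff_forall_isClosed]
    intro A
    have h1 : IsClosed (Subtype.val '' A) := by
      apply hD
      rintro y ⟨z, -, rfl⟩
      exact z.2.1
    have h2 : A = Subtype.val ⁻¹' (Subtype.val '' A) :=
      (preimage_image_eq A Subtype.val_injective).symm
    rw [h2]
    exact h1.preimage continuous_subtype_val
  exact hK.finite (isDiscrete_iff_discreteTopology.2 hdisc)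

theorem cd_of_finite_compact [T1Space X] (hk : IsKSpace X) {D : Set X}
    (h : ∀ L : Set X, IsCompact L → (D ∩ L).Finite) : CD D := by
  intro A hA
  apply hk
  intro K hK
  have hf : (A ∩ K).Finite := (h K hK).subset (inter_subset_inter_left _ hA)
  have h1 : IsClosed (A ∩ K) := hf.isClosed
  have h2 : (Subtype.val : K → X) ⁻¹' A = Subtype.val ⁻¹' (A ∩ K) := by
    ext y
    simp [y.2]
  rw [h2]
  exact h1.preimage continuous_subtype_val

theorem CD.discFam_singletons {ι : Type v} {q : ι → X} (hq : Function.Injective q)
    (h : CD (range q)) : DiscFam (fun i => ({q i} : Set X)) := by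
  intro x
  refine ⟨(range q \ {x})ᶜ, ?_, ?_⟩
  · apply IsOpen.mem_nhds
    · exact (h _ diff_subset).isOpen_compl
    · simp
  · intro i j hi hj
    have key : ∀ k, (({q k} : Set X) ∩ (range q \ {x})ᶜ).Nonempty → q k = x := by
      rintro k ⟨y, hy1, hy2⟩
      rw [mem_singleton_iff] at hy1
      subst hy1
      by_contra hne
      exact hy2 ⟨mem_range_self k, hne⟩
    exact hq ((key i hi).trans (key j hj).symm)

end KR3
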