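import Pool.Agent.KR3.DomG

/-!
# KR3.DomF

Beta from domination. Given a, O, V0. Let i0 = cl a, n0 with a ∈ Y i0 n0, A n = Y i0 (n0+n) (monotone compact), K0 = {a},
NN n an NSys for A (n+1) (nsys). g0: recursively with Kseq NN K0 g0 n ⊆ V0 (NSys.small: start {a} ⊆ V0; define the sequence of pairs, or
define g0 via strong recursion/`exists_seq`...). For every class i and N let α i N, W i N be from domG. a_i n = max_{N ≤ n} α i N n.
For the nondiscrete classes hdom gives g with a_i ≤ g eventually; f = max g g0. V = ⋃ n, Kseq NN K0 f n: open by grow_open (shifted Dec;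
NSys.nhd), a ∈ V. For i nondiscrete choose N_i with f n ≥ a_i n for n ≥ N_i; W_i = W i N_i. [∀ n ≥ N_i: α i N_i n ≤ a_i n since N_i ≤ n.]
For a discrete class i: W_i = {(y,y) | cl y = i} open (points isolated); V ⊆ V0 because Kseq f n ⊆ Kseq g0 n (mono/anti) ⊆ V0.
W = ⋃ over all i.  (v,w) ∈ O for v ∈ V, w ∈ W.
-/

namespace KR3

open Set Filter Topology

universe u v w

variable {X : Type u}

variable [TopologicalSpace X]

theorem beta_of_dom (hX : Base X) {I : Type v} {cl : X → I} {Y : I → ℕ → Set X}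
    (hD : Dec X I cl Y) (h3 : H3 X)
    (hdom : ∀ f : {i : I // ∃ x, cl x = i ∧ ¬ IsOpen ({x} : Set X)} → ℕ → ℕ,
      ∃ g : ℕ → ℕ, ∀ i, ∀ᶠ n in atTop, f i n ≤ g n) : Beta X := by
  intro a O V0 hO hV0 ha hdiag
  obtain ⟨n0, hn0⟩ := hD.exh (cl a) {a} isCompact_singleton (by simp)
  let A : ℕ → Set X := fun n => Y (cl a) (n0 + n)
  have hA : ∀ n, IsCompact (A n) := fun n => hD.comp _ _
  have hAm : Monotone A := fun m n h => hD.mono _ (by omega)
  choose NN hNN using fun n => nsys hX (hA (n + 1))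
  have hK0A : ({a} : Set X) ⊆ A 0 := hn0
  -- construction of g0
  have step : ∀ (n : ℕ) (K : Set X), (IsCompact K ∧ K ⊆ A n ∧ K ⊆ V0) →
      ∃ m : ℕ, IsCompact (NN n K m) ∧ NN n K m ⊆ A (n + 1) ∧ NN n K m ⊆ V0 := by
    rintro n K ⟨hK, hKA, hKV⟩
    have hKA' : K ⊆ A (n + 1) := hKA.trans (hAm (by omega))
    obtain ⟨m, hm⟩ := (hNN n).small K V0 hK hKA' hV0 hKV
    exact ⟨m, (hNN n).comp _ _ hK hKA', (hNN n).sub _ _, hm⟩
  choose mf hmf using step
  let S : (n : ℕ) → {K : Set X // IsCompact K ∧ K ⊆ A n ∧ K ⊆ V0} := fun n =>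
    Nat.rec (motive := fun n => {K : Set X // IsCompact K ∧ K ⊆ A n ∧ K ⊆ V0})
      ⟨{a}, isCompact_singleton, hK0A, by simpa using ha⟩
      (fun n K => ⟨NN n K.1 (mf n K.1 K.2), hmf n K.1 K.2⟩) n
  let g0 : ℕ → ℕ := fun n => mf n (S n).1 (S n).2
  have hS : ∀ n, Kseq NN {a} g0 n = (S n).1 := by
    intro n
    induction n with
    | zero => rfl
    | succ n ih =>
      change NN n (Kseq NN {a} g0 n) (g0 n) = NN n (S n).1 (mf n (S n).1 (S n).2)
      rw [ih]
  have hb : ∀ n, Kseq NN {a} g0 n ⊆ V0 := fun n => by rw [hS]; exact (S n).2.2.2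
  choose α W hWo hWd hWf using fun (i : I) (N : ℕ) =>
    domG hX hD h3 A hA hAm NN hNN {a} isCompact_singleton hK0A g0 V0 hb O hO hdiag i N
  obtain ⟨g, hg⟩ := hdom (fun i n => (Finset.range (n + 1)).sup (fun N => α i.1 N n))
  let f : ℕ → ℕ := fun n => max (g n) (g0 n)
  have hfg0 : ∀ n, g0 n ≤ f n := fun n => le_max_right _ _
  have hVV0 : ∀ n, Kseq NN {a} f n ⊆ V0 := fun n => (domG_anti hNN hfg0 n).trans (hb n)
  have hVo : IsOpen (⋃ n, Kseq NN {a} f n) := by
    refine grow_open hX (domG_shift hD n0) (cl a) (Kseq NN {a} f) ?_ (domG_mono hAm hNN hK0A f) ?_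
    · intro n
      exact (domG_sub hNN hK0A f n).trans (hD.sub _ _)
    · intro n
      exact (hNN n).nhd _ _ (domG_comp hAm hNN isCompact_singleton hK0A f n)
        ((domG_sub hNN hK0A f n).trans (hAm (by omega)))
  have hWi : ∀ i : I, ∃ Wi : Set (X × X), IsOpen Wi ∧ (∀ y, cl y = i → (y, y) ∈ Wi) ∧
      ∀ v ∈ ⋃ n, Kseq NN {a} f n, ∀ w ∈ Wi, (v, w) ∈ O := by
    intro i
    by_cases hi : ∃ x, cl x = i ∧ ¬ IsOpen ({x} : Set X)
    · obtain ⟨N, hN⟩ := eventually_atTop.1 (hg ⟨i, hi⟩)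
      refine ⟨W i N, hWo i N, hWd i N, ?_⟩
      intro v hv w hw
      rw [mem_iUnion] at hv
      obtain ⟨n, hn⟩ := hv
      refine hWf i N f hfg0 (fun k hk => ?_) n v hn w hw
      have h1 : α i N k ≤ (Finset.range (k + 1)).sup (fun N => α i N k) :=
        Finset.le_sup (f := fun N => α i N k) (Finset.mem_range.2 (by omega))
      exact h1.trans ((hN k hk).trans (le_max_left _ _))
    · push Not at hi
      refine ⟨⋃ y ∈ {y : X | cl y = i}, ({y} : Set X) ×ˢ ({y} : Set X),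
        isOpen_biUnion fun y hy => (hi y hy).prod (hi y hy), ?_, ?_⟩
      · intro y hy
        exact mem_biUnion (show y ∈ {y : X | cl y = i} from hy) ⟨rfl, rfl⟩
      · intro v hv w hw
        rw [mem_iUnion] at hv
        obtain ⟨n, hn⟩ := hv
        simp only [mem_setOf_eq, mem_iUnion, mem_prod, mem_singleton_iff, exists_prop] at hw
        obtain ⟨y, -, h1, h2⟩ := hw
        have := hdiag v (hVV0 n hn) y
        obtain ⟨w1, w2⟩ := w
        simp only at h1 h2
        rw [h1, h2]; exact this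
  choose Wi hWio hWid hWiO using hWi
  refine ⟨⋃ n, Kseq NN {a} f n, hVo, mem_iUnion.2 ⟨0, rfl⟩, ⋃ i, Wi i, isOpen_iUnion hWio, ?_, ?_⟩
  · intro y
    exact mem_iUnion.2 ⟨cl y, hWid _ y rfl⟩
  · intro v hv w hw
    rw [mem_iUnion] at hw
    obtain ⟨i, hi⟩ := hw
    exact hWiO i v hv w hi

end KR3
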