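import Pool.Agent.KR3.Grow

/-!
# KR3.DomG

One class i and one start N. Setting: A n (= exhaustion of the class of a), N' n = NSys (A (n+1)) systems; a decreasing
bound sequence Kb : ℕ → Set X (Kb (n+1) = NN n (Kb n) (g0 n), all Kb n ⊆ V0, compact, Kb n ⊆ A n).
Claim: there are α : ℕ → ℕ with g0 ≤ α and an open W ⊇ diagonal of the class i such that for every f ≥ g0 (pointwise) with
f n ≥ α n for all n ≥ N:  V_f × W ⊆ O, where V_f = ⋃ n, Kf n, Kf 0 = Kb 0, Kf (n+1) = NN n (Kf n) (f n).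
Proof: recursively for n ≥ N build compact K n (K N = Kb N), L n ⊆ B n × B n (B n = Y i n; L N = diagonal of B N) and α n with
K n ⊆ Kb n, K n × L n ⊆ O, K (n+1) = NN n (K n) (α n), L (n+1) ⊇ relative nbhd of L n ∪ diag B(n+1) in B(n+1)². Step: K n ×
(L n ∪ diag B(n+1)) ⊆ O as K n ⊆ V0 (hypothesis hV0), compact; generalized_tube_lemma: open U1 ⊇ K n, U2 ⊇ L n ∪ diag with
U1 × U2 ⊆ O; NSys.small: m ≥ g0 n with NN n (K n) m ⊆ U1 (and ⊆ NN n (Kb n) (g0 n) = Kb (n+1) by mono, anti); L (n+1) := a compact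
relative nbhd of L n ∪ diag B(n+1) in B(n+1)² inside U2 (compact Hausdorff space B(n+1)²: exists compact between compact and open,
exists_compact_between in the subtype, or `IsCompact` + regular).
α n := m for n ≥ N, g0 n for n < N. Induction: for f as above Kf n ⊆ Kb n for all n, and Kf n ⊆ K n for n ≥ N.
So Kf n × L n ⊆ O for n ≥ N; both monotone in n ⇒ V_f × ⋃_{n≥N} L n ⊆ O. W = ⋃_{n ≥ N} L n is open by grow_open2
(apply it to the shifted sequence n ↦ L (N+n); use a shifted Dec) and contains (y,y) for all y with cl y = i (y ∈ B n for some n ≥ N).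
-/

namespace KR3

open Set Filter Topology

universe u v w

variable {X : Type u}

variable [TopologicalSpace X]

/-- the growth sequence -/
def Kseq (NN : ℕ → Set X → ℕ → Set X) (K0 : Set X) (f : ℕ → ℕ) : ℕ → Set X
  | 0 => K0
  | n + 1 => NN n (Kseq NN K0 f n) (f n)

theorem domG_shift {I : Type v} {cl : X → I} {Y : I → ℕ → Set X} (hD : Dec X I cl Y) (N : ℕ) :
    Dec X I cl (fun i n => Y i (N + n)) where
  clopen := hD.clopen
  comp := fun i n => hD.comp i _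
  mono := fun i m n h => hD.mono i (by omega)
  sub := fun i n => hD.sub i _
  exh := fun i L hL hLi => by
    obtain ⟨n, hn⟩ := hD.exh i L hL hLi
    exact ⟨n, hn.trans (hD.mono i (by omega))⟩

theorem domG_sub {A : ℕ → Set X} 
    {NN : ℕ → Set X → ℕ → Set X} (hNN : ∀ n, NSys (A (n + 1)) (NN n)) {K0 : Set X}
    (hK0A : K0 ⊆ A 0) (f : ℕ → ℕ) (n : ℕ) : Kseq NN K0 f n ⊆ A n := by
  cases n with
  | zero => exact hK0A
  | succ n => exact (hNN n).sub _ _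

theorem domG_comp {A : ℕ → Set X} (hAm : Monotone A)
    {NN : ℕ → Set X → ℕ → Set X} (hNN : ∀ n, NSys (A (n + 1)) (NN n)) {K0 : Set X}
    (hK0 : IsCompact K0) (hK0A : K0 ⊆ A 0) (f : ℕ → ℕ) (n : ℕ) :
    IsCompact (Kseq NN K0 f n) := by
  induction n with
  | zero => exact hK0
  | succ n ih =>
    exact (hNN n).comp _ _ ih ((domG_sub hNN hK0A f n).trans (hAm (by omega)))

theorem domG_mono {A : ℕ → Set X} (hAm : Monotone A)
    {NN : ℕ → Set X → ℕ → Set X} (hNN : ∀ n, NSys (A (n + 1)) (NN n)) {K0 : Set X}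
    (hK0A : K0 ⊆ A 0) (f : ℕ → ℕ) : Monotone (Kseq NN K0 f) := by
  refine monotone_nat_of_le_succ fun n => ?_
  exact (hNN n).self _ _ ((domG_sub hNN hK0A f n).trans (hAm (by omega)))

theorem domG_anti {A : ℕ → Set X} 
    {NN : ℕ → Set X → ℕ → Set X} (hNN : ∀ n, NSys (A (n + 1)) (NN n)) {K0 : Set X}
    {f g : ℕ → ℕ} (hfg : ∀ n, g n ≤ f n) (n : ℕ) : Kseq NN K0 f n ⊆ Kseq NN K0 g n := by
  induction n with
  | zero => exact subset_rfl
  | succ n ih =>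
    exact ((hNN n).mono _ _ _ ih).trans ((hNN n).anti _ _ _ (hfg n))

theorem domG (hX : Base X) {I : Type v} {cl : X → I} {Y : I → ℕ → Set X} (hD : Dec X I cl Y)
    (h3 : H3 X) (A : ℕ → Set X) (hA : ∀ n, IsCompact (A n)) (hAm : Monotone A)
    (NN : ℕ → Set X → ℕ → Set X) (hNN : ∀ n, NSys (A (n + 1)) (NN n)) (K0 : Set X)
    (hK0 : IsCompact K0) (hK0A : K0 ⊆ A 0) (g0 : ℕ → ℕ) (V0 : Set X)
    (hb : ∀ n, Kseq NN K0 g0 n ⊆ V0) (O : Set (X × X × X)) (hO : IsOpen O)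
    (hV0 : ∀ v ∈ V0, ∀ y, (v, y, y) ∈ O) (i : I) (N : ℕ) :
    ∃ α : ℕ → ℕ, ∃ W : Set (X × X), IsOpen W ∧ (∀ y, cl y = i → (y, y) ∈ W) ∧
      ∀ f : ℕ → ℕ, (∀ n, g0 n ≤ f n) → (∀ n, N ≤ n → α n ≤ f n) →
        ∀ n, ∀ v ∈ Kseq NN K0 f n, ∀ w ∈ W, (v, w) ∈ O := by
  classical
  haveI := hX.t4
  -- invariants
  let Kb : ℕ → Set X := Kseq NN K0 g0
  let Inv : ℕ → Set X × Set (X × X) → Prop := fun n p =>
    IsCompact p.1 ∧ p.1 ⊆ Kb (N + n) ∧ IsCompact p.2 ∧ p.2 ⊆ Y i (N + n) ×ˢ Y i (N + n) ∧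
      p.1 ×ˢ p.2 ⊆ O
  have step : ∀ (n : ℕ) (p : Set X × Set (X × X)), Inv n p → ∃ (m : ℕ) (L' : Set (X × X)),
      g0 (N + n) ≤ m ∧ Inv (n + 1) (NN (N + n) p.1 m, L') ∧
      ∃ O', IsOpen O' ∧ p.2 ∪ (fun y => (y, y)) '' Y i (N + (n + 1)) ⊆ O' ∧
        O' ∩ (Y i (N + (n + 1)) ×ˢ Y i (N + (n + 1))) ⊆ L' := by
    rintro n ⟨K, L⟩ ⟨hK, hKb, hL, hLB, hKL⟩
    simp only at hK hKb hL hLB hKL ⊢
    have hdc : Continuous (fun y : X => (y, y)) := by fun_prop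
    have hT : IsCompact (L ∪ (fun y => (y, y)) '' Y i (N + (n + 1))) :=
      hL.union ((hD.comp i _).image hdc)
    have hKT : K ×ˢ (L ∪ (fun y => (y, y)) '' Y i (N + (n + 1))) ⊆ O := by
      rintro ⟨v, w⟩ ⟨hv, hw⟩
      rcases hw with hw | ⟨y, -, rfl⟩
      · exact hKL ⟨hv, hw⟩
      · exact hV0 v (hb _ (hKb hv)) y
    obtain ⟨U1, U2, hU1, hU2, hKU1, hTU2, hUU⟩ := generalized_tube_lemma hK hT hO hKT
    have hKA : K ⊆ A (N + n + 1) :=
      hKb.trans ((domG_sub hNN hK0A g0 (N + n)).trans (hAm (by omega)))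
    obtain ⟨m0, hm0⟩ := (hNN (N + n)).small K U1 hK hKA hU1 hKU1
    obtain ⟨P, Q, hP, hQ, hTP, hQU, hPQ⟩ := SeparatedNhds.of_isCompact_isClosed hT
      hU2.isClosed_compl (disjoint_compl_right_iff_subset.2 hTU2)
    have hPU : closure P ⊆ U2 := by
      have h1 : closure P ⊆ Qᶜ :=
        closure_minimal (fun x hx hq => (Set.disjoint_left.1 hPQ hx hq)) hQ.isClosed_compl
      intro x hx
      by_contra hxU
      exact h1 hx (hQU hxU)
    have hBB : IsCompact (Y i (N + (n + 1)) ×ˢ Y i (N + (n + 1))) :=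
      (hD.comp i _).prod (hD.comp i _)
    refine ⟨max m0 (g0 (N + n)), closure P ∩ (Y i (N + (n + 1)) ×ˢ Y i (N + (n + 1))),
      le_max_right _ _, ⟨?_, ?_, ?_, ?_, ?_⟩, P, hP, hTP, ?_⟩
    · exact (hNN (N + n)).comp _ _ hK hKA
    · exact ((hNN (N + n)).mono _ _ _ hKb).trans ((hNN (N + n)).anti _ _ _ (le_max_right _ _))
    · exact hBB.inter_left isClosed_closure
    · exact inter_subset_right
    · rintro ⟨v, w⟩ ⟨hv, hw⟩
      exact hUU ⟨hm0 ((hNN (N + n)).anti _ _ _ (le_max_left _ _) hv), hPU hw.1⟩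
    · exact inter_subset_inter_left _ subset_closure
  choose mf Lf hmf hInv hLf using step
  have h0 : Inv 0 (Kb N, (fun y => (y, y)) '' Y i N) := by
    refine ⟨domG_comp hAm hNN hK0 hK0A g0 N, subset_rfl, (hD.comp i _).image (by fun_prop), ?_, ?_⟩
    · rintro _ ⟨y, hy, rfl⟩
      exact ⟨hy, hy⟩
    · rintro ⟨v, w⟩ ⟨hv, ⟨y, -, rfl⟩⟩
      exact hV0 v (hb _ hv) y
  let S : (n : ℕ) → {p : Set X × Set (X × X) // Inv n p} := fun n =>
    Nat.rec (motive := fun n => {p : Set X × Set (X × X) // Inv n p})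
      ⟨(Kb N, (fun y => (y, y)) '' Y i N), h0⟩
      (fun n p => ⟨(NN (N + n) p.1.1 (mf n p.1 p.2), Lf n p.1 p.2), hInv n p.1 p.2⟩) n
  have hS : ∀ n, (S (n + 1)).1 = (NN (N + n) (S n).1.1 (mf n (S n).1 (S n).2),
      Lf n (S n).1 (S n).2) := fun n => rfl
  let Kn : ℕ → Set X := fun n => (S n).1.1
  let Ln : ℕ → Set (X × X) := fun n => (S n).1.2
  let αn : ℕ → ℕ := fun n => mf n (S n).1 (S n).2
  have hKn : ∀ n, Kn (n + 1) = NN (N + n) (Kn n) (αn n) := fun n => rfl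
  have hLn : ∀ n, ∃ O', IsOpen O' ∧ Ln n ∪ (fun y => (y, y)) '' Y i (N + (n + 1)) ⊆ O' ∧
        O' ∩ (Y i (N + (n + 1)) ×ˢ Y i (N + (n + 1))) ⊆ Ln (n + 1) := fun n =>
    hLf n (S n).1 (S n).2
  have hLsub : ∀ n, Ln n ⊆ Y i (N + n) ×ˢ Y i (N + n) := fun n => (S n).2.2.2.2.1
  have hKL : ∀ n, Kn n ×ˢ Ln n ⊆ O := fun n => (S n).2.2.2.2.2
  have hLmono : Monotone Ln := by
    refine monotone_nat_of_le_succ fun n => ?_
    obtain ⟨O', -, h1, h2⟩ := hLn n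
    intro w hw
    have hw2 := hLsub n hw
    exact h2 ⟨h1 (Or.inl hw), hD.mono i (by omega) hw2.1, hD.mono i (by omega) hw2.2⟩
  refine ⟨fun n => αn (n - N), ⋃ n, Ln n, ?_, ?_, ?_⟩
  · refine grow_open2 hX (domG_shift hD N) (fun O hO => h3.h2 O hO) i Ln ?_ hLmono ?_
    · intro n w hw
      have hw2 := hLsub n hw
      exact ⟨hD.sub _ _ hw2.1, hD.sub _ _ hw2.2⟩
    · intro n
      obtain ⟨O', h0, h1, h2⟩ := hLn n
      exact ⟨O', h0, subset_union_left.trans h1, h2⟩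
  · intro y hy
    obtain ⟨n, hn⟩ := hD.exh i {y} isCompact_singleton (by simpa using hy)
    rw [mem_iUnion]
    refine ⟨n + 1, ?_⟩
    obtain ⟨O', -, h1, h2⟩ := hLn n
    have hy' : y ∈ Y i (N + (n + 1)) := hD.mono i (by omega) (hn rfl)
    exact h2 ⟨h1 (Or.inr ⟨y, hy', rfl⟩), hy', hy'⟩
  · intro f hg hα n v hv w hw
    rw [mem_iUnion] at hw
    obtain ⟨k, hk⟩ := hw
    have hmain : ∀ n, Kseq NN K0 f (N + n) ⊆ Kn n := by
      intro n
      induction n with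
      | zero => exact domG_anti hNN hg N
      | succ n ih =>
        rw [hKn]
        refine ((hNN (N + n)).mono _ _ _ ih).trans ((hNN (N + n)).anti _ _ _ ?_)
        have := hα (N + n) (by omega)
        simpa using this
    have hv2 : v ∈ Kn (n + k) :=
      hmain _ (domG_mono hAm hNN hK0A f (show n ≤ N + (n + k) by omega) hv)
    have hw2 : w ∈ Ln (n + k) := hLmono (by omega) hk
    exact hKL _ ⟨hv2, hw2⟩

end KR3
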