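import Pool.Agent.KR3.BaseI

/-!
# KR3.Exp

Expansion of an S-configuration. Let E = {s j m}. Levels L k of the open set Cᶜ (Stratifiable.levels). E ∩ closure (L k) is
CD: by cd_of_finite_compact it suffices that for K compact E ∩ closure (L k) ∩ K is finite: only finitely many j have a
point s j m in K (conf.fin), and for each j only finitely many m have s j m ∈ closure (L k) since s j → c j ∈ C ⊆
(closure (L k))ᶜ open. For x ∈ E let k(x) be the least k with x ∈ L k (Nat.find). For each k expand E ∩ closure (L k)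
(index type the subtype) to a discrete open family O k x. With g from Stratifiable.gfun put
T x = O (k x) x ∩ g (k x) x ∩ Cᶜ  and  T j m = T (s j m).
Claim: for K compact J_K = {j | ∃ m, (T j m ∩ K).Nonempty} is finite. Otherwise choose an injective sequence j_i ∈ J_K with
m_i, l_i ∈ T (x_i) ∩ K, x_i = s j_i m_i. Each value x is taken finitely often (conf.fin {x}).
(1) For each k only finitely many i have k(x_i) = k: the points x with k(x) = k and O k x ∩ K ≠ ∅ are finitely many
(DiscFam.finite_compact) and each is taken finitely often. So k(x_i) → ∞ (Nat.cofinite_eq_atTop style).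
(2) seqCompact: subsequence l_{φ i} → a ∈ K. gfun: x_{φ i} → a. Then K' = {a} ∪ {x_{φ i}} is compact
(Tendsto.isCompact_insert_range) and meets s j for infinitely many j: contradiction with conf.fin.
-/

namespace KR3

open Set Filter Topology

universe u v w

variable {X : Type u}

variable [TopologicalSpace X]

theorem exp (hX : Base X) {J : Type v} {C : Set X} {s : J → ℕ → X} {c : J → X}
    (h : SConf C s c) : ∃ T : J → ℕ → Set X,
      (∀ j m, IsOpen (T j m) ∧ s j m ∈ T j m ∧ Disjoint (T j m) C) ∧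
      ∀ L : Set X, IsCompact L → {j | ∃ m, (T j m ∩ L).Nonempty}.Finite := by
  classical
  have := hX.t2
  have hCc : IsOpen Cᶜ := h.comp.isClosed.isOpen_compl
  obtain ⟨L, hLo, hLcl, -, hLU⟩ := hX.strat.levels Cᶜ hCc
  obtain ⟨g, hg1, hg2⟩ := hX.strat.gfun
  let E : Set X := {x | ∃ j m, s j m = x}
  have hcd : ∀ k, CD (E ∩ closure (L k)) := by
    intro k
    refine cd_of_finite_compact hX.ksp fun K hK => ?_
    have hfin : (⋃ j ∈ {j | ∃ m, s j m ∈ K}, s j '' {m | s j m ∈ closure (L k)}).Finite := by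
      refine (h.fin K hK).biUnion fun j _ => Set.Finite.image _ ?_
      have hev : ∀ᶠ m in atTop, s j m ∉ closure (L k) :=
        (h.lim j).eventually (isClosed_closure.isOpen_compl.mem_nhds
          fun hc => hLcl k hc (h.mem j))
      rw [← Nat.cofinite_eq_atTop, eventually_cofinite] at hev
      simpa using hev
    refine hfin.subset ?_
    rintro x ⟨⟨⟨j, m, rfl⟩, hx⟩, hxK⟩
    exact mem_biUnion (show j ∈ {j | ∃ m, s j m ∈ K} from ⟨m, hxK⟩) ⟨m, hx, rfl⟩
  have hκ : ∀ j m, ∃ k, s j m ∈ L k := by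
    intro j m
    have : s j m ∈ ⋃ n, L n := by rw [hLU]; exact h.off j m
    exact mem_iUnion.1 this
  choose κ hκ using hκ
  have hexp : ∀ k, ∃ O : ↥(E ∩ closure (L k)) → Set X, (∀ i, IsOpen (O i) ∧ (i : X) ∈ O i) ∧
      DiscFam O := by
    intro k
    refine hX.expand (q := fun i : ↥(E ∩ closure (L k)) => (i : X)) Subtype.val_injective ?_
    rw [Subtype.range_coe]; exact hcd k
  choose O hO hOd using hexp
  have hmemE : ∀ j m, s j m ∈ E ∩ closure (L (κ j m)) := fun j m =>
    ⟨⟨j, m, rfl⟩, subset_closure (hκ j m)⟩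
  refine ⟨fun j m => O (κ j m) ⟨s j m, hmemE j m⟩ ∩ g (κ j m) (s j m) ∩ Cᶜ, ?_, ?_⟩
  · intro j m
    refine ⟨((hO _ _).1.inter (hg1 _ _).1).inter hCc, ⟨⟨(hO _ _).2, (hg1 _ _).2⟩, h.off j m⟩, ?_⟩
    exact disjoint_left.2 fun x hx hxC => hx.2 hxC
  · intro K hK
    by_contra hinf
    let e := Set.Infinite.natEmbedding _ hinf
    let j : ℕ → J := fun i => (e i).1
    have hjinj : Function.Injective j := fun a b hab => e.injective (Subtype.ext hab)
    have hj : ∀ i, ∃ m l, l ∈ O (κ (j i) m) ⟨s (j i) m, hmemE (j i) m⟩ ∩ g (κ (j i) m) (s (j i) m) ∩ Cᶜ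
        ∧ l ∈ K := by
      intro i
      obtain ⟨m, l, hl1, hl2⟩ := (e i).2
      exact ⟨m, l, hl1, hl2⟩
    choose m l hl hlK using hj
    have hk : Tendsto (fun i => κ (j i) (m i)) atTop atTop := by
      rw [tendsto_atTop]
      intro b
      rw [← Nat.cofinite_eq_atTop, eventually_cofinite]
      have hfk : ∀ k, {i | κ (j i) (m i) = k}.Finite := by
        intro k
        have hF : {z : ↥(E ∩ closure (L k)) | (O k z ∩ K).Nonempty}.Finite :=
          (hOd k).finite_compact hK
        have hF2 : (⋃ z ∈ {z : ↥(E ∩ closure (L k)) | (O k z ∩ K).Nonempty},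
            {j | ∃ m, s j m ∈ ({(z : X)} : Set X)}).Finite :=
          hF.biUnion fun z _ => h.fin _ isCompact_singleton
        have hF3 := hF2.preimage (f := j) hjinj.injOn
        refine hF3.subset ?_
        intro i hi
        have hi' : κ (j i) (m i) = k := hi
        subst hi'
        exact mem_biUnion (show (⟨s (j i) (m i), hmemE (j i) (m i)⟩ : ↥(E ∩ closure (L (κ (j i) (m i))))) ∈
          {z : ↥(E ∩ closure (L (κ (j i) (m i)))) | (O (κ (j i) (m i)) z ∩ K).Nonempty} from
          ⟨l i, (hl i).1.1, hlK i⟩) ⟨m i, rfl⟩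
      have hU : (⋃ k ∈ Set.Iio b, {i | κ (j i) (m i) = k}).Finite :=
        (Set.finite_Iio b).biUnion fun k _ => hfk k
      refine hU.subset ?_
      intro i hi
      have hi' : κ (j i) (m i) < b := not_le.1 hi
      exact mem_biUnion hi' rfl
    obtain ⟨a, haK, φ, hφ, hlim⟩ := hX.seqCompact hK l hlK
    have hx : Tendsto (fun i => s (j (φ i)) (m (φ i))) atTop (𝓝 a) := by
      refine hg2 (l ∘ φ) _ (fun i => κ (j (φ i)) (m (φ i))) a (hk.comp hφ.tendsto_atTop) ?_ hlim
      intro i
      exact (hl (φ i)).1.2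
    have hfin := h.fin _ hx.isCompact_insert_range
    refine Set.infinite_of_injective_forall_mem (f := fun i => j (φ i))
      (hjinj.comp hφ.injective) (fun i => ?_) hfin
    exact ⟨m (φ i), Or.inr ⟨i, rfl⟩⟩

end KR3
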