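import Pool.Agent.KR3.Grow

/-!
# KR3.H3D

Every k-open O ⊆ X × X × X is open. Let (a,b,c) ∈ O, i = cl a, j = cl b, k = cl c. WLOG (shift the exhaustions: exh for the
singletons) a ∈ Y i 0 etc.; precisely choose n0 with a ∈ Y i n0, b ∈ Y j n0, c ∈ Y k n0 and use A n = Y i (n0+n), ... (a Dec
for shifted exhaustions: prove a small lemma Dec.shift).
Inductively build compact K n ⊆ A n, L n ⊆ B n, M n ⊆ C n with K n × L n × M n ⊆ O, K 0 = {a}, ..., and relative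
neighbourhoods K (n+1) of K n in A (n+1) etc. Step: the compact set Z = A(n+1) × B(n+1) × C(n+1) has val⁻¹ O relatively open, so
there is an open O' of X×X×X with O' ∩ Z = O ∩ Z (KOpen); K n × (L n × M n) ⊆ O'; generalized_tube_lemma twice gives open
U1 ⊇ K n, U2 ⊇ L n, U3 ⊇ M n with U1×U2×U3 ⊆ O'; NSys.small for the three sets: m with N (K n) m ⊆ U1 etc.; take these.
Finally V1 = ⋃ K n etc. are open by grow_open, contain a, b, c and V1×V2×V3 ⊆ O (monotone sequences).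
-/

namespace KR3

open Set Filter Topology

universe u v w

variable {X : Type u}

variable [TopologicalSpace X]

theorem Dec.shift {I : Type v} {cl : X → I} {Y : I → ℕ → Set X} (hD : Dec X I cl Y) (n0 : ℕ) :
    Dec X I cl (fun i n => Y i (n0 + n)) where
  clopen := hD.clopen
  comp i n := hD.comp i _
  mono i m n h := hD.mono i (Nat.add_le_add_left h n0)
  sub i n := hD.sub i _
  exh i L hL hLi := by
    obtain ⟨n, hn⟩ := hD.exh i L hL hLi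
    exact ⟨n, hn.trans (hD.mono i (Nat.le_add_left n n0))⟩

/-- one growth step for three compact sets -/
theorem h3_step (hX : Base X) {O : Set (X × X × X)} (hO : KOpen O) {A B C : Set X}
    (hA : IsCompact A) (hB : IsCompact B) (hC : IsCompact C) {K L M : Set X}
    (hK : IsCompact K) (hL : IsCompact L) (hM : IsCompact M) (hKA : K ⊆ A) (hLB : L ⊆ B)
    (hMC : M ⊆ C) (hKLM : K ×ˢ (L ×ˢ M) ⊆ O) :
    ∃ K' L' M' : Set X, (IsCompact K' ∧ IsCompact L' ∧ IsCompact M') ∧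
      (K' ⊆ A ∧ L' ⊆ B ∧ M' ⊆ C) ∧ K' ×ˢ (L' ×ˢ M') ⊆ O ∧ (K ⊆ K' ∧ L ⊆ L' ∧ M ⊆ M') ∧
      (∃ U, IsOpen U ∧ K ⊆ U ∧ U ∩ A ⊆ K') ∧ (∃ U, IsOpen U ∧ L ⊆ U ∧ U ∩ B ⊆ L') ∧
      (∃ U, IsOpen U ∧ M ⊆ U ∧ U ∩ C ⊆ M') := by
  obtain ⟨O', hO', hOO'⟩ := isOpen_induced_iff.1 (hO _ (hA.prod (hB.prod hC)))
  have h1 : ∀ p ∈ A ×ˢ (B ×ˢ C), (p ∈ O' ↔ p ∈ O) := fun p hp => by
    have := congrArg (fun s => (⟨p, hp⟩ : (A ×ˢ (B ×ˢ C) : Set (X × X × X))) ∈ s) hOO'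
    simpa using this
  have h2 : K ×ˢ (L ×ˢ M) ⊆ O' := fun p hp =>
    (h1 p ⟨hKA hp.1, hLB hp.2.1, hMC hp.2.2⟩).2 (hKLM hp)
  obtain ⟨U1, V, hU1, hV, hKU1, hLMV, hUV⟩ := generalized_tube_lemma hK (hL.prod hM) hO' h2
  obtain ⟨U2, U3, hU2, hU3, hLU2, hMU3, hU23⟩ := generalized_tube_lemma hL hM hV hLMV
  obtain ⟨NA, hNA⟩ := nsys hX hA
  obtain ⟨NB, hNB⟩ := nsys hX hB
  obtain ⟨NC, hNC⟩ := nsys hX hC
  obtain ⟨m1, hm1⟩ := hNA.small K U1 hK hKA hU1 hKU1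
  obtain ⟨m2, hm2⟩ := hNB.small L U2 hL hLB hU2 hLU2
  obtain ⟨m3, hm3⟩ := hNC.small M U3 hM hMC hU3 hMU3
  refine ⟨NA K m1, NB L m2, NC M m3, ⟨hNA.comp K m1 hK hKA, hNB.comp L m2 hL hLB,
    hNC.comp M m3 hM hMC⟩, ⟨hNA.sub K m1, hNB.sub L m2, hNC.sub M m3⟩, ?_,
    ⟨hNA.self K m1 hKA, hNB.self L m2 hLB, hNC.self M m3 hMC⟩, hNA.nhd K m1 hK hKA,
    hNB.nhd L m2 hL hLB, hNC.nhd M m3 hM hMC⟩
  intro p hp
  refine (h1 p ⟨hNA.sub K m1 hp.1, hNB.sub L m2 hp.2.1, hNC.sub M m3 hp.2.2⟩).1 (hUV ?_)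
  exact ⟨hm1 hp.1, hU23 ⟨hm2 hp.2.1, hm3 hp.2.2⟩⟩

theorem h3_aux (hX : Base X) {I : Type v} {cl : X → I} {Y : I → ℕ → Set X} (hD : Dec X I cl Y)
    {O : Set (X × X × X)} (hO : KOpen O) (a b c : X) (i j k : I) (ha : a ∈ Y i 0) (hb : b ∈ Y j 0)
    (hc : c ∈ Y k 0) (habc : (a, b, c) ∈ O) : ∃ t ⊆ O, IsOpen t ∧ (a, b, c) ∈ t := by
  let P : ℕ → Set X × Set X × Set X → Prop := fun n s =>
    (IsCompact s.1 ∧ IsCompact s.2.1 ∧ IsCompact s.2.2) ∧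
      (s.1 ⊆ Y i n ∧ s.2.1 ⊆ Y j n ∧ s.2.2 ⊆ Y k n) ∧ s.1 ×ˢ (s.2.1 ×ˢ s.2.2) ⊆ O
  let R : ℕ → Set X × Set X × Set X → Set X × Set X × Set X → Prop := fun n s s' =>
    (s.1 ⊆ s'.1 ∧ s.2.1 ⊆ s'.2.1 ∧ s.2.2 ⊆ s'.2.2) ∧
      (∃ U, IsOpen U ∧ s.1 ⊆ U ∧ U ∩ Y i (n + 1) ⊆ s'.1) ∧
      (∃ U, IsOpen U ∧ s.2.1 ⊆ U ∧ U ∩ Y j (n + 1) ⊆ s'.2.1) ∧
      (∃ U, IsOpen U ∧ s.2.2 ⊆ U ∧ U ∩ Y k (n + 1) ⊆ s'.2.2)
  have hstep : ∀ n s, P n s → ∃ s', P (n + 1) s' ∧ R n s s' := by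
    rintro n ⟨K, L, M⟩ ⟨⟨hK, hL, hM⟩, ⟨hKA, hLB, hMC⟩, hKLM⟩
    obtain ⟨K', L', M', h1, h2, h3, h4, h5, h6, h7⟩ := h3_step hX hO (hD.comp i (n + 1))
      (hD.comp j (n + 1)) (hD.comp k (n + 1)) hK hL hM (hKA.trans (hD.mono i (Nat.le_succ n)))
      (hLB.trans (hD.mono j (Nat.le_succ n))) (hMC.trans (hD.mono k (Nat.le_succ n))) hKLM
    exact ⟨(K', L', M'), ⟨h1, h2, h3⟩, h4, h5, h6, h7⟩
  choose! g hg using hstep
  let f : ℕ → Set X × Set X × Set X := fun n => Nat.rec ({a}, {b}, {c}) (fun n s => g n s) n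
  have hf0 : f 0 = ({a}, {b}, {c}) := rfl
  have hfs : ∀ n, f (n + 1) = g n (f n) := fun n => rfl
  have hP : ∀ n, P n (f n) := by
    intro n
    induction n with
    | zero =>
      rw [hf0]
      refine ⟨⟨isCompact_singleton, isCompact_singleton, isCompact_singleton⟩,
        ⟨by simpa using ha, by simpa using hb, by simpa using hc⟩, ?_⟩
      rintro ⟨x, y, z⟩ ⟨hx, hy, hz⟩
      simp only [mem_singleton_iff] at hx hy hz
      subst hx hy hz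
      exact habc
    | succ n ih =>
      rw [hfs]
      exact (hg n (f n) ih).1
  have hR : ∀ n, R n (f n) (f (n + 1)) := fun n => by
    rw [hfs]
    exact (hg n (f n) (hP n)).2
  have hm1 : Monotone (fun n => (f n).1) := monotone_nat_of_le_succ fun n => (hR n).1.1
  have hm2 : Monotone (fun n => (f n).2.1) := monotone_nat_of_le_succ fun n => (hR n).1.2.1
  have hm3 : Monotone (fun n => (f n).2.2) := monotone_nat_of_le_succ fun n => (hR n).1.2.2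
  have ho1 : IsOpen (⋃ n, (f n).1) := grow_open hX hD i _
    (fun n => (hP n).2.1.1.trans (hD.sub i n)) hm1 (fun n => (hR n).2.1)
  have ho2 : IsOpen (⋃ n, (f n).2.1) := grow_open hX hD j _
    (fun n => (hP n).2.1.2.1.trans (hD.sub j n)) hm2 (fun n => (hR n).2.2.1)
  have ho3 : IsOpen (⋃ n, (f n).2.2) := grow_open hX hD k _
    (fun n => (hP n).2.1.2.2.trans (hD.sub k n)) hm3 (fun n => (hR n).2.2.2)
  refine ⟨(⋃ n, (f n).1) ×ˢ ((⋃ n, (f n).2.1) ×ˢ (⋃ n, (f n).2.2)), ?_,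
    ho1.prod (ho2.prod ho3), ?_⟩
  · rintro ⟨x, y, z⟩ ⟨hx, hy, hz⟩
    obtain ⟨n1, hn1⟩ := mem_iUnion.1 hx
    obtain ⟨n2, hn2⟩ := mem_iUnion.1 hy
    obtain ⟨n3, hn3⟩ := mem_iUnion.1 hz
    refine (hP (max n1 (max n2 n3))).2.2 ⟨hm1 (le_max_left _ _) hn1,
      hm2 ((le_max_left n2 n3).trans (le_max_right n1 _)) hn2,
      hm3 ((le_max_right n2 n3).trans (le_max_right n1 _)) hn3⟩
  · refine ⟨mem_iUnion.2 ⟨0, ?_⟩, mem_iUnion.2 ⟨0, ?_⟩, mem_iUnion.2 ⟨0, ?_⟩⟩ <;>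
      · rw [hf0]
        exact mem_singleton _

theorem h3_of_dec (hX : Base X) {I : Type v} {cl : X → I} {Y : I → ℕ → Set X} (hD : Dec X I cl Y) :
    H3 X := by
  intro O hO
  rw [isOpen_iff_forall_mem_open]
  rintro ⟨a, b, c⟩ habc
  have hex : ∀ x : X, ∃ n, x ∈ Y (cl x) n := fun x => by
    obtain ⟨n, hn⟩ := hD.exh (cl x) {x} isCompact_singleton (by simp)
    exact ⟨n, hn rfl⟩
  obtain ⟨n1, hn1⟩ := hex a
  obtain ⟨n2, hn2⟩ := hex b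
  obtain ⟨n3, hn3⟩ := hex c
  refine h3_aux hX (hD.shift (max n1 (max n2 n3))) hO a b c (cl a) (cl b) (cl c) ?_ ?_ ?_ habc
  · exact hD.mono _ (le_max_left n1 _) hn1
  · exact hD.mono _ ((le_max_left n2 n3).trans (le_max_right n1 _)) hn2
  · exact hD.mono _ ((le_max_right n2 n3).trans (le_max_right n1 _)) hn3

end KR3
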