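import Pool.Agent.KR3.BaseI

/-!
# KR3.Kws

i = cl p; Y n := Y i n, WLOG p ∈ Y n for n ≥ n0 (exh {p}). Say Z n q :⇔ q ∈ Y n and some sequence with all terms in
cl⁻¹{i} \ Y n converges to q. If n ≤ n', q ∈ Y n and Z n' q then Z n q.
Case 1: Z n p for infinitely many n, hence for all n ≥ n0: sequences s n → p outside Y (n0+n) inside cl⁻¹{i}: SConf with C = {p}:
for L compact, L ∩ cl⁻¹{i} is compact, ⊆ Y N, so s n meets L only if n0+n < N.
Case 2: there is n1 ≥ n0 with ¬ Z n p for all n ≥ n1. Claim: for every n ≥ n1, p ∈ closure {q ∈ Y n1 | Z n q}.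
Otherwise there is an open G ∋ p with no point of G ∩ Y n1 satisfying Z n. Claim: there is an open G' ∋ p with
G' ∩ Y n ⊆ Y n1: else p ∈ closure (Y n \ Y n1), and seq_in_compact gives a sequence in Y n \ Y n1 converging to p, i.e. Z n1 p,
contradiction. U = G ∩ G' ∩ Y n (⊆ Y n1): contains p, no point satisfies Z n; it is open by open_of_seq: s k → x ∈ U:
eventually s k ∈ G ∩ G' ∩ cl⁻¹{i}; if no s k ∈ U then eventually s k ∉ Y n, so Z n x (shift the sequence), contradiction.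
So Y n ⊇ U is a compact neighbourhood of p: contradiction with hp.
By seq_in_compact + diagonal choice: Y n1 is first countable at p (second countable compact): choose a decreasing countable
base G_n of p relative to Y n1 and q_n ∈ G_n ∩ Y n1 with Z n q_n (n ≥ n1): q_n → p. (Alternative: for each n take a sequence
in {q ∈ Y n1 | Z n q} → p, and use the metric of Y n1 to pick q_n within 1/n of p.)
C = {p} ∪ {q_n} compact ⊆ Y n1 ⊆ Y n; s n → q_n outside Y n, inside cl⁻¹{i}: SConf C with index n ≥ n1 (shift).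
-/

namespace KR3

open Set Filter Topology

universe u v w

variable {X : Type u}

variable [TopologicalSpace X]

/-- `q ∈ Y n` is a limit of a sequence of the piece outside `Y n` -/
private def Zp (P : Set X) (Y : ℕ → Set X) (n : ℕ) (q : X) : Prop :=
  q ∈ Y n ∧ ∃ s : ℕ → X, (∀ k, s k ∈ P \ Y n) ∧ Tendsto s atTop (𝓝 q)

private theorem kws_fin {I : Type v} {cl : X → I} {Y : I → ℕ → Set X} (hD : Dec X I cl Y)
    (i : I) (n0 : ℕ) (s : ℕ → ℕ → X) (hs : ∀ j m, s j m ∈ cl ⁻¹' {i} \ Y i (n0 + j))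
    (L : Set X) (hL : IsCompact L) : {j | ∃ m, s j m ∈ L}.Finite := by
  obtain ⟨N, hN⟩ := hD.exh i (L ∩ cl ⁻¹' {i}) (hL.inter_right (hD.clopen i).1) inter_subset_right
  refine (finite_Iio N).subset ?_
  rintro j ⟨m, hm⟩
  by_contra hlt
  rw [mem_Iio, not_lt] at hlt
  exact (hs j m).2 (hD.mono i (by omega : N ≤ n0 + j) (hN ⟨hm, (hs j m).1⟩))

theorem kws (hX : Base X) {I : Type v} {cl : X → I} {Y : I → ℕ → Set X} (hD : Dec X I cl Y)
    (p : X) (hp : ∀ K : Set X, IsCompact K → K ∉ 𝓝 p) : HasS ℕ X := by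
  classical
  obtain ⟨n0, hn0⟩ := hD.exh (cl p) {p} isCompact_singleton (by simp)
  have hpn : ∀ n, n0 ≤ n → p ∈ Y (cl p) n := fun n hn => hD.mono _ hn (hn0 rfl)
  have anti : ∀ n n' q, n ≤ n' → q ∈ Y (cl p) n → Zp (cl ⁻¹' {cl p}) (Y (cl p)) n' q →
      Zp (cl ⁻¹' {cl p}) (Y (cl p)) n q := by
    rintro n n' q hn hq ⟨-, s, hs, hsq⟩
    exact ⟨hq, s, fun k => ⟨(hs k).1, fun h => (hs k).2 (hD.mono _ hn h)⟩, hsq⟩
  by_cases hZ : ∀ n, n0 ≤ n → Zp (cl ⁻¹' {cl p}) (Y (cl p)) n p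
  · have h1 : ∀ j : ℕ, ∃ s : ℕ → X, (∀ k, s k ∈ cl ⁻¹' {cl p} \ Y (cl p) (n0 + j)) ∧
        Tendsto s atTop (𝓝 p) := fun j => (hZ (n0 + j) (by omega)).2
    choose s hs hsp using h1
    refine ⟨{p}, s, fun _ => p, isCompact_singleton, fun _ => rfl, hsp, ?_, ?_⟩
    · intro j m hm
      rw [mem_singleton_iff] at hm
      refine (hs j m).2 ?_
      rw [hm]
      exact hpn _ (by omega)
    · exact kws_fin hD (cl p) n0 s hs
  · push Not at hZ
    obtain ⟨n1, hn1, hZ1⟩ := hZ
    have key : ∀ n, n1 ≤ n →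
        p ∈ closure {q | q ∈ Y (cl p) n1 ∧ Zp (cl ⁻¹' {cl p}) (Y (cl p)) n q} := by
      intro n hn
      by_contra hcl
      by_cases hG' : p ∈ closure (Y (cl p) n \ Y (cl p) n1)
      · obtain ⟨s, hs, hsp⟩ := hX.seq_in_compact (hD.comp (cl p) n) diff_subset hG'
        exact hZ1 ⟨hpn _ hn1, s, fun k => ⟨hD.sub _ _ (hs k).1, (hs k).2⟩, hsp⟩
      · have hU : IsOpen ((closure {q | q ∈ Y (cl p) n1 ∧
            Zp (cl ⁻¹' {cl p}) (Y (cl p)) n q})ᶜ ∩ (closure (Y (cl p) n \ Y (cl p) n1))ᶜ ∩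
            Y (cl p) n) := by
          apply hX.open_of_seq
          rintro s a ⟨⟨ha1, ha2⟩, ha3⟩ hsa
          by_contra hno
          push Not at hno
          have e1 := hsa.eventually (isClosed_closure.isOpen_compl.mem_nhds ha1)
          have e2 := hsa.eventually (isClosed_closure.isOpen_compl.mem_nhds ha2)
          have e3 := hsa.eventually ((hD.clopen (cl p)).2.mem_nhds (hD.sub _ _ ha3))
          obtain ⟨M, hM⟩ := eventually_atTop.1 ((e1.and e2).and e3)
          have ha4 : a ∈ Y (cl p) n1 := by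
            by_contra h
            exact ha2 (subset_closure ⟨ha3, h⟩)
          refine ha1 (subset_closure ⟨ha4, ha3, fun k => s (k + M), fun k => ⟨?_, ?_⟩, ?_⟩)
          · exact (hM (k + M) (by omega)).2
          · intro h
            have h' := hM (k + M) (by omega)
            exact hno (k + M) ⟨⟨h'.1.1, h'.1.2⟩, h⟩
          · exact (tendsto_add_atTop_iff_nat M).2 hsa
        refine hp _ (hD.comp (cl p) n) (mem_of_superset (hU.mem_nhds ⟨⟨hcl, hG'⟩, ?_⟩)
          inter_subset_right)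
        exact hpn _ (hn1.trans hn)
    haveI := hX.secondCountable _ (hD.comp (cl p) n1)
    have hp1 : p ∈ Y (cl p) n1 := hpn _ hn1
    haveI hcg : (𝓝[Y (cl p) n1] p).IsCountablyGenerated := by
      rw [nhdsWithin_eq_map_subtype_coe hp1]
      infer_instance
    obtain ⟨G, hG⟩ := (𝓝[Y (cl p) n1] p).exists_antitone_basis
    have h2 : ∀ j : ℕ, ∃ q, q ∈ G j ∧ q ∈ Y (cl p) n1 ∧
        Zp (cl ⁻¹' {cl p}) (Y (cl p)) (n1 + j) q := by
      intro j
      have hk := key (n1 + j) (by omega)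
      rw [mem_closure_iff_nhdsWithin_neBot] at hk
      have hle : 𝓝[{q | q ∈ Y (cl p) n1 ∧ Zp (cl ⁻¹' {cl p}) (Y (cl p)) (n1 + j) q}] p ≤
          𝓝[Y (cl p) n1] p := nhdsWithin_mono _ fun q hq => hq.1
      obtain ⟨q, hq1, hq2⟩ := Filter.nonempty_of_mem
        (inter_mem (hle (hG.mem j)) self_mem_nhdsWithin)
      exact ⟨q, hq1, hq2⟩
    choose q hq1 hq2 hq3 using h2
    have hqp : Tendsto q atTop (𝓝 p) :=
      (hG.tendsto hq1).mono_right nhdsWithin_le_nhds
    choose hq4 s hs hsq using hq3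
    refine ⟨insert p (range q), s, q, hqp.isCompact_insert_range, ?_, hsq, ?_, ?_⟩
    · intro j
      exact mem_insert_of_mem _ (mem_range_self j)
    · intro j m hm
      refine (hs j m).2 (hD.mono _ (by omega : n1 ≤ n1 + j) ?_)
      rcases hm with h | ⟨l, h⟩
      · rw [h]
        exact hp1
      · rw [← h]
        exact hq2 l
    · exact kws_fin hD (cl p) n1 s hs

end KR3
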