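import Pool.Agent.KR3.BaseI

/-!
# KR3.LemS

Let C = {x | ¬ IsOpen {x}} be compact without countable character; points outside C are isolated, so every superset of C
is closed, and a superset A of C is open iff ... (it need not be open).
For a set A ⊇ C which is NOT open: Aᶜ is not closed, so (seqClosed) there is a sequence in Aᶜ converging to a point of A, which must be
in C (points off C are isolated and the sequence avoids A). Choose such a sequence σ(A) : ℕ → X with limit λ(A) ∈ C.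
Closing off: P the network (replace P by P ∪ {∅}: harmless). Countable 𝓡 ⊆ P ∪ {∅} with ∅ ∈ 𝓡 and such that for every finite F ⊆ 𝓡
with ⋃₀ F ∪ C not open, every A ∈ P meeting range σ(⋃₀ F ∪ C) is in 𝓡: 𝓡 = ⋃ 𝓡_n, 𝓡_0 = {∅}, 𝓡_{n+1} = 𝓡_n ∪ {A ∈ P | ∃ finite F ⊆ 𝓡_n,
... A meets range σ(⋃₀ F ∪ C)}: countable by CompactCountable (range σ ∪ {λ} is compact), finite subsets of a countable set are countable.
The countable family {⋃₀ F ∪ C | F ⊆ 𝓡 finite, ⋃₀ F ∪ C open} is not a base at C (hch; it is nonempty?? if it is empty use the sequence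
V n = univ; in any case `hch` applied to an enumeration, adding univ): so there is an open V ⊇ C such that NO finite F ⊆ 𝓡 has ⋃₀ F ∪ C open and
⊆ V. Let R : ℕ → Set X enumerate {R ∈ 𝓡 | R ⊆ V} (contains ∅, countable). A_k = R 0 ∪ ... ∪ R k ∪ C ⊆ V so A_k is not open; s_k = a tail of σ(A_k)
inside V (limit in C ⊆ V). SConf C s λ (index k): s_k m ∉ A_k ⊇ C. fin: suppose L compact and s_k meets L for infinitely many k:
choose strictly increasing k_j, x_j = s_{k_j}(m_j) ∈ L; seqCompact: subsequence x_j → x ∈ L. x ∈ V: if x ∈ C ok; if x ∉ C then {x} is open so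
x_j = x eventually, x_j ∈ V. K = {x} ∪ {x_j | j ≥ j0} (all inside V) compact ⊆ V: network: finite F ⊆ P with K ⊆ ⋃₀ F ⊆ V; some R ∈ F contains x_j
for infinitely many j (pigeonhole). R ∈ P meets range σ(A_{k_j}), so R ∈ 𝓡 (A_{k_j} = ⋃₀ {R 0..R k_j} ∪ C with {R 0..R k_j} ⊆ 𝓡 finite, not open). R ⊆ V so R = R l;
for k_j ≥ l, x_j ∉ A_{k_j} ⊇ R l = R: contradiction.
-/

namespace KR3

open Set Filter Topology

universe u v w

variable {X : Type u}

variable [TopologicalSpace X]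

theorem lemS (hX : Base X) (hC : IsCompact {x : X | ¬ IsOpen ({x} : Set X)})
    (hch : ¬ ∃ V : ℕ → Set X, (∀ n, IsOpen (V n) ∧ {x : X | ¬ IsOpen ({x} : Set X)} ⊆ V n) ∧
      ∀ U, IsOpen U → {x : X | ¬ IsOpen ({x} : Set X)} ⊆ U → ∃ n, V n ⊆ U) : HasS ℕ X := by
  classical
  have := hX.t2
  obtain ⟨P, hP, hPc⟩ := hX.net
  rcases isEmpty_or_nonempty X with hE | hNE
  · exact absurd ⟨fun _ => univ, fun _ => ⟨isOpen_univ, subset_univ _⟩,
      fun U _ _ => ⟨0, fun x _ => (hE.false x).elim⟩⟩ hch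
  set C : Set X := {x : X | ¬ IsOpen ({x} : Set X)} with hCdef
  -- sequences
  have hσ0 : ∀ A : Set X, (C ⊆ A ∧ ¬ IsOpen A) → ∃ (s : ℕ → X) (c : X), c ∈ C ∧ (∀ n, s n ∉ A) ∧
      Tendsto s atTop (𝓝 c) := by
    rintro A ⟨hCA, hA⟩
    by_contra hcon
    push Not at hcon
    refine hA (hX.open_of_seq A fun s a ha hs => ?_)
    by_contra hn
    push Not at hn
    have haC : a ∈ C := by
      by_contra haC
      have ho : IsOpen ({a} : Set X) := by
        by_contra h; exact haC h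
      have hev : ∀ᶠ n in atTop, s n ∈ ({a} : Set X) := hs.eventually (ho.mem_nhds rfl)
      obtain ⟨n, hn'⟩ := hev.exists
      exact hn n (by rw [mem_singleton_iff.1 hn']; exact ha)
    exact hcon s a haC hn hs
  choose! σ lam hlamC hσA hσlim using hσ0
  -- closing off
  let AA : Set (Set X) → Set X := fun F => ⋃₀ F ∪ C
  let M : Set (Set X) → Set (Set X) := fun F =>
    {B ∈ P | ¬ IsOpen (AA F) ∧ (B ∩ range (σ (AA F))).Nonempty}
  have hCAA : ∀ F, C ⊆ AA F := fun F => subset_union_right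
  have hMc : ∀ F, (M F).Countable := by
    intro F
    by_cases ho : IsOpen (AA F)
    · have : M F = ∅ := by
        ext B; simp [M, ho]
      rw [this]; exact countable_empty
    · have hcomp : IsCompact (insert (lam (AA F)) (range (σ (AA F)))) :=
        (hσlim (AA F) ⟨hCAA F, ho⟩).isCompact_insert_range
      refine (hPc _ hcomp).mono ?_
      rintro B ⟨hB, -, x, hx1, hx2⟩
      exact ⟨hB, x, hx1, Or.inr hx2⟩
  let R : ℕ → Set (Set X) := fun n => Nat.rec (motive := fun _ => Set (Set X)) {∅}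
    (fun _ T => T ∪ ⋃ F ∈ {F : Set (Set X) | F.Finite ∧ F ⊆ T}, M F) n
  have hRs : ∀ n, R (n + 1) = R n ∪ ⋃ F ∈ {F : Set (Set X) | F.Finite ∧ F ⊆ R n}, M F :=
    fun n => rfl
  have hRc : ∀ n, (R n).Countable := by
    intro n
    induction n with
    | zero => exact countable_singleton _
    | succ n ih =>
      rw [hRs]
      refine ih.union ((countable_ofPred_finite_subset ih).biUnion fun F _ => hMc F)
  have hRmono : Monotone R := by
    refine monotone_nat_of_le_succ fun n => ?_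
    rw [hRs]; exact subset_union_left
  have hfin : ∀ F : Set (Set X), F.Finite → F ⊆ ⋃ n, R n → ∃ n, F ⊆ R n := by
    intro F hF
    induction F, hF using Set.Finite.induction_on with
    | empty => intro _; exact ⟨0, empty_subset _⟩
    | @insert B F _ _ ih =>
      intro hsub
      obtain ⟨n, hn⟩ := ih ((subset_insert _ _).trans hsub)
      obtain ⟨m, hm⟩ := mem_iUnion.1 (hsub (mem_insert _ _))
      refine ⟨max n m, insert_subset (hRmono (le_max_right _ _) hm)
        (hn.trans (hRmono (le_max_left _ _)))⟩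
  have hclose : ∀ F : Set (Set X), F.Finite → F ⊆ ⋃ n, R n → M F ⊆ ⋃ n, R n := by
    intro F hF hsub
    obtain ⟨n, hn⟩ := hfin F hF hsub
    intro B hB
    refine mem_iUnion.2 ⟨n + 1, ?_⟩
    rw [hRs]
    exact Or.inr (mem_biUnion (show F ∈ {F : Set (Set X) | F.Finite ∧ F ⊆ R n} from ⟨hF, hn⟩) hB)
  have hRRc : (⋃ n, R n).Countable := countable_iUnion hRc
  -- the witness V
  have hV : ∃ V : Set X, IsOpen V ∧ C ⊆ V ∧ ∀ F : Set (Set X), F.Finite → F ⊆ ⋃ n, R n →
      IsOpen (AA F) → ¬ AA F ⊆ V := by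
    by_contra hcon
    push Not at hcon
    have hGc : {F : Set (Set X) | (F.Finite ∧ F ⊆ ⋃ n, R n) ∧ IsOpen (AA F)}.Countable :=
      (countable_ofPred_finite_subset hRRc).mono fun F hF => hF.1
    have hGn : {F : Set (Set X) | (F.Finite ∧ F ⊆ ⋃ n, R n) ∧ IsOpen (AA F)}.Nonempty := by
      obtain ⟨F, h1, h2, h3, -⟩ := hcon univ isOpen_univ (subset_univ _)
      exact ⟨F, ⟨h1, h2⟩, h3⟩
    obtain ⟨e, he⟩ := hGc.exists_eq_range hGn
    apply hch
    refine ⟨fun n => AA (e n), fun n => ⟨?_, hCAA _⟩, fun U hU hCU => ?_⟩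
    · have : e n ∈ {F : Set (Set X) | (F.Finite ∧ F ⊆ ⋃ n, R n) ∧ IsOpen (AA F)} := by
        rw [he]; exact mem_range_self n
      exact this.2
    · obtain ⟨F, h1, h2, h3, h4⟩ := hcon U hU hCU
      have : F ∈ range e := by rw [← he]; exact ⟨⟨h1, h2⟩, h3⟩
      obtain ⟨n, hn⟩ := this
      exact ⟨n, by change AA (e n) ⊆ U; rw [hn]; exact h4⟩
  obtain ⟨V, hVo, hCV, hVF⟩ := hV
  have hRVc : {B ∈ ⋃ n, R n | B ⊆ V}.Countable := hRRc.mono fun B hB => hB.1
  have hRVn : {B ∈ ⋃ n, R n | B ⊆ V}.Nonempty :=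
    ⟨∅, mem_iUnion.2 ⟨0, rfl⟩, empty_subset _⟩
  obtain ⟨r, hr⟩ := hRVc.exists_eq_range hRVn
  have hrmem : ∀ n, r n ∈ ⋃ n, R n ∧ r n ⊆ V := by
    intro n
    have : r n ∈ {B ∈ ⋃ n, R n | B ⊆ V} := by rw [hr]; exact mem_range_self n
    exact this
  let Fk : ℕ → Set (Set X) := fun k => r '' Set.Iic k
  have hFkfin : ∀ k, (Fk k).Finite := fun k => (Set.finite_Iic k).image r
  have hFksub : ∀ k, Fk k ⊆ ⋃ n, R n := by
    rintro k _ ⟨n, -, rfl⟩
    exact (hrmem n).1
  have hAkV : ∀ k, AA (Fk k) ⊆ V := by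
    intro k
    refine union_subset (sUnion_subset ?_) hCV
    rintro _ ⟨n, -, rfl⟩
    exact (hrmem n).2
  have hAkno : ∀ k, ¬ IsOpen (AA (Fk k)) := fun k ho =>
    hVF (Fk k) (hFkfin k) (hFksub k) ho (hAkV k)
  have hNk : ∀ k, ∃ N, ∀ n, N ≤ n → σ (AA (Fk k)) n ∈ V := by
    intro k
    have h1 := hσlim (AA (Fk k)) ⟨hCAA _, hAkno k⟩
    have h2 : ∀ᶠ n in atTop, σ (AA (Fk k)) n ∈ V :=
      h1.eventually (hVo.mem_nhds (hCV (hlamC _ ⟨hCAA _, hAkno k⟩)))
    exact eventually_atTop.1 h2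
  choose N hN using hNk
  refine ⟨C, fun k m => σ (AA (Fk k)) (N k + m), fun k => lam (AA (Fk k)), hC, fun k =>
    hlamC _ ⟨hCAA _, hAkno k⟩, fun k => ?_, fun k m => ?_, fun L hL => ?_⟩
  · refine (hσlim (AA (Fk k)) ⟨hCAA _, hAkno k⟩).comp ?_
    exact tendsto_atTop_mono (fun m => Nat.le_add_left m (N k)) tendsto_id
  · exact fun h => hσA _ ⟨hCAA _, hAkno k⟩ _ (hCAA _ h)
  · by_contra hinf
    have hfreq : ∃ᶠ k in atTop, ∃ m, σ (AA (Fk k)) (N k + m) ∈ L :=
      Nat.frequently_atTop_iff_infinite.2 hinf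
    obtain ⟨k, hkmono, hk⟩ := extraction_of_frequently_atTop hfreq
    choose m hm using hk
    obtain ⟨a, haL, φ, hφ, hlim⟩ := hX.seqCompact hL
      (fun j => σ (AA (Fk (k j))) (N (k j) + m j)) hm
    set y : ℕ → X := fun j => σ (AA (Fk (k (φ j)))) (N (k (φ j)) + m (φ j)) with hy
    have hylim : Tendsto y atTop (𝓝 a) := hlim
    have hyV : ∀ j, y j ∈ V := fun j => hN _ _ (Nat.le_add_right _ _)
    have haV : a ∈ V := by
      by_cases haC : a ∈ C
      · exact hCV haC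
      · have ho : IsOpen ({a} : Set X) := by
          by_contra h; exact haC h
        obtain ⟨j, hj⟩ := (hylim.eventually (ho.mem_nhds rfl)).exists
        rw [← mem_singleton_iff.1 hj]; exact hyV j
    obtain ⟨F, hFfin, hFP, hKF, hFV⟩ := hP (insert a (range y)) V hylim.isCompact_insert_range hVo
      (insert_subset haV (range_subset_iff.2 hyV))
    have hB : ∃ B ∈ F, ∃ᶠ j in atTop, y j ∈ B := by
      by_contra hcon
      push Not at hcon
      have h2 : ∀ᶠ j in atTop, ∀ B ∈ F, y j ∉ B :=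
        (eventually_all_finite hFfin).2 fun B hB => hcon B hB
      obtain ⟨j, hj⟩ := h2.exists
      obtain ⟨B, hB, hyB⟩ := hKF (Or.inr (mem_range_self j))
      exact hj B hB hyB
    obtain ⟨B, hBF, hBfreq⟩ := hB
    obtain ⟨j0, hj0⟩ := hBfreq.exists
    have hBR : B ∈ ⋃ n, R n := by
      refine hclose (Fk (k (φ j0))) (hFkfin _) (hFksub _) ?_
      exact ⟨hFP hBF, hAkno _, y j0, hj0, mem_range_self _⟩
    have hBV : B ⊆ V := (subset_sUnion_of_mem hBF).trans hFV
    have hBr : B ∈ range r := by rw [← hr]; exact ⟨hBR, hBV⟩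
    obtain ⟨l, hl⟩ := hBr
    obtain ⟨j, hjl, hj⟩ := (frequently_atTop.1 hBfreq) l
    have hlk : l ≤ k (φ j) := hjl.trans ((hφ.id_le j).trans (hkmono.id_le _))
    refine hσA (AA (Fk (k (φ j)))) ⟨hCAA _, hAkno _⟩ (N (k (φ j)) + m (φ j)) ?_
    exact Or.inl ⟨B, ⟨l, hlk, hl⟩, hj⟩

end KR3
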