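import Pool.Agent.KR3.BaseI

/-!
# KR3.Mnet

Let P be the network. P' = {⋂₀ F | F ⊆ P finite nonempty} is compact-countable (if ⋂₀ F meets K, F consists of members
meeting K; finite subsets of a countable set are countable). Q = {A ∈ P' | IsCompact (closure A)}. Claim: Q is a k-network.
Let K ⊆ U. The set Φ of finite F ⊆ P_K := {A ∈ P | A ∩ K ≠ ∅} with K ⊆ ⋃₀ F ⊆ U is countable and nonempty (drop the members not
meeting K); enumerate it as F 0, F 1, ... (surjection ℕ → Φ). H n = ⋂_{i ≤ n} ⋃₀ F i decreasing. For open V ⊇ K some F i has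
⋃₀ F i ⊆ V ∩ U, so H n ⊆ V for n ≥ i. If closure (H n) were non-compact for all n, exists_seq_of_noncompact gives a n with
values in H n: HasM X with K. So some closure (H n) is compact; H n = ⋃ of the finitely many intersections A_0 ∩ ... ∩ A_n
(A_i ∈ F i) [members of P' with closure inside the compact closure (H n)], and K ⊆ H n ⊆ U.
(K empty: then Q' = ∅ works.)
-/

namespace KR3

open Set Filter Topology

universe u v w

variable {X : Type u}

variable [TopologicalSpace X]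

theorem mnet (hX : Base X) (hM : ¬ HasM X) : ∃ Q : Set (Set X), IsKNetwork Q ∧
    CompactCountable Q ∧ ∀ A ∈ Q, IsCompact (closure A) := by
  classical
  obtain ⟨P, hP, hPc⟩ := hX.net
  let P' : Set (Set X) := {B | ∃ F : Set (Set X), F.Finite ∧ F.Nonempty ∧ F ⊆ P ∧ B = ⋂₀ F}
  have hP'P : P ⊆ P' := fun B hB => ⟨{B}, finite_singleton B, singleton_nonempty B,
    singleton_subset_iff.2 hB, by simp⟩
  have hP'i : ∀ B ∈ P', ∀ A ∈ P, B ∩ A ∈ P' := by
    rintro B ⟨F, h1, h2, h3, rfl⟩ A hA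
    refine ⟨insert A F, h1.insert A, insert_nonempty _ _, insert_subset hA h3, ?_⟩
    rw [sInter_insert, inter_comm]
  refine ⟨{B ∈ P' | IsCompact (closure B)}, ?_, ?_, fun A hA => hA.2⟩
  · intro K U hK hU hKU
    let Φ : Set (Set (Set X)) := {F | (F.Finite ∧ F ⊆ {A ∈ P | (A ∩ K).Nonempty}) ∧
      K ⊆ ⋃₀ F ∧ ⋃₀ F ⊆ U}
    have hΦc : Φ.Countable := (countable_ofPred_finite_subset (hPc K hK)).mono fun F hF => hF.1
    have hΦe : ∀ V, IsOpen V → K ⊆ V → ∃ F ∈ Φ, ⋃₀ F ⊆ V := by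
      intro V hV hKV
      obtain ⟨F, h1, h2, h3, h4⟩ := hP K (U ∩ V) hK (hU.inter hV) (subset_inter hKU hKV)
      have hsub : ⋃₀ {A ∈ F | (A ∩ K).Nonempty} ⊆ ⋃₀ F := sUnion_subset_sUnion fun A hA => hA.1
      refine ⟨{A ∈ F | (A ∩ K).Nonempty}, ⟨⟨h1.subset fun A hA => hA.1, fun A hA =>
        ⟨h2 hA.1, hA.2⟩⟩, ?_, hsub.trans (h4.trans inter_subset_left)⟩,
        hsub.trans (h4.trans inter_subset_right)⟩
      intro x hx
      obtain ⟨A, hA, hxA⟩ := h3 hx
      exact ⟨A, ⟨hA, x, hxA, hx⟩, hxA⟩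
    have hΦn : Φ.Nonempty := by
      obtain ⟨F, hF, -⟩ := hΦe univ isOpen_univ (subset_univ _)
      exact ⟨F, hF⟩
    obtain ⟨e, he⟩ := hΦc.exists_eq_range hΦn
    have heΦ : ∀ n, e n ∈ Φ := fun n => by rw [he]; exact mem_range_self n
    let G : ℕ → Set (Set X) := fun n => Nat.rec (motive := fun _ => Set (Set X)) (e 0)
      (fun n T => image2 (· ∩ ·) T (e (n + 1))) n
    have hGs : ∀ n, G (n + 1) = image2 (· ∩ ·) (G n) (e (n + 1)) := fun n => rfl
    have hGfin : ∀ n, (G n).Finite := by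
      intro n
      induction n with
      | zero => exact (heΦ 0).1.1
      | succ n ih => rw [hGs]; exact ih.image2 _ (heΦ (n + 1)).1.1
    have hGP : ∀ n, G n ⊆ P' := by
      intro n
      induction n with
      | zero => exact fun B hB => hP'P ((heΦ 0).1.2 hB).1
      | succ n ih =>
        rw [hGs]
        rintro _ ⟨B, hB, A, hA, rfl⟩
        exact hP'i B (ih hB) A ((heΦ (n + 1)).1.2 hA).1
    have hK_G : ∀ n, K ⊆ ⋃₀ G n := by
      intro n
      induction n with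
      | zero => exact (heΦ 0).2.1
      | succ n ih =>
        rw [hGs]
        intro x hx
        obtain ⟨B, hB, hxB⟩ := ih hx
        obtain ⟨A, hA, hxA⟩ := (heΦ (n + 1)).2.1 hx
        exact ⟨B ∩ A, ⟨B, hB, A, hA, rfl⟩, hxB, hxA⟩
    have hGsub : ∀ n, ⋃₀ G (n + 1) ⊆ ⋃₀ G n := by
      intro n
      rw [hGs]
      rintro x ⟨_, ⟨B, hB, A, hA, rfl⟩, hx⟩
      exact ⟨B, hB, hx.1⟩
    have hGanti : ∀ m n, m ≤ n → ⋃₀ G n ⊆ ⋃₀ G m := fun m n hmn =>
      antitone_nat_of_succ_le (f := fun n => ⋃₀ G n) hGsub hmn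
    have hGe : ∀ n, ⋃₀ G n ⊆ ⋃₀ e n := by
      intro n
      cases n with
      | zero => exact subset_rfl
      | succ n =>
        rw [hGs]
        rintro x ⟨_, ⟨B, hB, A, hA, rfl⟩, hx⟩
        exact ⟨A, hA, hx.2⟩
    have hex : ∃ n, IsCompact (closure (⋃₀ G n)) := by
      by_contra hcon
      push Not at hcon
      choose a ha1 ha2 ha3 using fun n => hX.exists_seq_of_noncompact (hcon n)
      refine hM ⟨K, a, hK, ha1, ha2, fun V hV hKV => ?_⟩
      obtain ⟨F, hF, hFV⟩ := hΦe V hV hKV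
      rw [he] at hF
      obtain ⟨N, rfl⟩ := hF
      exact ⟨N, fun n hn m => hFV (hGe N (hGanti N n hn (ha3 n m)))⟩
    obtain ⟨n, hn⟩ := hex
    refine ⟨G n, hGfin n, fun B hB => ⟨hGP n hB, ?_⟩, hK_G n,
      (hGe n).trans (heΦ n).2.2⟩
    exact hn.of_isClosed_subset isClosed_closure (closure_mono (subset_sUnion_of_mem hB))
  · intro K hK
    refine ((countable_ofPred_finite_subset (hPc K hK)).image (fun F => ⋂₀ F)).mono ?_
    rintro B ⟨⟨⟨F, h1, h2, h3, rfl⟩, -⟩, x, hx, hxK⟩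
    exact ⟨F, ⟨h1, fun A hA => ⟨h3 hA, x, hx A hA, hxK⟩⟩, rfl⟩

end KR3
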