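import Pool.Agent.KR3.Neg2S
import Pool.Agent.KR3.Exp

/-!
# KR3.NegB

(B) M-configuration (K, a) and S-configuration (C, s, c) with J = ℕ, T from `exp`. For each n a discrete open expansion
U n m ∋ a n m (m ∈ ℕ). Let F = {n | ∃ m, (T n m ∩ K).Nonempty} finite. ι = {p : ℕ × ℕ | p.1 ∉ F}; neg2S with
a p = a n m, b p = s n m, A = U n m, B = T n m, C1 = K, C2 = C. hfin: L meets ⋃_m T n m for finitely many n only, and for each n
finitely many U n m. h12: T n m ∩ C = ∅ and T n m ∩ K = ∅ for n ∉ F.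
We get V1 ⊇ K, V2 ⊇ C. Take n ∉ F large with a n m ∈ V1 for all m; s n m → c n ∈ C ⊆ V2: s n m ∈ V2 for some m. Contradiction.
-/

namespace KR3

open Set Filter Topology

universe u v w

variable {X : Type u}

variable [TopologicalSpace X]

theorem negB (hX : Base X) (hkr : IsKRSpace (A3 X)) (hM : HasM X) (hS : HasS ℕ X) : False := by
  obtain ⟨K, a, hK, hinj, hcd, hconv⟩ := hM
  obtain ⟨C, s, c, hs⟩ := hS
  obtain ⟨T, hT, hTf⟩ := exp hX hs
  have hexp : ∀ n, ∃ O : ℕ → Set X, (∀ i, IsOpen (O i) ∧ a n i ∈ O i) ∧ DiscFam O := fun n =>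
    hX.expand (hinj n) (hcd n)
  choose U hU hUd using hexp
  have hF := hTf K hK
  set F : Set ℕ := {j | ∃ m, (T j m ∩ K).Nonempty} with hFdef
  obtain ⟨V1, V2, hV1, hKV1, hV2, hCV2, hV⟩ := neg2S hX hkr
    (ι := {p : ℕ × ℕ // p.1 ∉ F}) (fun p => a p.1.1 p.1.2) (fun p => s p.1.1 p.1.2)
    (fun p => U p.1.1 p.1.2) (fun p => T p.1.1 p.1.2) (fun p => hU p.1.1 p.1.2)
    (fun p => ⟨(hT p.1.1 p.1.2).1, (hT p.1.1 p.1.2).2.1⟩) (by
      intro L hL
      have h1 := hTf L hL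
      have h2 : (⋃ n ∈ {j | ∃ m, (T j m ∩ L).Nonempty},
          (fun m => (n, m)) '' {m | (U n m ∩ L).Nonempty}).Finite :=
        h1.biUnion fun n _ => ((hUd n).finite_compact hL).image _
      refine (h2.preimage (f := Subtype.val) Subtype.val_injective.injOn).subset ?_
      rintro ⟨⟨n, m⟩, hn⟩ ⟨h3, h4⟩
      exact mem_biUnion (x := n) ⟨m, h4⟩ ⟨m, h3, rfl⟩) K C hK hs.comp (by
      rintro ⟨⟨n, m⟩, hn⟩
      refine ⟨fun h => ?_, fun h => hn ⟨m, h.1⟩⟩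
      obtain ⟨x, hx1, hx2⟩ := h.2
      exact disjoint_left.1 (hT n m).2.2 hx1 hx2)
  obtain ⟨N, hN⟩ := hconv V1 hV1 hKV1
  obtain ⟨n, hnF, hNn⟩ := hF.infinite_compl.exists_gt N
  have h1 : ∀ᶠ m in atTop, s n m ∈ V2 := (hs.lim n).eventually (hV2.mem_nhds (hCV2 (hs.mem n)))
  obtain ⟨m, hm⟩ := h1.exists
  exact hV ⟨(n, m), hnF⟩ (hN n hNn.le m) hm

end KR3
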