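import Pool.Agent.KR3.Neg2S
import Pool.Agent.KR3.Exp

/-!
# KR3.NegC

(C) J uncountable. Well-order a subset of J in type ω₁: get a type J' (e.g. (Cardinal.aleph 1).ord.toType or a subtype of J)
with a linear order in which every initial segment Iio b is countable, J' uncountable, and an injection J' → J; restrict
the configuration (fin: preimage of a finite set under an injection is finite). T from `exp`.
For b ∈ J' let e b : J' → ℕ be injective on Iio b. ι = {p : J' × J' | p.1 < p.2}; for p = (α, β) put n = e β α,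
a p = s α n, b p = s β n, A = T α n, B = T β n, C1 = C2 = C. hfin: L meets ⋃_m T j m for finitely many j only, so finitely many
pairs. h12: T disjoint from C. neg2S gives V1, V2 ⊇ C; V = V1 ∩ V2. For j let N j be such that s j m ∈ V for all m ≥ N j.
Some k has J_k = {j | N j ≤ k} uncountable (countable union). Choose β ∈ J_k with J_k ∩ Iio β infinite (if all β ∈ J_k had finite
J_k ∩ Iio β then J_k would be countable: e.g. β ↦ card (J_k ∩ Iio β) is injective on J_k). As e β is injective on Iio β, some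
α ∈ J_k, α < β has n = e β α ≥ k. Then s α n ∈ V, s β n ∈ V: contradiction.
-/

namespace KR3

open Set Filter Topology

universe u v w

variable {X : Type u}

variable [TopologicalSpace X]

/-- An uncountable subset of a well-ordered type with countable initial segments. -/
theorem negC_set (J : Type u) [Uncountable J] (r : J → J → Prop) [hr : IsWellOrder J r] :
    ∃ S : Set J, ¬ S.Countable ∧ ∀ b ∈ S, {x ∈ S | r x b}.Countable := by
  by_cases h : ∃ b, ¬ {x | r x b}.Countable
  · set b0 := hr.wf.min {b | ¬ {x | r x b}.Countable} h with hb0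
    have h1 : ¬ {x | r x b0}.Countable := hr.wf.min_mem {b | ¬ {x | r x b}.Countable} h
    refine ⟨{x | r x b0}, h1, fun b hb => ?_⟩
    by_contra hc
    refine hr.wf.not_lt_min {b | ¬ {x | r x b}.Countable} (x := b) ?_ hb
    intro h2
    exact hc (h2.mono fun x hx => hx.2)
  · push Not at h
    refine ⟨univ, ?_, fun b _ => (h b).mono fun x hx => hx.2⟩
    intro h1
    exact not_countable_iff.2 inferInstance (countable_univ_iff.1 h1)

theorem negC (hX : Base X) (hkr : IsKRSpace (A3 X)) (J : Type u) [Uncountable J] (hS : HasS J X) :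
    False := by
  classical
  obtain ⟨C, s0, c0, hconf⟩ := hS
  obtain ⟨S, hSu, hSc⟩ := negC_set J (WellOrderingRel : J → J → Prop)
  let lt : S → S → Prop := fun x y => WellOrderingRel (x : J) (y : J)
  have lt_trans : ∀ x y z : S, lt x y → lt y z → lt x z := fun x y z h1 h2 =>
    _root_.trans (r := (WellOrderingRel : J → J → Prop)) h1 h2
  have lt_irrefl : ∀ x : S, ¬ lt x x := fun x =>
    irrefl_of (WellOrderingRel : J → J → Prop) (x : J)
  have lt_tri : ∀ x y : S, lt x y ∨ x = y ∨ lt y x := by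
    intro x y
    rcases trichotomous_of (WellOrderingRel : J → J → Prop) (x : J) (y : J) with h | h | h
    · exact Or.inl h
    · exact Or.inr (Or.inl (Subtype.ext h))
    · exact Or.inr (Or.inr h)
  have hini : ∀ b : S, {x : S | lt x b}.Countable := by
    intro b
    refine ((hSc b b.2).preimage Subtype.val_injective).mono fun x hx => ?_
    exact ⟨x.2, hx⟩
  have hconf' : SConf C (fun j : S => s0 j) (fun j : S => c0 j) := by
    refine ⟨hconf.comp, fun j => hconf.mem j, fun j => hconf.lim j, fun j m => hconf.off j m,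
      fun L hL => ?_⟩
    exact (Set.Finite.preimage (f := (Subtype.val : S → J)) Subtype.val_injective.injOn
      (hconf.fin L hL) : ((Subtype.val : S → J) ⁻¹' {j | ∃ m, s0 j m ∈ L}).Finite)
  obtain ⟨T, hT, hTfin⟩ := exp hX hconf'
  have he : ∀ b : S, ∃ e : S → ℕ, InjOn e {x | lt x b} := fun b =>
    Set.countable_iff_exists_injOn.1 (hini b)
  choose e he using he
  let ι : Type u := {p : S × S // lt p.1 p.2}
  obtain ⟨V1, V2, hV1, hCV1, hV2, hCV2, hV⟩ := neg2S hX hkr (ι := ι)
    (fun p => s0 p.1.1 (e p.1.2 p.1.1)) (fun p => s0 p.1.2 (e p.1.2 p.1.1))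
    (fun p => T p.1.1 (e p.1.2 p.1.1)) (fun p => T p.1.2 (e p.1.2 p.1.1))
    (fun p => ⟨(hT _ _).1, (hT _ _).2.1⟩) (fun p => ⟨(hT _ _).1, (hT _ _).2.1⟩)
    (by
      intro L hL
      have h1 := hTfin L hL
      have h2 : ({j | ∃ m, (T j m ∩ L).Nonempty} ×ˢ {j | ∃ m, (T j m ∩ L).Nonempty}).Finite :=
        h1.prod h1
      refine (h2.preimage (Subtype.val_injective (p := fun p : S × S => lt p.1 p.2)).injOn).subset ?_
      rintro p ⟨hp1, hp2⟩
      exact ⟨⟨_, hp1⟩, ⟨_, hp2⟩⟩)
    C C hconf.comp hconf.comp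
    (by
      intro p
      refine ⟨fun h => ?_, fun h => ?_⟩
      · obtain ⟨x, hx1, hx2⟩ := h.1
        exact Set.disjoint_left.1 (hT _ _).2.2 hx1 hx2
      · obtain ⟨x, hx1, hx2⟩ := h.1
        exact Set.disjoint_left.1 (hT _ _).2.2 hx1 hx2)
  have hN : ∀ j : S, ∃ N : ℕ, ∀ m ≥ N, s0 j m ∈ V1 ∧ s0 j m ∈ V2 := by
    intro j
    have h1 : ∀ᶠ m in atTop, s0 (j : J) m ∈ V1 ∧ s0 (j : J) m ∈ V2 := by
      have hV1' : V1 ∈ 𝓝 (c0 (j : J)) := hV1.mem_nhds (hCV1 (hconf.mem j))
      have hV2' : V2 ∈ 𝓝 (c0 (j : J)) := hV2.mem_nhds (hCV2 (hconf.mem j))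
      exact ((hconf.lim j).eventually hV1').and ((hconf.lim j).eventually hV2')
    exact eventually_atTop.1 h1
  choose N hN using hN
  -- uncountably many indices have the same threshold
  obtain ⟨k, hk⟩ : ∃ k, ¬ {j : S | N j ≤ k}.Countable := by
    by_contra hc
    push Not at hc
    have h1 : (⋃ k, {j : S | N j ≤ k}).Countable := countable_iUnion hc
    have h2 : (⋃ k, {j : S | N j ≤ k}) = univ := by
      ext j
      simp only [mem_iUnion, mem_univ, iff_true]
      exact ⟨N j, (le_refl (N j) : N j ≤ N j)⟩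
    rw [h2, countable_univ_iff] at h1
    exact hSu (Set.countable_coe_iff.1 h1)
  obtain ⟨β, hβk, hβ⟩ : ∃ β ∈ {j : S | N j ≤ k}, ({j : S | N j ≤ k} ∩ {x | lt x β}).Infinite := by
    by_contra hc
    push Not at hc
    apply hk
    rw [Set.countable_iff_exists_injOn]
    refine ⟨fun β => ({j : S | N j ≤ k} ∩ {x | lt x β}).ncard, ?_⟩
    have key : ∀ α ∈ {j : S | N j ≤ k}, ∀ β ∈ {j : S | N j ≤ k}, lt α β →
        ({j : S | N j ≤ k} ∩ {x | lt x α}).ncard < ({j : S | N j ≤ k} ∩ {x | lt x β}).ncard := by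
      intro α hα β hβ hαβ
      refine Set.ncard_lt_ncard ?_ (hc β hβ)
      refine ⟨fun x hx => ⟨hx.1, lt_trans _ _ _ hx.2 hαβ⟩, fun hsub => ?_⟩
      exact lt_irrefl α (hsub ⟨hα, hαβ⟩).2
    intro α hα β hβ hαβ
    simp only at hαβ
    rcases lt_tri α β with h | h | h
    · exact absurd hαβ (key α hα β hβ h).ne
    · exact h
    · exact absurd hαβ (key β hβ α hα h).ne'
  have himg : (e β '' ({j : S | N j ≤ k} ∩ {x | lt x β})).Infinite :=
    hβ.image ((he β).mono fun x hx => hx.2)
  obtain ⟨_, ⟨α, hα, rfl⟩, hlt⟩ := himg.exists_gt k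
  have h1 := (hN α (e β α) (le_trans hα.1 hlt.le)).1
  have h2 := (hN β (e β α) (le_trans hβk hlt.le)).2
  exact hV ⟨(α, β), hα.2⟩ h1 h2

end KR3
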