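import Pool.Agent.KR3.Neg3S
import Pool.Agent.KR3.Exp

/-!
# KR3.NegD

(D) S-configuration (C, s, c), J = ℕ; q : I → X injective, CD range, q i not isolated. Suppose no g works, i.e. (choice/negation)
∀ g, ∃ i, ∃ᶠ n, g n < f i n. T from `exp`; G i ∋ q i discrete open expansion; y i n → q i, y i n ≠ q i (seq_noniso).
Adjust: for i, n there is m = f' i n ≥ f i n with s n m ≠ q i (else s n m = q i for all large m, so q i = c n ∈ C by uniqueness of
limits, but s n m ∉ C). ι = I × ℕ, neg3S with points a = s n (f' i n), x = y i n, q = q i, open sets A = T n (f' i n), B = univ,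
Q = G i, compact C. hfin: L meets G i for finitely many i, and ⋃_m T n m for finitely many n.
We get V ⊇ C open, W ∈ 𝓝 0. Let g n be such that s n m ∈ V for all m ≥ g n. Take i with g n < f i n frequently; for such n
large, of (y i n) - of (q i) ∈ W (it tends to 0), and s n (f' i n) ∈ V: contradiction.
-/

namespace KR3

open Set Filter Topology

universe u v w

variable {X : Type u}

variable [TopologicalSpace X]

theorem negD_lim {y : ℕ → X} {q : X} (h : Tendsto y atTop (𝓝 q)) :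
    Tendsto (fun m => FA.of (y m) - FA.of q) atTop (𝓝 (0 : FA X)) := by
  have h1 : Tendsto (fun m => FA.of (y m)) atTop (𝓝 (FA.of q)) :=
    (FA.continuous_of.tendsto q).comp h
  have h2 := h1.sub (tendsto_const_nhds (x := FA.of q))
  rwa [sub_self] at h2

theorem negD (hX : Base X) (hkr : IsKRSpace (A3 X)) (hS : HasS ℕ X) {I : Type v} (q : I → X)
    (hq : Function.Injective q) (hcd : CD (range q)) (hni : ∀ i, ¬ IsOpen ({q i} : Set X))
    (f : I → ℕ → ℕ) : ∃ g : ℕ → ℕ, ∀ i, ∀ᶠ n in atTop, f i n ≤ g n := by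
  classical
  have := hX.t2
  obtain ⟨C, s, c, hc⟩ := hS
  obtain ⟨T, hT, hTfin⟩ := exp hX hc
  obtain ⟨G, hG, hGd⟩ := hX.expand hq hcd
  have hy : ∀ i, ∃ y : ℕ → X, (∀ m, y m ≠ q i) ∧ Tendsto y atTop (𝓝 (q i)) :=
    fun i => hX.seq_noniso (q i) (hni i)
  choose y hyne hylim using hy
  have hf : ∀ i n, ∃ m, f i n ≤ m ∧ s n m ≠ q i := by
    intro i n
    by_contra h
    push Not at h
    have h1 : Tendsto (s n) atTop (𝓝 (q i)) := by
      refine tendsto_const_nhds.congr' ?_
      filter_upwards [eventually_ge_atTop (f i n)] with m hm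
      exact (h m hm).symm
    have h2 : q i = c n := tendsto_nhds_unique h1 (hc.lim n)
    have h3 : s n (f i n) = q i := h _ le_rfl
    exact hc.off n (f i n) (by rw [h3, h2]; exact hc.mem n)
  choose f' hf' hfq using hf
  have hfin : ∀ L : Set X, IsCompact L →
      {p : I × ℕ | (T p.2 (f' p.1 p.2) ∩ L).Nonempty ∧ (G p.1 ∩ L).Nonempty}.Finite := by
    intro L hL
    refine ((hGd.finite_compact hL).prod (hTfin L hL)).subset ?_
    rintro ⟨i, n⟩ ⟨h1, h2⟩
    exact ⟨h2, ⟨_, h1⟩⟩
  obtain ⟨V, hVo, hCV, W, hW, hVW⟩ := neg3S hX hkr (ι := I × ℕ)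
    (fun p => s p.2 (f' p.1 p.2)) (fun p => y p.1 p.2) (fun p => q p.1)
    (fun p => T p.2 (f' p.1 p.2)) (fun _ => univ) (fun p => G p.1)
    (fun p => ⟨(hT _ _).1, (hT _ _).2.1⟩) (fun p => ⟨isOpen_univ, mem_univ _⟩)
    (fun p => hG p.1) (fun p => hfq p.1 p.2) (fun p => hyne p.1 p.2) hfin C hc.comp
  have hg : ∀ n, ∃ g : ℕ, ∀ m ≥ g, s n m ∈ V := by
    intro n
    exact eventually_atTop.1 ((hc.lim n).eventually (hVo.mem_nhds (hCV (hc.mem n))))
  choose g hg using hg
  refine ⟨g, fun i => ?_⟩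
  have hev : ∀ᶠ n in atTop, FA.of (y i n) - FA.of (q i) ∈ W := (negD_lim (hylim i)) hW
  filter_upwards [hev] with n hn
  by_contra hlt
  push Not at hlt
  exact hVW (i, n) (hg n _ (hlt.le.trans (hf' i n))) hn

end KR3
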