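import Pool.Agent.KR3.Api

/-!
# KR3.Words

Words of A3.  All proofs: apply `FA.coeff p` (an additive hom FA X →+ ℤ; `FA.coeff_of`) to the equations,
`split_ifs`/`omega`; for the case lemma expand `Fin.sum_univ_three` and split the 27 sign patterns.
-/

namespace KR3

open Set Filter Topology

universe u v w

variable {X : Type u}

theorem mem_A3_ppp (x y z : X) : FA.of x + FA.of y + FA.of z ∈ A3 X := by
  refine ⟨![x, y, z], ![1, 1, 1], fun i => ?_, ?_⟩
  · fin_cases i <;> simp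
  · simp [Fin.sum_univ_three]

theorem mem_A3_pp (x y : X) : FA.of x + FA.of y ∈ A3 X := by
  refine ⟨![x, y, x], ![1, 1, 0], fun i => ?_, ?_⟩
  · fin_cases i <;> simp
  · simp [Fin.sum_univ_three]

theorem mem_A3_ppm (x y z : X) : FA.of x + FA.of y - FA.of z ∈ A3 X := by
  refine ⟨![x, y, z], ![1, 1, -1], fun i => ?_, ?_⟩
  · fin_cases i <;> simp
  · simp [Fin.sum_univ_three, sub_eq_add_neg]

theorem mem_A3_pm (x y : X) : FA.of x - FA.of y ∈ A3 X := by
  refine ⟨![x, y, x], ![1, -1, 0], fun i => ?_, ?_⟩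
  · fin_cases i <;> simp
  · simp [Fin.sum_univ_three, sub_eq_add_neg]

theorem neg_mem_A3 {g : FA X} (hg : g ∈ A3 X) : -g ∈ A3 X := by
  obtain ⟨x, ε, hε, rfl⟩ := hg
  refine ⟨x, fun i => -ε i, fun i => ?_, ?_⟩
  · rcases hε i with h | h | h <;> simp [h]
  · simp [Finset.sum_neg_distrib]

/-- classification of the elements of `A3` -/
theorem A3_cases {g : FA X} (hg : g ∈ A3 X) :
    (∃ x y z, g = FA.of x + FA.of y + FA.of z) ∨ (∃ x y, g = FA.of x + FA.of y) ∨
    (∃ x y z, g = FA.of x + FA.of y - FA.of z) ∨ (∃ x y, g = FA.of x - FA.of y) ∨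
    (∃ x y z, -g = FA.of x + FA.of y - FA.of z) ∨ (∃ x y, -g = FA.of x + FA.of y) ∨
    (∃ x y z, -g = FA.of x + FA.of y + FA.of z) := by
  obtain ⟨x, ε, hε, rfl⟩ := hg
  rw [Fin.sum_univ_three]
  rcases hε 0 with h0 | h0 | h0 <;> rcases hε 1 with h1 | h1 | h1 <;>
    rcases hε 2 with h2 | h2 | h2 <;> rw [h0, h1, h2] <;>
    simp only [neg_smul, one_smul, zero_smul] <;>
    first
    | exact Or.inl ⟨x 0, x 1, x 2, by abel1⟩
    | exact Or.inr (Or.inl ⟨x 0, x 1, by abel1⟩)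
    | exact Or.inr (Or.inl ⟨x 0, x 2, by abel1⟩)
    | exact Or.inr (Or.inl ⟨x 1, x 2, by abel1⟩)
    | exact Or.inr (Or.inr (Or.inl ⟨x 0, x 1, x 2, by abel1⟩))
    | exact Or.inr (Or.inr (Or.inl ⟨x 0, x 2, x 1, by abel1⟩))
    | exact Or.inr (Or.inr (Or.inl ⟨x 1, x 2, x 0, by abel1⟩))
    | exact Or.inr (Or.inr (Or.inl ⟨x 0, x 0, x 0, by abel1⟩))
    | exact Or.inr (Or.inr (Or.inl ⟨x 1, x 1, x 1, by abel1⟩))
    | exact Or.inr (Or.inr (Or.inl ⟨x 2, x 2, x 2, by abel1⟩))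
    | exact Or.inr (Or.inr (Or.inr (Or.inl ⟨x 0, x 1, by abel1⟩)))
    | exact Or.inr (Or.inr (Or.inr (Or.inl ⟨x 1, x 0, by abel1⟩)))
    | exact Or.inr (Or.inr (Or.inr (Or.inl ⟨x 0, x 2, by abel1⟩)))
    | exact Or.inr (Or.inr (Or.inr (Or.inl ⟨x 2, x 0, by abel1⟩)))
    | exact Or.inr (Or.inr (Or.inr (Or.inl ⟨x 1, x 2, by abel1⟩)))
    | exact Or.inr (Or.inr (Or.inr (Or.inl ⟨x 2, x 1, by abel1⟩)))
    | exact Or.inr (Or.inr (Or.inr (Or.inl ⟨x 0, x 0, by abel1⟩)))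
    | exact Or.inr (Or.inr (Or.inr (Or.inr (Or.inl ⟨x 0, x 1, x 2, by abel1⟩))))
    | exact Or.inr (Or.inr (Or.inr (Or.inr (Or.inl ⟨x 0, x 2, x 1, by abel1⟩))))
    | exact Or.inr (Or.inr (Or.inr (Or.inr (Or.inl ⟨x 1, x 2, x 0, by abel1⟩))))
    | exact Or.inr (Or.inr (Or.inr (Or.inr (Or.inl ⟨x 0, x 0, x 0, by abel1⟩))))
    | exact Or.inr (Or.inr (Or.inr (Or.inr (Or.inl ⟨x 1, x 1, x 1, by abel1⟩))))
    | exact Or.inr (Or.inr (Or.inr (Or.inr (Or.inl ⟨x 2, x 2, x 2, by abel1⟩))))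
    | exact Or.inr (Or.inr (Or.inr (Or.inr (Or.inr (Or.inl ⟨x 0, x 1, by abel1⟩)))))
    | exact Or.inr (Or.inr (Or.inr (Or.inr (Or.inr (Or.inl ⟨x 0, x 2, by abel1⟩)))))
    | exact Or.inr (Or.inr (Or.inr (Or.inr (Or.inr (Or.inl ⟨x 1, x 2, by abel1⟩)))))
    | exact Or.inr (Or.inr (Or.inr (Or.inr (Or.inr (Or.inr ⟨x 0, x 1, x 2, by abel1⟩)))))

/-- the degree (sum of the coefficients) -/
noncomputable def deg : FA X →+ ℝ := FA.lift (fun _ : X => (1 : ℝ))

theorem deg_of (x : X) : deg (FA.of x) = 1 := by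
  simp [deg]

theorem continuous_deg [TopologicalSpace X] : Continuous (deg : FA X → ℝ) :=
  FA.continuous_lift _ continuous_const

private theorem words_of_inj {x y : X} (h : FA.of x = FA.of y) : x = y := by
  classical
  have h1 := congrArg (FA.coeff x) h
  rw [FA.coeff_of, FA.coeff_of, if_pos rfl] at h1
  by_contra hne
  rw [if_neg hne] at h1
  exact one_ne_zero h1

theorem word_eq2 {x y x' y' : X} (h : FA.of x + FA.of y = FA.of x' + FA.of y') :
    (x = x' ∧ y = y') ∨ (x = y' ∧ y = x') := by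
  classical
  by_cases h1 : x = x'
  · subst h1
    exact Or.inl ⟨rfl, words_of_inj (add_left_cancel h)⟩
  · have h2 := congrArg (FA.coeff x) h
    rw [map_add, map_add, FA.coeff_of, FA.coeff_of, FA.coeff_of, FA.coeff_of, if_pos rfl,
      if_neg h1] at h2
    by_cases h3 : x = y'
    · subst h3
      refine Or.inr ⟨rfl, words_of_inj (add_left_cancel (a := FA.of x) ?_)⟩
      rw [h, add_comm]
    · rw [if_neg h3] at h2
      split_ifs at h2 <;> omega

/-- two words `x+y-z`, `x'+y'-z'` are equal only if both are reduced and equal up to swapping the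
positive letters, or both are non-reduced and represent the same point -/
theorem word_eq3 {x y z x' y' z' : X}
    (h : FA.of x + FA.of y - FA.of z = FA.of x' + FA.of y' - FA.of z') :
    (z = z' ∧ ((x = x' ∧ y = y') ∨ (x = y' ∧ y = x'))) ∨
      ((z = x ∨ z = y) ∧ (z' = x' ∨ z' = y')) := by
  classical
  by_cases hx : z = x
  · subst hx
    have h1 : FA.of y + FA.of z' = FA.of x' + FA.of y' := by
      have h2 : FA.of z + FA.of y - FA.of z = FA.of y := by abel
      rw [h2] at h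
      rw [h]
      abel
    rcases word_eq2 h1 with h2 | h2
    · exact Or.inr ⟨Or.inl rfl, Or.inr h2.2⟩
    · exact Or.inr ⟨Or.inl rfl, Or.inl h2.2⟩
  by_cases hy : z = y
  · subst hy
    have h1 : FA.of x + FA.of z' = FA.of x' + FA.of y' := by
      have h2 : FA.of x + FA.of z - FA.of z = FA.of x := by abel
      rw [h2] at h
      rw [h]
      abel
    rcases word_eq2 h1 with h2 | h2
    · exact Or.inr ⟨Or.inr rfl, Or.inr h2.2⟩
    · exact Or.inr ⟨Or.inr rfl, Or.inl h2.2⟩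
  have h1 := congrArg (FA.coeff z) h
  rw [map_sub, map_sub, map_add, map_add, FA.coeff_of, FA.coeff_of, FA.coeff_of, FA.coeff_of,
    FA.coeff_of, FA.coeff_of, if_neg hx, if_neg hy, if_pos rfl] at h1
  have hz : z = z' := by
    by_contra hne
    rw [if_neg hne] at h1
    split_ifs at h1 <;> omega
  subst hz
  have h2 : FA.of x + FA.of y = FA.of x' + FA.of y' := sub_left_inj.1 h
  exact Or.inl ⟨rfl, word_eq2 h2⟩

/-- support of words (deg 1) : if `z ≠ x`, `z ≠ y` then `x, y, z` have non-zero coefficient -/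
theorem coeff_word3 {x y z : X} (hx : z ≠ x) (hy : z ≠ y) :
    FA.coeff x (FA.of x + FA.of y - FA.of z) ≠ 0 ∧ FA.coeff y (FA.of x + FA.of y - FA.of z) ≠ 0 ∧
      FA.coeff z (FA.of x + FA.of y - FA.of z) ≠ 0 := by
  classical
  simp only [map_sub, map_add, FA.coeff_of, if_true, if_neg hx, if_neg hy, if_neg hx.symm,
    if_neg hy.symm]
  refine ⟨?_, ?_, ?_⟩
  · split_ifs <;> omega
  · split_ifs <;> omega
  · norm_num

theorem coeff_word2 (x y : X) :
    FA.coeff x (FA.of x + FA.of y) ≠ 0 ∧ FA.coeff y (FA.of x + FA.of y) ≠ 0 := by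
  classical
  simp only [map_add, FA.coeff_of, if_true]
  refine ⟨?_, ?_⟩ <;> split_ifs <;> omega

end KR3
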