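import Pool.Agent.KR3.Api
import Pool.Agent.KR3.Words

/-!
# KR3.NuM

Let Lip = {f : X → ℝ | ∀ x y, |f x - f y| ≤ ρ x y, ∀ x, |f x| ≤ 1}. G = lp (fun _ : Lip => ℝ) ∞ (or BoundedContinuousFunction on the discrete
type Lip, or the space Lip → ℝ with sup norm); the map X → G, x ↦ (f ↦ f x) is continuous since ‖·‖ ≤ ρ x y → 0. Its extension
Φ : FA X →+ G is continuous (FA.continuous_lift) and (Φ g) f = lift f g. N = {g | ‖Φ g‖ < 1} ∈ 𝓝 0; for g ∈ N and f ∈ Lip |lift f g| < 1.
(1) of x - of y ∈ N: f = ρ(·, y) ∈ Lip (0 ≤ ρ ≤ 1): f x - f y = ρ x y < 1.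
(2) g = x+y-z-a: s = ρ x z - ρ x a, f t = min (ρ t z) (ρ t a + s) ∈ Lip (1-Lipschitz; |s| ≤ 1 so -1 ≤ f ≤ 1).
f x = ρ x z; f z ≤ 0; f a ≤ s; f y = min (ρ y z) (ρ y a + s); so
1 > f x + f y - f z - f a ≥ ρ x z + min (ρ y z) (ρ y a + s) - s = min (ρ x a + ρ y z) (ρ x z + ρ y a).
-/

namespace KR3

open Set Filter Topology

universe u v w

variable {X : Type u}

variable [TopologicalSpace X]

theorem nu {ρ : X → X → ℝ} (hρ : IsPM ρ) : ∃ N ∈ 𝓝 (0 : FA X),
    (∀ x y, FA.of x - FA.of y ∈ N → ρ x y < 1) ∧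
    (∀ x y z a, FA.of x + FA.of y - FA.of z - FA.of a ∈ N →
      ρ x a + ρ y z < 1 ∨ ρ x z + ρ y a < 1) := by
  classical
  have hnn : ∀ x y, 0 ≤ ρ x y := by
    intro x y
    have h1 := hρ.tri x y x
    rw [hρ.self, hρ.symm y x] at h1
    linarith
  have hle := hρ.le_one
  let Lip : Type u := {f : X → ℝ // (∀ x y, |f x - f y| ≤ ρ x y) ∧ ∀ x, |f x| ≤ 1}
  have hmem : ∀ x : X, Memℓp (fun f : Lip => f.1 x) ⊤ := by
    intro x
    refine memℓp_infty ⟨1, ?_⟩
    rintro _ ⟨f, rfl⟩
    exact f.2.2 x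
  let E : X → lp (fun _ : Lip => ℝ) ⊤ := fun x => ⟨fun f : Lip => f.1 x, hmem x⟩
  have hEv : ∀ x (f : Lip), (E x : Lip → ℝ) f = f.1 x := fun x f => rfl
  have hEc : Continuous E := by
    rw [continuous_iff_continuousAt]
    intro x
    have hb : ∀ y, ‖E y - E x‖ ≤ ρ y x := by
      intro y
      refine lp.norm_le_of_forall_le (hnn y x) ?_
      intro f
      rw [lp.coeFn_sub, Pi.sub_apply, hEv, hEv, Real.norm_eq_abs]
      exact f.2.1 y x
    have hlim : Tendsto (fun y => ρ y x) (𝓝 x) (𝓝 0) := by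
      have hc : Continuous (fun y => ρ y x) :=
        hρ.cont.comp (continuous_id.prodMk continuous_const)
      have := hc.tendsto x
      simpa [hρ.self] using this
    unfold ContinuousAt
    rw [tendsto_iff_norm_sub_tendsto_zero]
    exact squeeze_zero (fun y => norm_nonneg _) hb hlim
  have hΦ := FA.continuous_lift E hEc
  refine ⟨{g | ‖FA.lift E g‖ < 1}, ?_, ?_, ?_⟩
  · refine IsOpen.mem_nhds ?_ ?_
    · exact isOpen_lt (hΦ.norm) continuous_const
    · simp
  · intro x y h
    have h : ‖FA.lift E (FA.of x - FA.of y)‖ < 1 := h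
    rw [map_sub, FA.lift_of, FA.lift_of] at h
    let f : Lip := ⟨fun t => ρ t y, fun s t => by
      have h1 := hρ.tri s t y
      have h2 := hρ.tri t s y
      rw [hρ.symm t s] at h2
      rw [abs_le]; constructor <;> linarith, fun t => by
      rw [abs_of_nonneg (hnn t y)]; exact hle t y⟩
    have h3 := lp.norm_apply_le_norm (by simp) (E x - E y) f
    rw [lp.coeFn_sub, Pi.sub_apply, hEv, hEv, Real.norm_eq_abs] at h3
    have h4 : f.1 x - f.1 y = ρ x y := by
      change ρ x y - ρ y y = ρ x y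
      rw [hρ.self]; ring
    rw [h4, abs_of_nonneg (hnn x y)] at h3
    linarith
  · intro x y z a h
    have h : ‖FA.lift E (FA.of x + FA.of y - FA.of z - FA.of a)‖ < 1 := h
    rw [map_sub, map_sub, map_add, FA.lift_of, FA.lift_of, FA.lift_of, FA.lift_of] at h
    let f : Lip := ⟨fun t => min (ρ t z) (ρ t a + (ρ x z - ρ x a)), fun s t => by
      refine (abs_min_sub_min_le_max _ _ _ _).trans (max_le ?_ ?_)
      · have h1 := hρ.tri s t z
        have h2 := hρ.tri t s z
        rw [hρ.symm t s] at h2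
        rw [abs_le]; constructor <;> linarith
      · have h1 := hρ.tri s t a
        have h2 := hρ.tri t s a
        rw [hρ.symm t s] at h2
        rw [abs_le]; constructor <;> linarith, fun t => by
      rw [abs_le]
      constructor
      · refine le_min ?_ ?_
        · linarith [hnn t z]
        · linarith [hnn t a, hnn x z, hle x a]
      · exact (min_le_left _ _).trans (hle t z)⟩
    have h3 := lp.norm_apply_le_norm (by simp) (E x + E y - E z - E a) f
    rw [lp.coeFn_sub, Pi.sub_apply, lp.coeFn_sub, Pi.sub_apply, lp.coeFn_add, Pi.add_apply,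
      hEv, hEv, hEv, hEv, Real.norm_eq_abs] at h3
    have h5 := (le_abs_self _).trans h3
    have hfx : f.1 x = ρ x z := by
      change min (ρ x z) (ρ x a + (ρ x z - ρ x a)) = ρ x z
      rw [min_eq_left]; linarith
    have hfz : f.1 z ≤ 0 := by
      change min (ρ z z) (ρ z a + (ρ x z - ρ x a)) ≤ 0
      rw [hρ.self]; exact min_le_left _ _
    have hfa : f.1 a ≤ ρ x z - ρ x a := by
      change min (ρ a z) (ρ a a + (ρ x z - ρ x a)) ≤ ρ x z - ρ x a
      rw [hρ.self, zero_add]; exact min_le_right _ _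
    have hfy : f.1 y = min (ρ y z) (ρ y a + (ρ x z - ρ x a)) := rfl
    rcases min_choice (ρ y z) (ρ y a + (ρ x z - ρ x a)) with hm | hm
    · left
      rw [hm] at hfy
      linarith
    · right
      rw [hm] at hfy
      linarith

end KR3
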