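import Pool.Agent.KR3.Defs

/-!
# KR3.PM

Pseudometric from a neighbourhood of the diagonal. Open cover U x ∋ x with U x ×ˢ U x ⊆ W; partition of unity φ i
(PartitionOfUnity.exists_isSubordinate, X normal paracompact) with support in U i. ρ x y = (1/2) ∑ᶠ i, |φ i x - φ i y|.
Locally finite sum: continuous. ∑ φ i = 1. ρ ≤ (1/2)(∑ φ i x + ∑ φ i y) = 1. If ρ x y < 1 there is i with φ i x > 0 and φ i y > 0
(otherwise |φ i x - φ i y| = φ i x + φ i y for all i and ρ x y = 1), so x, y ∈ U i.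
-/

namespace KR3

open Set Filter Topology

universe u v w

variable {X : Type u}

variable [TopologicalSpace X]

theorem pm [T2Space X] [ParacompactSpace X] (W : Set (X × X)) (hW : IsOpen W)
    (hd : ∀ x, (x, x) ∈ W) :
    ∃ ρ : X → X → ℝ, IsPM ρ ∧ ∀ x y, ρ x y < 1 → (x, y) ∈ W := by
  classical
  have hU : ∀ x : X, ∃ U : Set X, IsOpen U ∧ x ∈ U ∧ U ×ˢ U ⊆ W := by
    intro x
    obtain ⟨u, v, hu, hv, hxu, hxv, huv⟩ := isOpen_prod_iff.1 hW x x (hd x)
    exact ⟨u ∩ v, hu.inter hv, ⟨hxu, hxv⟩, fun p hp => huv ⟨hp.1.1, hp.2.2⟩⟩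
  choose U hUo hUx hUW using hU
  obtain ⟨φ, hφ⟩ := PartitionOfUnity.exists_isSubordinate (s := univ) isClosed_univ U hUo
    (fun x _ => mem_iUnion.2 ⟨x, hUx x⟩)
  have hfin : ∀ x, {i | φ i x ≠ 0}.Finite := fun x => φ.locallyFinite.point_finite x
  have hsum : ∀ x, ∑ᶠ i, φ i x = 1 := fun x => φ.sum_eq_one (mem_univ x)
  have hnn : ∀ i x, 0 ≤ φ i x := fun i x => φ.nonneg i x
  -- finite sums
  have hs1 : ∀ (x : X) (T : Finset X), (∀ i, i ∉ T → φ i x = 0) → ∑ i ∈ T, φ i x = 1 := by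
    intro x T hT
    rw [← hsum x]
    symm
    apply finsum_eq_sum_of_support_subset
    intro i hi
    by_contra hiT
    exact hi (hT i (by simpa using hiT))
  have hs2 : ∀ (x y : X) (T : Finset X), (∀ i, i ∉ T → φ i x = 0) → (∀ i, i ∉ T → φ i y = 0) →
      ∑ᶠ i, |φ i x - φ i y| = ∑ i ∈ T, |φ i x - φ i y| := by
    intro x y T hT hT'
    apply finsum_eq_sum_of_support_subset
    intro i hi
    by_contra hiT
    have hiT : i ∉ T := by simpa using hiT
    refine hi ?_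
    change |φ i x - φ i y| = 0
    rw [hT i hiT, hT' i hiT]; simp
  have hT : ∀ x y z : X, ∃ T : Finset X, (∀ i, i ∉ T → φ i x = 0) ∧ (∀ i, i ∉ T → φ i y = 0) ∧
      (∀ i, i ∉ T → φ i z = 0) := by
    intro x y z
    refine ⟨(hfin x).toFinset ∪ (hfin y).toFinset ∪ (hfin z).toFinset, ?_, ?_, ?_⟩
    all_goals
      intro i hi
      simp only [Finset.mem_union, Set.Finite.mem_toFinset, not_or] at hi
      by_contra h
      simp_all
  refine ⟨fun x y => (1 / 2) * ∑ᶠ i, |φ i x - φ i y|, ⟨?_, ?_, ?_, ?_, ?_⟩, ?_⟩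
  · refine continuous_const.mul ?_
    refine continuous_finsum (f := fun i (p : X × X) => |φ i p.1 - φ i p.2|) ?_ ?_
    · intro i
      have := (φ i).continuous
      fun_prop
    · rintro ⟨x, y⟩
      obtain ⟨Nx, hNx, hfx⟩ := φ.locallyFinite x
      obtain ⟨Ny, hNy, hfy⟩ := φ.locallyFinite y
      refine ⟨Nx ×ˢ Ny, prod_mem_nhds hNx hNy, (hfx.union hfy).subset ?_⟩
      rintro i ⟨⟨x', y'⟩, hi, hx', hy'⟩
      by_cases h1 : φ i x' = 0
      · right
        refine ⟨y', ?_, hy'⟩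
        intro h2
        refine hi ?_
        change |φ i x' - φ i y'| = 0
        rw [h1, h2]; simp
      · left
        exact ⟨x', h1, hx'⟩
  · intro x
    simp
  · intro x y
    congr 1
    refine finsum_congr fun i => abs_sub_comm _ _
  · intro x y z
    obtain ⟨T, h1, h2, h3⟩ := hT x y z
    change (1 / 2) * ∑ᶠ i, |φ i x - φ i z| ≤ (1 / 2) * ∑ᶠ i, |φ i x - φ i y| +
      (1 / 2) * ∑ᶠ i, |φ i y - φ i z|
    rw [hs2 x z T h1 h3, hs2 x y T h1 h2, hs2 y z T h2 h3, ← mul_add, ← Finset.sum_add_distrib]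
    refine mul_le_mul_of_nonneg_left ?_ (by norm_num)
    exact Finset.sum_le_sum fun i _ => abs_sub_le _ _ _
  · intro x y
    obtain ⟨T, h1, h2, h3⟩ := hT x y y
    change (1 / 2) * ∑ᶠ i, |φ i x - φ i y| ≤ 1
    rw [hs2 x y T h1 h2]
    have h4 : ∑ i ∈ T, |φ i x - φ i y| ≤ ∑ i ∈ T, (φ i x + φ i y) := by
      refine Finset.sum_le_sum fun i _ => ?_
      rw [abs_le]
      constructor <;> linarith [hnn i x, hnn i y]
    rw [Finset.sum_add_distrib, hs1 x T h1, hs1 y T h2] at h4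
    linarith
  · intro x y h
    change (1 / 2) * ∑ᶠ i, |φ i x - φ i y| < 1 at h
    obtain ⟨T, h1, h2, h3⟩ := hT x y y
    by_contra hxy
    have h5 : ∀ i, |φ i x - φ i y| = φ i x + φ i y := by
      intro i
      have hsub : ∀ t, φ i t ≠ 0 → t ∈ U i := fun t ht =>
        hφ i (subset_tsupport _ ht)
      by_cases ha : φ i x = 0
      · rw [ha, zero_sub, abs_neg, abs_of_nonneg (hnn i y), zero_add]
      · by_cases hb : φ i y = 0
        · rw [hb, sub_zero, abs_of_nonneg (hnn i x), add_zero]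
        · exact absurd (hUW i ⟨hsub x ha, hsub y hb⟩) hxy
    rw [hs2 x y T h1 h2, Finset.sum_congr rfl (fun i _ => h5 i), Finset.sum_add_distrib,
      hs1 x T h1, hs1 y T h2] at h
    linarith

end KR3
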