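import Pool.Agent.KR3.PosG
import Pool.Agent.KR3.PM
import Pool.Agent.KR3.NuM

/-!
# KR3.PosF

`A3 X` is a k-space if `X` is paracompact, `H3 X` and `Beta X` hold.
-/

namespace KR3

open Set Filter Topology

universe u v w

variable {X : Type u}

variable [TopologicalSpace X]

/-- traces on compact subsets of `A3` are closed -/
def PosFGood (F : Set (FA X)) : Prop := ∀ K : Set (FA X), IsCompact K → K ⊆ A3 X → IsClosed (K ∩ F)

theorem posF_open3 (h3 : H3 X) {F : Set (FA X)} (hF : PosFGood F)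
    (E : X × X × X → FA X) (hE : Continuous E) (hA : ∀ p, E p ∈ A3 X) :
    IsOpen {p | E p ∉ F} := by
  refine h3 _ fun L hL => ?_
  have h1 : IsClosed (E '' L ∩ F) := hF _ (hL.image hE) (by rintro _ ⟨p, -, rfl⟩; exact hA p)
  have h2 : (Subtype.val : L → X × X × X) ⁻¹' {p | E p ∉ F} =
      ((fun p : L => E p) ⁻¹' (E '' L ∩ F))ᶜ := by
    ext p
    constructor
    · intro h h'
      exact h h'.2
    · intro h h'
      exact h ⟨⟨p.1, p.2, rfl⟩, h'⟩
  rw [h2]
  exact (h1.preimage (hE.comp continuous_subtype_val)).isOpen_compl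

theorem posF_open2 (h3 : H3 X) {F : Set (FA X)} (hF : PosFGood F)
    (E : X × X → FA X) (hE : Continuous E) (hA : ∀ p, E p ∈ A3 X) :
    IsOpen {p | E p ∉ F} := by
  have h1 := posF_open3 h3 hF (fun p => E (p.1, p.2.1)) (hE.comp (by fun_prop)) fun p => hA _
  have h2 : Continuous fun p : X × X => (p.1, p.2, p.2) := by fun_prop
  exact h1.preimage h2

theorem posF_open1 (h3 : H3 X) {F : Set (FA X)} (hF : PosFGood F)
    (E : X → FA X) (hE : Continuous E) (hA : ∀ p, E p ∈ A3 X) :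
    IsOpen {p | E p ∉ F} := by
  have h1 := posF_open3 h3 hF (fun p => E p.1) (hE.comp (by fun_prop)) fun p => hA _
  have h2 : Continuous fun p : X => (p, p, p) := by fun_prop
  exact h1.preimage h2

theorem posF_deg (g : FA X) : {g' : FA X | deg g - 1 / 2 < deg g'} ∈ 𝓝 g ∧
    {g' : FA X | deg g' < deg g + 1 / 2} ∈ 𝓝 g :=
  ⟨(isOpen_lt continuous_const continuous_deg).mem_nhds
      (show deg g - 1 / 2 < deg g by linarith),
    (isOpen_lt continuous_deg continuous_const).mem_nhds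
      (show deg g < deg g + 1 / 2 by linarith)⟩

/-- near a point of `A3` the form of the word is determined -/
theorem posF_forms {g' : FA X} (hg : g' ∈ A3 X) (d : ℤ) (h1 : (d : ℝ) - 1 / 2 < deg g')
    (h2 : deg g' < (d : ℝ) + 1 / 2) :
    (d = 3 → ∃ x y z, g' = FA.of x + FA.of y + FA.of z) ∧
    (d = 2 → ∃ x y, g' = FA.of x + FA.of y) ∧
    (d = 1 → ∃ x y z, g' = FA.of x + FA.of y - FA.of z) ∧
    (d = 0 → ∃ x y, g' = FA.of x - FA.of y) := by
  have key : ∀ e : ℤ, deg g' = e → e = d := by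
    intro e he
    rw [he] at h1 h2
    have h3 : (d : ℝ) < (e : ℝ) + 1 := by linarith
    have h4 : (e : ℝ) < (d : ℝ) + 1 := by linarith
    have h3' : d < e + 1 := by exact_mod_cast h3
    have h4' : e < d + 1 := by exact_mod_cast h4
    omega
  have kneg : ∀ e : ℤ, deg (-g') = e → -e = d := by
    intro e he
    apply key
    rw [map_neg] at he
    push_cast
    linarith
  rcases A3_cases hg with ⟨x, y, z, h⟩ | ⟨x, y, h⟩ | ⟨x, y, z, h⟩ | ⟨x, y, h⟩ | ⟨x, y, z, h⟩ |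
    ⟨x, y, h⟩ | ⟨x, y, z, h⟩
  · have hd := key 3 (by rw [h]; simp only [map_add, deg_of]; norm_num)
    exact ⟨fun _ => ⟨x, y, z, h⟩, fun _ => by omega, fun _ => by omega, fun _ => by omega⟩
  · have hd := key 2 (by rw [h]; simp only [map_add, deg_of]; norm_num)
    exact ⟨fun _ => by omega, fun _ => ⟨x, y, h⟩, fun _ => by omega, fun _ => by omega⟩
  · have hd := key 1 (by rw [h]; simp only [map_add, map_sub, deg_of]; norm_num)
    exact ⟨fun _ => by omega, fun _ => by omega, fun _ => ⟨x, y, z, h⟩, fun _ => by omega⟩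
  · have hd := key 0 (by rw [h]; simp only [map_sub, deg_of]; norm_num)
    exact ⟨fun _ => by omega, fun _ => by omega, fun _ => by omega, fun _ => ⟨x, y, h⟩⟩
  · have hd := kneg 1 (by rw [h]; simp only [map_add, map_sub, deg_of]; norm_num)
    exact ⟨fun _ => by omega, fun _ => by omega, fun _ => by omega, fun _ => by omega⟩
  · have hd := kneg 2 (by rw [h]; simp only [map_add, deg_of]; norm_num)
    exact ⟨fun _ => by omega, fun _ => by omega, fun _ => by omega, fun _ => by omega⟩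
  · have hd := kneg 3 (by rw [h]; simp only [map_add, deg_of]; norm_num)
    exact ⟨fun _ => by omega, fun _ => by omega, fun _ => by omega, fun _ => by omega⟩

theorem posF_ppp [T35Space X] (h3 : H3 X) {F : Set (FA X)} (hF : PosFGood F) (x y z : X)
    (hg : FA.of x + FA.of y + FA.of z ∉ F) :
    ∃ N ∈ 𝓝 (FA.of x + FA.of y + FA.of z), ∀ g' ∈ N, g' ∈ A3 X → g' ∉ F := by
  have hc : Continuous fun p : X × X × X => FA.of p.1 + FA.of p.2.1 + FA.of p.2.2 :=
    ((FA.continuous_of.comp continuous_fst).add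
      (FA.continuous_of.comp (continuous_fst.comp continuous_snd))).add
      (FA.continuous_of.comp (continuous_snd.comp continuous_snd))
  have hO := posF_open3 h3 hF _ hc fun p => mem_A3_ppp _ _ _
  obtain ⟨A, BC, hA, hBC, hx, hyz, hsub⟩ := isOpen_prod_iff.1 hO x (y, z) hg
  obtain ⟨B, C, hB, hC, hy, hz, hsub2⟩ := isOpen_prod_iff.1 hBC y z hyz
  have hbox : ∀ a b c, a ∈ A → b ∈ B → c ∈ C → FA.of a + FA.of b + FA.of c ∉ F :=
    fun a b c ha hb hc => hsub (show (a, b, c) ∈ A ×ˢ BC from ⟨ha, hsub2 ⟨hb, hc⟩⟩)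
  obtain ⟨N, hN, hNp⟩ := posG3 x y z A B C hA hB hC hx hy hz
  obtain ⟨hd1, hd2⟩ := posF_deg (FA.of x + FA.of y + FA.of z)
  refine ⟨_, inter_mem hN (inter_mem hd1 hd2), ?_⟩
  rintro g' ⟨m1, m2, m3⟩ hg'
  have hdeg : deg (FA.of x + FA.of y + FA.of z) = ((3 : ℤ) : ℝ) := by
    simp only [map_add, deg_of]; norm_num
  obtain ⟨a, b, c, rfl⟩ := (posF_forms hg' 3 (by rw [← hdeg]; exact m2)
    (by rw [← hdeg]; exact m3)).1 rfl
  rcases hNp a b c m1 with h | h | h | h | h | h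
  · exact hbox a b c h.1 h.2.1 h.2.2
  · have := hbox a c b h.1 h.2.1 h.2.2
    rwa [show FA.of a + FA.of c + FA.of b = FA.of a + FA.of b + FA.of c by abel] at this
  · have := hbox b a c h.1 h.2.1 h.2.2
    rwa [show FA.of b + FA.of a + FA.of c = FA.of a + FA.of b + FA.of c by abel] at this
  · have := hbox b c a h.1 h.2.1 h.2.2
    rwa [show FA.of b + FA.of c + FA.of a = FA.of a + FA.of b + FA.of c by abel] at this
  · have := hbox c a b h.1 h.2.1 h.2.2
    rwa [show FA.of c + FA.of a + FA.of b = FA.of a + FA.of b + FA.of c by abel] at this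
  · have := hbox c b a h.1 h.2.1 h.2.2
    rwa [show FA.of c + FA.of b + FA.of a = FA.of a + FA.of b + FA.of c by abel] at this

theorem posF_pp [T35Space X] (h3 : H3 X) {F : Set (FA X)} (hF : PosFGood F) (x y : X)
    (hg : FA.of x + FA.of y ∉ F) :
    ∃ N ∈ 𝓝 (FA.of x + FA.of y), ∀ g' ∈ N, g' ∈ A3 X → g' ∉ F := by
  have hc : Continuous fun p : X × X => FA.of p.1 + FA.of p.2 :=
    (FA.continuous_of.comp continuous_fst).add (FA.continuous_of.comp continuous_snd)
  have hO := posF_open2 h3 hF _ hc fun p => mem_A3_pp _ _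
  obtain ⟨A, B, hA, hB, hx, hy, hsub⟩ := isOpen_prod_iff.1 hO x y hg
  have hbox : ∀ a b, a ∈ A → b ∈ B → FA.of a + FA.of b ∉ F :=
    fun a b ha hb => hsub (show (a, b) ∈ A ×ˢ B from ⟨ha, hb⟩)
  obtain ⟨N, hN, hNp⟩ := posG2 x y A B hA hB hx hy
  obtain ⟨hd1, hd2⟩ := posF_deg (FA.of x + FA.of y)
  refine ⟨_, inter_mem hN (inter_mem hd1 hd2), ?_⟩
  rintro g' ⟨m1, m2, m3⟩ hg'
  have hdeg : deg (FA.of x + FA.of y) = ((2 : ℤ) : ℝ) := by
    simp only [map_add, deg_of]; norm_num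
  obtain ⟨a, b, rfl⟩ := (posF_forms hg' 2 (by rw [← hdeg]; exact m2)
    (by rw [← hdeg]; exact m3)).2.1 rfl
  rcases hNp a b m1 with h | h
  · exact hbox a b h.1 h.2
  · have := hbox b a h.1 h.2
    rwa [add_comm] at this

/-- the point `a` as an element of `A3` -/
theorem posF_p [T2Space X] [ParacompactSpace X] [T35Space X] (h3 : H3 X) (hb : Beta X)
    {F : Set (FA X)} (hF : PosFGood F) (a : X) (hg : FA.of a ∉ F) :
    ∃ N ∈ 𝓝 (FA.of a), ∀ g' ∈ N, g' ∈ A3 X → g' ∉ F := by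
  have hc : Continuous fun p : X × X × X => FA.of p.1 + FA.of p.2.1 - FA.of p.2.2 :=
    ((FA.continuous_of.comp continuous_fst).add
      (FA.continuous_of.comp (continuous_fst.comp continuous_snd))).sub
      (FA.continuous_of.comp (continuous_snd.comp continuous_snd))
  have hO := posF_open3 h3 hF _ hc fun p => mem_A3_ppm _ _ _
  have hV0 : IsOpen {v : X | FA.of v ∉ F} := posF_open1 h3 hF _ FA.continuous_of fun v => by
    have := mem_A3_ppm v v v
    rwa [add_sub_cancel_right] at this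
  obtain ⟨V, hV, haV, W, hW, hWd, hVW⟩ := hb a _ _ hO hV0 hg (fun v hv y => by
    change FA.of v + FA.of y - FA.of y ∉ F
    rw [add_sub_cancel_right]
    exact hv)
  have hbox : ∀ v y z, v ∈ V → (y, z) ∈ W → FA.of v + FA.of y - FA.of z ∉ F :=
    fun v y z hv hw => hVW v hv (y, z) hw
  obtain ⟨φ, hφc, hφ0, hφ1, hφa, hφV⟩ := bump a V hV haV
  obtain ⟨ρ0, hρ0, hρW⟩ := pm W hW hWd
  have hρ : IsPM (fun x y : X => max (ρ0 x y) |φ x - φ y|) := by
    refine ⟨?_, ?_, ?_, ?_, ?_⟩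
    · refine hρ0.cont.max ?_
      exact ((hφc.comp continuous_fst).sub (hφc.comp continuous_snd)).abs
    · intro x
      simp [hρ0.self x]
    · intro x y
      rw [hρ0.symm x y, abs_sub_comm]
    · intro x y z
      refine max_le ?_ ?_
      · exact (hρ0.tri x y z).trans (add_le_add (le_max_left _ _) (le_max_left _ _))
      · exact (abs_sub_le (φ x) (φ y) (φ z)).trans (add_le_add (le_max_right _ _) (le_max_right _ _))
    · intro x y
      refine max_le (hρ0.le_one x y) ?_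
      rw [abs_le]
      constructor <;> linarith [hφ0 x, hφ0 y, hφ1 x, hφ1 y]
  have hpos : ∀ x y, 0 ≤ max (ρ0 x y) |φ x - φ y| := fun x y =>
    le_max_of_le_right (abs_nonneg _)
  obtain ⟨N, hN, -, hN2⟩ := nu hρ
  have hN' : {g' : FA X | g' - FA.of a ∈ N} ∈ 𝓝 (FA.of a) := by
    have hcont : ContinuousAt (fun g' : FA X => g' - FA.of a) (FA.of a) := by fun_prop
    refine hcont.preimage_mem_nhds ?_
    simpa using hN
  obtain ⟨hd1, hd2⟩ := posF_deg (FA.of a)
  refine ⟨_, inter_mem hN' (inter_mem hd1 hd2), ?_⟩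
  rintro g' ⟨m1, m2, m3⟩ hg'
  have hdeg : deg (FA.of a) = ((1 : ℤ) : ℝ) := by
    rw [deg_of]; norm_num
  obtain ⟨x, y, z, rfl⟩ := (posF_forms hg' 1 (by rw [← hdeg]; exact m2)
    (by rw [← hdeg]; exact m3)).2.2.1 rfl
  have hV' : ∀ t, max (ρ0 t a) |φ t - φ a| < 1 → t ∈ V := by
    intro t ht
    by_contra h
    have h1 := (max_lt_iff.1 ht).2
    rw [hφV t h, hφa] at h1
    norm_num at h1
  have hW' : ∀ t s, max (ρ0 t s) |φ t - φ s| < 1 → (t, s) ∈ W := fun t s ht =>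
    hρW t s (max_lt_iff.1 ht).1
  rcases hN2 x y z a m1 with h | h
  · have h1 := hpos x a
    have h2 := hpos y z
    exact hbox x y z (hV' x (by linarith)) (hW' y z (by linarith))
  · have h1 := hpos x z
    have h2 := hpos y a
    have := hbox y x z (hV' y (by linarith)) (hW' x z (by linarith))
    rwa [add_comm (FA.of y)] at this

theorem posF_ppm [T2Space X] [ParacompactSpace X] [T35Space X] (h3 : H3 X) (hb : Beta X)
    {F : Set (FA X)} (hF : PosFGood F) (x y z : X)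
    (hg : FA.of x + FA.of y - FA.of z ∉ F) :
    ∃ N ∈ 𝓝 (FA.of x + FA.of y - FA.of z), ∀ g' ∈ N, g' ∈ A3 X → g' ∉ F := by
  by_cases hzx : z = x
  · subst hzx
    rw [add_sub_cancel_left] at hg ⊢
    exact posF_p h3 hb hF y hg
  by_cases hzy : z = y
  · subst hzy
    rw [add_sub_cancel_right] at hg ⊢
    exact posF_p h3 hb hF x hg
  have hc : Continuous fun p : X × X × X => FA.of p.1 + FA.of p.2.1 - FA.of p.2.2 :=
    ((FA.continuous_of.comp continuous_fst).add
      (FA.continuous_of.comp (continuous_fst.comp continuous_snd))).sub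
      (FA.continuous_of.comp (continuous_snd.comp continuous_snd))
  have hO := posF_open3 h3 hF _ hc fun p => mem_A3_ppm _ _ _
  obtain ⟨A, BC, hA, hBC, hx, hyz, hsub⟩ := isOpen_prod_iff.1 hO x (y, z) hg
  obtain ⟨B, C, hB, hC, hy, hz, hsub2⟩ := isOpen_prod_iff.1 hBC y z hyz
  have hbox : ∀ a b c, a ∈ A → b ∈ B → c ∈ C → FA.of a + FA.of b - FA.of c ∉ F :=
    fun a b c ha hb hc => hsub (show (a, b, c) ∈ A ×ˢ BC from ⟨ha, hsub2 ⟨hb, hc⟩⟩)
  obtain ⟨N, hN, hNp⟩ := posG1 x y z hzx hzy A B C hA hB hC hx hy hz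
  obtain ⟨hd1, hd2⟩ := posF_deg (FA.of x + FA.of y - FA.of z)
  refine ⟨_, inter_mem hN (inter_mem hd1 hd2), ?_⟩
  rintro g' ⟨m1, m2, m3⟩ hg'
  have hdeg : deg (FA.of x + FA.of y - FA.of z) = ((1 : ℤ) : ℝ) := by
    simp only [map_add, map_sub, deg_of]; norm_num
  obtain ⟨a, b, c, rfl⟩ := (posF_forms hg' 1 (by rw [← hdeg]; exact m2)
    (by rw [← hdeg]; exact m3)).2.2.1 rfl
  rcases hNp a b c m1 with ⟨hc, h | h⟩
  · exact hbox a b c h.1 h.2 hc
  · have := hbox b a c h.1 h.2 hc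
    rwa [add_comm (FA.of b)] at this

theorem posF_pm [T2Space X] [ParacompactSpace X] [T35Space X] (h3 : H3 X)
    {F : Set (FA X)} (hF : PosFGood F) (x y : X)
    (hg : FA.of x - FA.of y ∉ F) :
    ∃ N ∈ 𝓝 (FA.of x - FA.of y), ∀ g' ∈ N, g' ∈ A3 X → g' ∉ F := by
  have hc : Continuous fun p : X × X => FA.of p.1 - FA.of p.2 :=
    (FA.continuous_of.comp continuous_fst).sub (FA.continuous_of.comp continuous_snd)
  have hO := posF_open2 h3 hF _ hc fun p => mem_A3_pm _ _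
  obtain ⟨hd1, hd2⟩ := posF_deg (FA.of x - FA.of y)
  have hdeg : deg (FA.of x - FA.of y) = ((0 : ℤ) : ℝ) := by
    simp only [map_sub, deg_of]; norm_num
  by_cases hxy : x = y
  · subst hxy
    rw [sub_self] at hg
    obtain ⟨ρ, hρ, hρW⟩ := pm _ hO (fun t => by
      change FA.of t - FA.of t ∉ F
      rwa [sub_self])
    obtain ⟨N, hN, hN1, -⟩ := nu hρ
    rw [← sub_self (FA.of x)] at hN
    refine ⟨_, inter_mem hN (inter_mem hd1 hd2), ?_⟩
    rintro g' ⟨m1, m2, m3⟩ hg'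
    obtain ⟨a, b, rfl⟩ := (posF_forms hg' 0 (by rw [← hdeg]; exact m2)
      (by rw [← hdeg]; exact m3)).2.2.2 rfl
    exact hρW a b (hN1 a b m1)
  · obtain ⟨A, B, hA, hB, hx, hy, hsub⟩ := isOpen_prod_iff.1 hO x y hg
    obtain ⟨N, hN, hNp⟩ := posG0 x y hxy A B hA hB hx hy
    refine ⟨_, inter_mem hN (inter_mem hd1 hd2), ?_⟩
    rintro g' ⟨m1, m2, m3⟩ hg'
    obtain ⟨a, b, rfl⟩ := (posF_forms hg' 0 (by rw [← hdeg]; exact m2)
      (by rw [← hdeg]; exact m3)).2.2.2 rfl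
    obtain ⟨ha, hb⟩ := hNp a b m1
    exact hsub (show (a, b) ∈ A ×ˢ B from ⟨ha, hb⟩)

/-- the reflected set is good as well -/
theorem posF_neg {F : Set (FA X)} (hF : PosFGood F) : PosFGood {g : FA X | -g ∈ F} := by
  intro K hK hKA
  have h1 : IsClosed ((fun g : FA X => -g) '' K ∩ F) := by
    refine hF _ (hK.image continuous_neg) ?_
    rintro _ ⟨g, hg, rfl⟩
    exact neg_mem_A3 (hKA hg)
  have h2 : K ∩ {g : FA X | -g ∈ F} = (fun g : FA X => -g) ⁻¹' ((fun g : FA X => -g) '' K ∩ F) := by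
    ext g
    constructor
    · rintro ⟨h, h'⟩
      exact ⟨⟨g, h, rfl⟩, h'⟩
    · rintro ⟨⟨g', h, h'⟩, h''⟩
      have : g' = g := neg_injective h'
      subst this
      exact ⟨h, h''⟩
  rw [h2]
  exact h1.preimage continuous_neg

theorem posF_core [T2Space X] [ParacompactSpace X] [T35Space X] (h3 : H3 X) (hb : Beta X)
    {F : Set (FA X)} (hF : PosFGood F) {g : FA X} (hgA : g ∈ A3 X) (hg : g ∉ F) :
    ∃ N ∈ 𝓝 g, ∀ g' ∈ N, g' ∈ A3 X → g' ∉ F := by
  have hneg : (∃ N ∈ 𝓝 (-g), ∀ g' ∈ N, g' ∈ A3 X → g' ∉ {g : FA X | -g ∈ F}) →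
      ∃ N ∈ 𝓝 g, ∀ g' ∈ N, g' ∈ A3 X → g' ∉ F := by
    rintro ⟨N, hN, h⟩
    refine ⟨(fun g : FA X => -g) ⁻¹' N, continuous_neg.continuousAt.preimage_mem_nhds hN, ?_⟩
    intro g' h1 h2 h3
    refine h (-g') h1 (neg_mem_A3 h2) ?_
    change - -g' ∈ F
    rwa [neg_neg]
  have hg2 : -g ∉ {g : FA X | -g ∈ F} := by
    change - -g ∉ F
    rwa [neg_neg]
  rcases A3_cases hgA with ⟨x, y, z, h⟩ | ⟨x, y, h⟩ | ⟨x, y, z, h⟩ | ⟨x, y, h⟩ | ⟨x, y, z, h⟩ |
    ⟨x, y, h⟩ | ⟨x, y, z, h⟩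
  · subst h; exact posF_ppp h3 hF x y z hg
  · subst h; exact posF_pp h3 hF x y hg
  · subst h; exact posF_ppm h3 hb hF x y z hg
  · subst h; exact posF_pm h3 hF x y hg
  · apply hneg
    rw [h] at hg2 ⊢
    exact posF_ppm h3 hb (posF_neg hF) x y z hg2
  · apply hneg
    rw [h] at hg2 ⊢
    exact posF_pp h3 (posF_neg hF) x y hg2
  · apply hneg
    rw [h] at hg2 ⊢
    exact posF_ppp h3 (posF_neg hF) x y z hg2

theorem pos [T2Space X] [ParacompactSpace X] (h3 : H3 X) (hb : Beta X) : IsKSpace (A3 X) := by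
  haveI : T35Space X := inferInstance
  haveI : T2Space (FA X) := FA.t2
  intro F hF
  have hgood : PosFGood (Subtype.val '' F : Set (FA X)) := by
    intro K hK hKA
    have hK' : IsCompact ((Subtype.val : A3 X → FA X) ⁻¹' K) := by
      rw [Subtype.isCompact_iff]
      have : (Subtype.val : A3 X → FA X) '' ((Subtype.val : A3 X → FA X) ⁻¹' K) = K := by
        rw [Subtype.image_preimage_coe, inter_eq_right.2 hKA]
      rw [this]
      exact hK
    have h1 := hF _ hK'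
    haveI : CompactSpace ((Subtype.val : A3 X → FA X) ⁻¹' K) := isCompact_iff_compactSpace.1 hK'
    have h2 := h1.isCompact
    have h3 : IsCompact (Subtype.val '' ((Subtype.val :
        ((Subtype.val : A3 X → FA X) ⁻¹' K) → A3 X) ⁻¹' F) : Set (A3 X)) :=
      h2.image continuous_subtype_val
    have h4 := h3.image (continuous_subtype_val : Continuous (Subtype.val : A3 X → FA X))
    have h5 : K ∩ Subtype.val '' F = (Subtype.val : A3 X → FA X) '' (Subtype.val '' ((Subtype.val :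
        ((Subtype.val : A3 X → FA X) ⁻¹' K) → A3 X) ⁻¹' F)) := by
      ext g
      constructor
      · rintro ⟨hgK, ⟨f, hf, rfl⟩⟩
        exact ⟨f, ⟨⟨f, hgK⟩, hf, rfl⟩, rfl⟩
      · rintro ⟨f, ⟨⟨f', hf'⟩, hf, rfl⟩, rfl⟩
        exact ⟨hf', ⟨f', hf, rfl⟩⟩
    rw [h5]
    exact h4.isClosed
  rw [← isOpen_compl_iff, isOpen_iff_mem_nhds]
  intro g hg
  have hg' : (g : FA X) ∉ (Subtype.val '' F : Set (FA X)) := by
    rintro ⟨f, hf, hfg⟩
    exact hg (Subtype.ext hfg ▸ hf)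
  obtain ⟨N, hN, h⟩ := posF_core h3 hb hgood g.2 hg'
  rw [nhds_subtype, mem_comap]
  refine ⟨N, hN, fun g' hg'N hg'F => ?_⟩
  exact h g'.1 hg'N g'.2 ⟨g', hg'F, rfl⟩

end KR3
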