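import Pool.Agent.KR3.BaseI
import Pool.Agent.KR3.Comp

/-!
# KR3.S1

Q' = {A ∈ Q | closure A ∩ C ≠ ∅, A ∩ C = ∅} is uncountable (only countably many members of Q meet C). For A ∈ Q': pick
c_A ∈ closure A ∩ C and (seq_in_compact inside the compact closure A) a sequence s_A in A converging to c_A; s_A m ∉ C.
Relation on the type Q': r A B :⇔ ∃ R ∈ Q, R ∩ A ≠ ∅ ∧ R ∩ B ≠ ∅. Countable degrees: closure A is compact so countably many
R ∈ Q meet A, and for each such R closure R is compact so countably many B ∈ Q meet R. uncountable_indep: J ⊆ Q'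
uncountable, pairwise non-related. Then (C, s, c) restricted to J is an S-configuration: a compact L is covered by a
finite F ⊆ Q (network with U = univ); each R ∈ F meets at most one A ∈ J (if R meets A ≠ B then r A B), so L contains points
of s_A for at most |F| many A ∈ J.
J as a type: J : Type u is the subtype of Set X (universe u).
-/

namespace KR3

open Set Filter Topology

universe u v w

variable {X : Type u}

variable [TopologicalSpace X]

theorem s1 (hX : Base X) (Q : Set (Set X)) (hQ : IsKNetwork Q) (hc : CompactCountable Q)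
    (hcomp : ∀ A ∈ Q, IsCompact (closure A)) (C : Set X) (hC : IsCompact C)
    (hunc : ¬ {A ∈ Q | (closure A ∩ C).Nonempty}.Countable) :
    ∃ J : Type u, Uncountable J ∧ HasS J X := by
  classical
  set Q' : Set (Set X) := {A ∈ Q | (closure A ∩ C).Nonempty ∧ ¬ (A ∩ C).Nonempty} with hQ'
  have hQ'u : ¬ Q'.Countable := by
    intro h
    apply hunc
    refine (h.union (hc C hC)).mono ?_
    rintro A ⟨hA, hAC⟩
    by_cases hA' : (A ∩ C).Nonempty
    · exact Or.inr ⟨hA, hA'⟩
    · exact Or.inl ⟨hA, hAC, hA'⟩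
  have hunc' : Uncountable Q' := by
    rw [← not_countable_iff]
    exact fun h => hQ'u (Set.countable_coe_iff.1 h)
  have hsel : ∀ A : Q', ∃ (c : X) (s : ℕ → X), c ∈ C ∧ (∀ n, s n ∈ (A : Set X)) ∧
      Tendsto s atTop (𝓝 c) := by
    rintro ⟨A, hA, ⟨c, hcA, hcC⟩, _⟩
    obtain ⟨s, hs1, hs2⟩ := hX.seq_in_compact (hcomp A hA) subset_closure hcA
    exact ⟨c, s, hcC, hs1, hs2⟩
  choose c s hcC hsA hlim using hsel
  let r : Q' → Q' → Prop := fun A B => ∃ R ∈ Q, (R ∩ (A : Set X)).Nonempty ∧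
    (R ∩ (B : Set X)).Nonempty
  have hsymm : ∀ A B, r A B → r B A := fun A B ⟨R, hR, h1, h2⟩ => ⟨R, hR, h2, h1⟩
  have hdeg : ∀ A, {B | r A B ∨ r B A}.Countable := by
    intro A
    have h1 : (⋃ R ∈ {R ∈ Q | (R ∩ closure (A : Set X)).Nonempty},
        {B ∈ Q | (B ∩ closure R).Nonempty}).Countable :=
      (hc _ (hcomp A A.2.1)).biUnion fun R hR => hc _ (hcomp R hR.1)
    refine (h1.preimage Subtype.val_injective).mono ?_
    rintro B hB
    have hAB : r A B := hB.elim id (hsymm B A)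
    obtain ⟨R, hR, ⟨x, hxR, hxA⟩, ⟨y, hyR, hyB⟩⟩ := hAB
    simp only [Set.mem_preimage, Set.mem_iUnion]
    exact ⟨R, ⟨hR, x, hxR, subset_closure hxA⟩, B.2.1, y, hyB, subset_closure hyR⟩
  obtain ⟨J0, hJ0, hind⟩ := uncountable_indep r hdeg
  refine ⟨J0, ?_, C, fun j => s j, fun j => c j, hC, fun j => hcC j, fun j => hlim j, ?_, ?_⟩
  · rw [← not_countable_iff]
    exact fun h => hJ0 (Set.countable_coe_iff.1 h)
  · intro j m hm
    exact (j : Q').2.2.2 ⟨_, hsA j m, hm⟩
  · intro L hL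
    obtain ⟨F, hF, hFQ, hLF, -⟩ := hQ L univ hL isOpen_univ (subset_univ L)
    have h1 : ∀ j : J0, ∃ R : Set X, (∃ m, s j m ∈ L) → R ∈ F ∧
        (R ∩ ((j : Q') : Set X)).Nonempty := by
      intro j
      by_cases hj : ∃ m, s j m ∈ L
      · obtain ⟨m, hm⟩ := hj
        obtain ⟨R, hR, hmR⟩ := hLF hm
        exact ⟨R, fun _ => ⟨hR, _, hmR, hsA j m⟩⟩
      · exact ⟨∅, fun h => absurd h hj⟩
    choose R hR using h1
    refine Set.Finite.of_injOn (f := R) (t := F) (fun j hj => (hR j hj).1) ?_ hF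
    intro j hj j' hj' hjj'
    by_contra hne
    refine hind j j.2 j' j'.2 (fun h => hne (Subtype.ext h)) ?_
    refine ⟨R j, hFQ (hR j hj).1, (hR j hj).2, ?_⟩
    rw [hjj']
    exact (hR j' hj').2

end KR3
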