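import Pool.Agent.KR3.NegA
import Pool.Agent.KR3.NegB
import Pool.Agent.KR3.NegC
import Pool.Agent.KR3.NegD
import Pool.Agent.KR3.Mnet
import Pool.Agent.KR3.S1
import Pool.Agent.KR3.DecM
import Pool.Agent.KR3.H3D
import Pool.Agent.KR3.DomF
import Pool.Agent.KR3.Kws
import Pool.Agent.KR3.LemS
import Pool.Agent.KR3.Case1
import Pool.Agent.KR3.Case2
import Pool.Agent.KR3.PosF

/-!
# KR3.FinM

Final assembly (written by helper2).
-/

namespace KR3

open Set Filter Topology

universe u v w

variable {X : Type u}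

variable [TopologicalSpace X]

theorem main (hX : Base X) (hkr : IsKRSpace (A3 X)) : IsKSpace (A3 X) := by
  haveI := hX.t2
  haveI := hX.para
  by_cases hM : HasM X
  · have hcl : IsClosed {x : X | ¬ IsOpen ({x} : Set X)} := by
      rw [← isOpen_compl_iff]
      have : ({x : X | ¬ IsOpen ({x} : Set X)})ᶜ = ⋃ x ∈ {x : X | IsOpen ({x} : Set X)}, {x} := by
        ext y; simp
      rw [this]
      exact isOpen_biUnion fun x hx => hx
    have hC : IsCompact {x : X | ¬ IsOpen ({x} : Set X)} := by
      by_contra hnc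
      obtain ⟨q, hq, hcd, hmem⟩ := hX.exists_seq_of_noncompact (A := {x : X | ¬ IsOpen ({x} : Set X)})
        (by rwa [hcl.closure_eq])
      exact negA hX hkr hM q hq hcd hmem
    have hch : ∃ V : ℕ → Set X, (∀ n, IsOpen (V n) ∧ {x : X | ¬ IsOpen ({x} : Set X)} ⊆ V n) ∧
        ∀ U, IsOpen U → {x : X | ¬ IsOpen ({x} : Set X)} ⊆ U → ∃ n, V n ⊆ U := by
      by_contra h
      exact negB hX hkr hM (lemS hX hC h)
    obtain ⟨h3, hb⟩ := case1 hX hC hch
    exact pos h3 hb
  · obtain ⟨Q, hQ, hc, hcomp⟩ := mnet hX hM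
    have hcl : ∀ C : Set X, IsCompact C → {A ∈ Q | (closure A ∩ C).Nonempty}.Countable := by
      intro C hC
      by_contra hu
      obtain ⟨J, hJ, hS⟩ := s1 hX Q hQ hc hcomp C hC hu
      exact negC hX hkr J hS
    obtain ⟨I, cl, Y, hD⟩ := decM hX Q hQ hcomp hcl
    by_cases hlc : ∀ x : X, ∃ K ∈ 𝓝 x, IsCompact K
    · obtain ⟨h3, hb⟩ := case2 hlc
      exact pos h3 hb
    · push Not at hlc
      obtain ⟨p, hp⟩ := hlc
      have hS := kws hX hD p (fun K hK hKn => hp K hKn hK)
      have h3 := h3_of_dec hX hD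
      refine pos h3 (beta_of_dom hX hD h3 fun f => ?_)
      choose q hq1 hq2 using fun i : {i : I // ∃ x, cl x = i ∧ ¬ IsOpen ({x} : Set X)} => i.2
      have hinj : Function.Injective q := by
        intro i j hij
        apply Subtype.ext
        rw [← hq1 i, ← hq1 j, hij]
      have hcd : CD (range q) := by
        intro A hA
        rw [← isOpen_compl_iff, isOpen_iff_mem_nhds]
        intro x hx
        have hx1 : cl ⁻¹' {cl x} ∈ 𝓝 x := (hD.clopen (cl x)).isOpen.mem_nhds rfl
        by_cases hex : ∃ i : {i : I // ∃ x, cl x = i ∧ ¬ IsOpen ({x} : Set X)}, (i : I) = cl x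
        · obtain ⟨i, hi⟩ := hex
          by_cases hqi : q i ∈ A
          · have hne : x ≠ q i := fun h => hx (h ▸ hqi)
            have h2 : ({q i} : Set X)ᶜ ∈ 𝓝 x := isOpen_compl_singleton.mem_nhds hne
            filter_upwards [hx1, h2] with y hy1 hy2 hyA
            obtain ⟨j, rfl⟩ := hA hyA
            have : j = i := by
              apply Subtype.ext
              rw [hi, ← hq1 j]; exact hy1
            exact hy2 (by rw [this]; rfl)
          · filter_upwards [hx1] with y hy1 hyA
            obtain ⟨j, rfl⟩ := hA hyA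
            have : j = i := by
              apply Subtype.ext
              rw [hi, ← hq1 j]; exact hy1
            exact hqi (this ▸ hyA)
        · filter_upwards [hx1] with y hy1 hyA
          obtain ⟨j, rfl⟩ := hA hyA
          exact hex ⟨j, by rw [← hq1 j]; exact hy1⟩
      exact negD hX hkr hS q hinj hcd hq2 f

end KR3
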