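import Pool.Agent.KR3.NsysM
import Pool.Agent.KR3.BaseI

/-!
# KR3.Grow

grow_open: x ∈ ⋃ K n. Let m be given; U = ⋃ n, K n. To see: U is open. By the k-property of X it suffices that U ∩ L is
relatively open in each compact L: since cl⁻¹{i} is clopen, L' = L ∩ cl⁻¹{i} is compact, contained in some Y i m; if x ∈ U ∩ L then
x ∈ K n for some n ≥ m; with O from hstep, O ∩ L' ⊆ O ∩ Y i (n+1) ⊆ K (n+1) ⊆ U and U ⊆ cl⁻¹{i}. So O ∩ cl⁻¹{i} ∩ L ⊆ U.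
grow_seq: existence of a growing sequence of compact relative neighbourhoods following f (definition by recursion):
K 0 = K0, K (n+1) = N (n+1) (K n) (f n).
-/

namespace KR3

open Set Filter Topology

universe u v w

variable {X : Type u}

variable [TopologicalSpace X]

theorem KOpen.isOpen_of_kspace {Z : Type u} [TopologicalSpace Z] (h : IsKSpace Z) {O : Set Z}
    (hO : KOpen O) : IsOpen O := by
  rw [← isClosed_compl_iff]
  refine h _ fun K hK => ?_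
  rw [preimage_compl]
  exact (hO K hK).isClosed_compl

theorem kOpen_of_local {Z : Type u} [TopologicalSpace Z] {U : Set Z}
    (h : ∀ L : Set Z, IsCompact L → ∀ x ∈ U, x ∈ L → ∃ O, IsOpen O ∧ x ∈ O ∧ O ∩ L ⊆ U) :
    KOpen U := by
  intro L hL
  rw [isOpen_iff_forall_mem_open]
  rintro ⟨x, hxL⟩ hxU
  obtain ⟨O, hO, hxO, hOU⟩ := h L hL x hxU hxL
  exact ⟨Subtype.val ⁻¹' O, fun y hy => hOU ⟨hy, y.2⟩, hO.preimage continuous_subtype_val, hxO⟩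

theorem grow_open (hX : Base X) {I : Type v} {cl : X → I} {Y : I → ℕ → Set X} (hD : Dec X I cl Y)
    (i : I) (K : ℕ → Set X) (hK : ∀ n, K n ⊆ cl ⁻¹' {i}) (hmono : Monotone K)
    (hstep : ∀ n, ∃ O, IsOpen O ∧ K n ⊆ O ∧ O ∩ Y i (n + 1) ⊆ K (n + 1)) :
    IsOpen (⋃ n, K n) := by
  refine KOpen.isOpen_of_kspace hX.ksp (kOpen_of_local fun L hL x hxU hxL => ?_)
  obtain ⟨n, hn⟩ := mem_iUnion.1 hxU
  have hL' : IsCompact (L ∩ cl ⁻¹' {i}) := hL.inter_right (hD.clopen i).isClosed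
  obtain ⟨m, hm⟩ := hD.exh i _ hL' inter_subset_right
  obtain ⟨O, hO, hKO, hOY⟩ := hstep (max n m)
  have hxK : x ∈ K (max n m) := hmono (le_max_left n m) hn
  refine ⟨O ∩ cl ⁻¹' {i}, hO.inter (hD.clopen i).isOpen, ⟨hKO hxK, hK _ hxK⟩, ?_⟩
  rintro y ⟨⟨hyO, hyi⟩, hyL⟩
  refine mem_iUnion.2 ⟨max n m + 1, hOY ⟨hyO, ?_⟩⟩
  exact hD.mono i ((le_max_right n m).trans (Nat.le_succ _)) (hm ⟨hyL, hyi⟩)

/-- the same in the square of a class, given `h2`: every `k`-open subset of `X × X` is open -/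
theorem grow_open2 (hX : Base X) {I : Type v} {cl : X → I} {Y : I → ℕ → Set X} (hD : Dec X I cl Y)
    (h2 : ∀ O : Set (X × X), KOpen O → IsOpen O)
    (i : I) (L : ℕ → Set (X × X)) (hL : ∀ n, L n ⊆ (cl ⁻¹' {i}) ×ˢ (cl ⁻¹' {i}))
    (hmono : Monotone L)
    (hstep : ∀ n, ∃ O, IsOpen O ∧ L n ⊆ O ∧ O ∩ (Y i (n + 1) ×ˢ Y i (n + 1)) ⊆ L (n + 1)) :
    IsOpen (⋃ n, L n) := by
  refine h2 _ (kOpen_of_local fun C hC x hxU hxC => ?_)
  obtain ⟨n, hn⟩ := mem_iUnion.1 hxU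
  have hcl : IsClopen ((cl ⁻¹' {i}) ×ˢ (cl ⁻¹' {i}) : Set (X × X)) :=
    (hD.clopen i).prod (hD.clopen i)
  have hC' : IsCompact (C ∩ (cl ⁻¹' {i}) ×ˢ (cl ⁻¹' {i})) := hC.inter_right hcl.isClosed
  obtain ⟨m₁, hm₁⟩ := hD.exh i _ (hC'.image continuous_fst) (by
    rintro _ ⟨y, hy, rfl⟩; exact hy.2.1)
  obtain ⟨m₂, hm₂⟩ := hD.exh i _ (hC'.image continuous_snd) (by
    rintro _ ⟨y, hy, rfl⟩; exact hy.2.2)
  obtain ⟨O, hO, hLO, hOY⟩ := hstep (max n (max m₁ m₂))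
  have hxK : x ∈ L (max n (max m₁ m₂)) := hmono (le_max_left _ _) hn
  refine ⟨O ∩ (cl ⁻¹' {i}) ×ˢ (cl ⁻¹' {i}), hO.inter hcl.isOpen, ⟨hLO hxK, hL _ hxK⟩, ?_⟩
  rintro y ⟨⟨hyO, hyi⟩, hyC⟩
  refine mem_iUnion.2 ⟨max n (max m₁ m₂) + 1, hOY ⟨hyO, ?_, ?_⟩⟩
  · exact hD.mono i (((le_max_left m₁ m₂).trans (le_max_right n _)).trans (Nat.le_succ _))
      (hm₁ ⟨y, ⟨hyC, hyi⟩, rfl⟩)
  · exact hD.mono i (((le_max_right m₁ m₂).trans (le_max_right n _)).trans (Nat.le_succ _))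
      (hm₂ ⟨y, ⟨hyC, hyi⟩, rfl⟩)

/-- `H3` implies the same for `X × X` -/
theorem H3.h2 (h : H3 X) (O : Set (X × X)) (hO : KOpen O) : IsOpen O := by
  have key : IsOpen ((fun p : X × X × X => (p.1, p.2.1)) ⁻¹' O) := by
    refine h _ fun K hK => ?_
    have hc : Continuous (fun p : X × X × X => (p.1, p.2.1)) := by fun_prop
    have h1 := hO _ (hK.image hc)
    have hc2 : Continuous (fun p : K => (⟨(p.1.1, p.1.2.1), p.1, p.2, rfl⟩ :
        ((fun p : X × X × X => (p.1, p.2.1)) '' K : Set (X × X)))) := by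
      refine Continuous.subtype_mk (hc.comp continuous_subtype_val) _
    exact h1.preimage hc2
  have hc : Continuous (fun p : X × X => (p.1, p.2, p.2)) := by fun_prop
  exact key.preimage hc

end KR3
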