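import Pool.Agent.KR3.BaseI
import Pool.Agent.KR3.Words

/-!
# KR3.KRc

Passing to functions on FA X. f∘val : A3 X → ℝ is continuous on every compact subset of the subtype (its image in FA X
is compact), so continuous, i.e. f is ContinuousOn (A3 X).
-/

namespace KR3

open Set Filter Topology

universe u v w

variable {X : Type u}

variable [TopologicalSpace X]

theorem kr_cont (hkr : IsKRSpace (A3 X)) (f : FA X → ℝ)
    (hf : ∀ K : Set (FA X), K ⊆ A3 X → IsCompact K → ContinuousOn f K) :
    ContinuousOn f (A3 X) := by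
  rw [continuousOn_iff_continuous_restrict]
  refine hkr.2 _ fun K hK => ?_
  have h1 : IsCompact (Subtype.val '' K : Set (FA X)) := hK.image continuous_subtype_val
  have h2 : (Subtype.val '' K : Set (FA X)) ⊆ A3 X := by
    rintro _ ⟨a, _, rfl⟩
    exact a.2
  exact (hf _ h2 h1).comp continuous_subtype_val.continuousOn (mapsTo_image _ _)

/-- A real function is continuous on the image of a compact set if its composition is. -/
theorem krc_contOn_image {A : Type v} {B : Type w} [TopologicalSpace A] [TopologicalSpace B]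
    [T2Space B] {M : Set A} (hM : IsCompact M) (E : A → B) (hE : Continuous E) (f : B → ℝ)
    (hf : ContinuousOn (fun a => f (E a)) M) : ContinuousOn f (E '' M) := by
  rw [continuousOn_iff_isClosed]
  intro t ht
  obtain ⟨u, hu, hut⟩ := continuousOn_iff_isClosed.1 hf t ht
  have h1 : IsCompact (u ∩ M) := hM.inter_left hu
  refine ⟨E '' (u ∩ M), (h1.image hE).isClosed, ?_⟩
  ext b
  constructor
  · rintro ⟨hb, a, ha, rfl⟩
    have h2 : a ∈ (fun a => f (E a)) ⁻¹' t ∩ M := ⟨hb, ha⟩
    rw [hut] at h2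
    exact ⟨⟨a, h2, rfl⟩, ⟨a, ha, rfl⟩⟩
  · rintro ⟨⟨a, ha, rfl⟩, _⟩
    rw [← hut] at ha
    exact ⟨ha.1, ⟨a, ha.2, rfl⟩⟩

/-- integrality of the degree -/
theorem krc_deg_int (g : FA X) : ∃ n : ℤ, deg g = n := by
  have h : deg g = ∑ x ∈ FA.supp g, (FA.coeff x g : ℝ) * 1 := FA.lift_eq_sum (fun _ => (1 : ℝ)) g
  refine ⟨∑ x ∈ FA.supp g, FA.coeff x g, ?_⟩
  rw [h]
  push_cast
  simp

theorem krc_deg_clopen (m : ℤ) : IsClopen {g : FA X | deg g = m} := by
  refine ⟨isClosed_eq continuous_deg continuous_const, ?_⟩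
  have : {g : FA X | deg g = m} = (deg : FA X → ℝ) ⁻¹' (Metric.ball (m : ℝ) 1) := by
    ext g
    obtain ⟨n, hn⟩ := krc_deg_int g
    simp only [mem_setOf_eq, mem_preimage, Metric.mem_ball, Real.dist_eq, hn]
    constructor
    · intro h
      rw [h, sub_self, abs_zero]
      exact one_pos
    · intro h
      have h1 : |n - m| < 1 := by exact_mod_cast h
      have h2 : n - m = 0 := Int.abs_lt_one_iff.1 h1
      have h3 : n = m := by omega
      rw [h3]
  rw [this]
  exact Metric.isOpen_ball.preimage continuous_deg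

/-- gluing along a clopen set -/
theorem krc_glue {B : Type v} [TopologicalSpace B] {f : B → ℝ} {K D : Set B} (hD : IsClopen D)
    (h1 : ContinuousOn f (K ∩ D)) (h2 : ContinuousOn f (K ∩ Dᶜ)) : ContinuousOn f K := by
  intro g hg
  by_cases h : g ∈ D
  · exact (continuousWithinAt_inter (hD.isOpen.mem_nhds h)).1 (h1 g ⟨hg, h⟩)
  · exact (continuousWithinAt_inter (hD.compl.isOpen.mem_nhds h)).1 (h2 g ⟨hg, h⟩)

end KR3
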