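import Pool.Agent.KR3.BaseI
import Pool.Agent.KR3.Words
import Pool.Agent.KR3.FSum

/-!
# KR3.Sup

Supports of the elements of a compact set K ⊆ FA X lie in a compact set L ⊆ X.
-/

namespace KR3

open Set Filter Topology

universe u v w

variable {X : Type u}

/-- a triangular system -/
private theorem sup_tri (c : ℕ → ℕ → ℝ) (hc : ∀ n, c n n ≠ 0) :
    ∃ α : ℕ → ℝ, ∀ n, ∑ j ∈ Finset.range (n + 1), α j * c j n = n := by
  let F : ℕ → (ℕ → ℝ) := fun n => Nat.rec (fun _ => 0)
    (fun n f => Function.update f n ((n - ∑ j ∈ Finset.range n, f j * c j n) / c n n)) n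
  have hF : ∀ n, F (n + 1) = Function.update (F n) n
      ((n - ∑ j ∈ Finset.range n, F n j * c j n) / c n n) := fun n => rfl
  have hst : ∀ n j, j < n → F n j = F (j + 1) j := by
    intro n j hj
    induction n with
    | zero => exact absurd hj (Nat.not_lt_zero _)
    | succ n ih =>
      rcases Nat.lt_succ_iff_lt_or_eq.1 hj with h | h
      · rw [hF n, Function.update_of_ne h.ne, ih h]
      · rw [h]
  refine ⟨fun j => F (j + 1) j, fun n => ?_⟩
  rw [Finset.sum_range_succ]
  have h1 : ∑ j ∈ Finset.range n, F (j + 1) j * c j n = ∑ j ∈ Finset.range n, F n j * c j n :=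
    Finset.sum_congr rfl fun j hj => by rw [hst n j (Finset.mem_range.1 hj)]
  show ∑ j ∈ Finset.range n, F (j + 1) j * c j n + F (n + 1) n * c n n = n
  rw [h1, hF n, Function.update_self, div_mul_cancel₀ _ (hc n)]
  ring

variable [TopologicalSpace X]

theorem sup (hX : Base X) (K : Set (FA X)) (hK : IsCompact K) :
    ∃ L : Set X, IsCompact L ∧ ∀ g ∈ K, ∀ x, FA.coeff x g ≠ 0 → x ∈ L := by
  classical
  have ht : T35Space X := hX.t35
  set S : Set X := {x | ∃ g ∈ K, FA.coeff x g ≠ 0} with hS
  by_cases hc : IsCompact (closure S)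
  · exact ⟨closure S, hc, fun g hg x hx => subset_closure ⟨g, hg, hx⟩⟩
  exfalso
  obtain ⟨a, ha, hcd, haS⟩ := hX.exists_seq_of_noncompact hc
  obtain ⟨O, hO, hdisc⟩ := hX.expand ha hcd
  choose g hgK hg0 using haS
  -- subsequence
  have hN : ∀ j, ∃ N, ∀ n ≥ N, a n ∉ FA.supp (g j) := by
    intro j
    have hfin : {n | a n ∈ FA.supp (g j)}.Finite :=
      (Finset.finite_toSet (FA.supp (g j))).preimage ha.injOn
    obtain ⟨N, hN⟩ := hfin.bddAbove
    refine ⟨N + 1, fun n hn hmem => ?_⟩
    have := hN hmem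
    omega
  choose N hN using hN
  let M : ℕ → ℕ := fun m => (∑ i ∈ Finset.range (m + 1), N i) + m + 1
  have hM1 : ∀ m, m < M m := fun m => by
    show m < (∑ i ∈ Finset.range (m + 1), N i) + m + 1
    omega
  have hM2 : ∀ m, N m ≤ M m := fun m => by
    have : N m ≤ ∑ i ∈ Finset.range (m + 1), N i :=
      Finset.single_le_sum (fun i _ => Nat.zero_le _) (Finset.self_mem_range_succ m)
    show N m ≤ (∑ i ∈ Finset.range (m + 1), N i) + m + 1
    omega
  let h : ℕ → ℕ := fun k => M^[k] 0
  have hh : ∀ k, h (k + 1) = M (h k) := fun k => Function.iterate_succ_apply' M k 0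
  have hmono : StrictMono h := strictMono_nat_of_lt_succ fun k => by
    rw [hh k]
    exact hM1 _
  set b : ℕ → X := fun k => a (h k) with hb
  set G : ℕ → FA X := fun k => g (h k) with hG
  have hbinj : Function.Injective b := ha.comp hmono.injective
  have hbG : ∀ j k, j < k → b k ∉ FA.supp (G j) := by
    intro j k hjk
    apply hN
    have h1 : h (j + 1) ≤ h k := hmono.monotone hjk
    have h2 := hM2 (h j)
    rw [hh j] at h1
    exact h2.trans h1
  have hG0 : ∀ k, FA.coeff (b k) (G k) ≠ 0 := fun k => hg0 (h k)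
  -- bump functions
  let T : ℕ → Finset X := fun k => ((Finset.range (k + 1)).biUnion fun j => FA.supp (G j)).erase (b k)
  have hT : ∀ k, IsOpen (O (h k) ∩ ((T k : Finset X) : Set X)ᶜ) := fun k =>
    (hO (h k)).1.inter (Finset.finite_toSet _).isClosed.isOpen_compl
  have hbT : ∀ k, b k ∈ O (h k) ∩ ((T k : Finset X) : Set X)ᶜ := fun k =>
    ⟨(hO (h k)).2, by simp [T]⟩
  choose φ hφc _ _ hφ1 hφ0 using fun k => bump (b k) _ (hT k) (hbT k)
  have hφT : ∀ k n x, n ≤ k → x ∈ FA.supp (G n) → x ≠ b k → φ k x = 0 := by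
    intro k n x hn hx hne
    apply hφ0
    rintro ⟨_, h2⟩
    apply h2
    simp only [T, Finset.coe_erase, mem_diff, Finset.mem_coe, Finset.mem_biUnion,
      Finset.mem_range, mem_singleton_iff]
    exact ⟨⟨n, by omega, hx⟩, hne⟩
  have hφG : ∀ k n x, n < k → x ∈ FA.supp (G n) → φ k x = 0 := by
    intro k n x hn hx
    apply hφT k n x hn.le hx
    rintro rfl
    exact hbG n k hn hx
  obtain ⟨α, hα⟩ := sup_tri (fun j n => FA.lift (φ j) (G n)) (by
    intro n
    have h1 : FA.lift (φ n) (G n) = (FA.coeff (b n) (G n) : ℝ) := by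
      rw [FA.lift_eq_sum, Finset.sum_eq_single (b n)]
      · rw [hφ1, mul_one]
      · intro x hx hne
        rw [hφT n n x le_rfl hx hne, mul_zero]
      · intro hn
        exact absurd (FA.mem_supp.2 (hG0 n)) hn
    show FA.lift (φ n) (G n) ≠ 0
    rw [h1]
    exact_mod_cast hG0 n)
  have hdisc' : DiscFam (fun k => O (h k)) := by
    intro x
    obtain ⟨U, hU, hU'⟩ := hdisc x
    exact ⟨U, hU, fun i j hi hj => hmono.injective (hU' _ _ hi hj)⟩
  have hcont : Continuous (fun x => ∑ᶠ k, α k * φ k x) := by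
    apply continuous_finsum_disc (fun k x => α k * φ k x)
      (fun k => continuous_const.mul (hφc k)) (fun k => O (h k)) hdisc'
    intro k x hx
    rw [hφ0 k x (fun h1 => hx h1.1), mul_zero]
  have hval : ∀ n, FA.lift (fun x => ∑ᶠ k, α k * φ k x) (G n) = n := by
    intro n
    rw [← hα n, FA.lift_eq_sum]
    have h1 : ∀ x ∈ FA.supp (G n), ∑ᶠ k, α k * φ k x =
        ∑ k ∈ Finset.range (n + 1), α k * φ k x := by
      intro x hx
      apply finsum_eq_sum_of_support_subset
      intro k hk
      simp only [Function.mem_support] at hk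
      simp only [Finset.coe_range, mem_Iio]
      by_contra hcon
      exact hk (by rw [hφG k n x (by omega) hx, mul_zero])
    rw [Finset.sum_congr rfl fun x hx => by rw [h1 x hx]]
    simp_rw [Finset.mul_sum]
    rw [Finset.sum_comm]
    refine Finset.sum_congr rfl fun k _ => ?_
    rw [FA.lift_eq_sum, Finset.mul_sum]
    refine Finset.sum_congr rfl fun x _ => ?_
    ring
  have hlc := FA.continuous_lift _ hcont
  obtain ⟨B, hB⟩ := hK.exists_bound_of_continuousOn (f := FA.lift fun x => ∑ᶠ k, α k * φ k x)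
    hlc.continuousOn
  obtain ⟨n, hn⟩ := exists_nat_gt B
  have h1 := hB (G n) (hgK _)
  rw [hval n, Real.norm_of_nonneg (Nat.cast_nonneg n)] at h1
  linarith

end KR3
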