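import Pool.Agent.KR3.KRc
import Pool.Agent.KR3.Sup

/-!
# KR3.Neg2
-/

namespace KR3

open Set Filter Topology

universe u v w

variable {X : Type u}

open Classical in
/-- the function on words `x + y` -/
private noncomputable def neg2f (Ψ : X → X → ℝ) (g : FA X) : ℝ :=
  if h : ∃ p : X × X, g = FA.of p.1 + FA.of p.2 then Ψ h.choose.1 h.choose.2 else 0

private theorem neg2f_word (Ψ : X → X → ℝ) (hs : ∀ x y, Ψ x y = Ψ y x) (x y : X) :
    neg2f Ψ (FA.of x + FA.of y) = Ψ x y := by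
  have h : ∃ p : X × X, FA.of x + FA.of y = FA.of p.1 + FA.of p.2 := ⟨(x, y), rfl⟩
  unfold neg2f
  rw [dif_pos h]
  rcases word_eq2 h.choose_spec with h3 | h3
  · rw [← h3.1, ← h3.2]
  · rw [← h3.1, ← h3.2, hs]

variable [TopologicalSpace X]

private theorem neg2_words (K : Set (FA X)) (hKA : K ⊆ A3 X) (L : Set X)
    (hL : ∀ g ∈ K, ∀ x, FA.coeff x g ≠ 0 → x ∈ L) (g : FA X) (hg : g ∈ K) (hd : deg g = 2) :
    ∃ p ∈ L ×ˢ L, FA.of p.1 + FA.of p.2 = g := by
  rcases A3_cases (hKA hg) with ⟨x, y, z, h⟩ | ⟨x, y, h⟩ | ⟨x, y, z, h⟩ | ⟨x, y, h⟩ |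
    ⟨x, y, z, h⟩ | ⟨x, y, h⟩ | ⟨x, y, z, h⟩
  · exfalso
    rw [h] at hd
    simp only [map_add, deg_of] at hd
    norm_num at hd
  · obtain ⟨h1, h2⟩ := coeff_word2 x y
    rw [← h] at h1 h2
    exact ⟨(x, y), ⟨hL g hg x h1, hL g hg y h2⟩, h.symm⟩
  · exfalso
    rw [h] at hd
    simp only [map_add, map_sub, deg_of] at hd
    norm_num at hd
  · exfalso
    rw [h] at hd
    simp only [map_sub, deg_of] at hd
    norm_num at hd
  · exfalso
    have h1 := congrArg deg h
    simp only [map_neg, map_add, map_sub, deg_of] at h1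
    rw [hd] at h1
    norm_num at h1
  · exfalso
    have h1 := congrArg deg h
    simp only [map_neg, map_add, deg_of] at h1
    rw [hd] at h1
    norm_num at h1
  · exfalso
    have h1 := congrArg deg h
    simp only [map_neg, map_add, deg_of] at h1
    rw [hd] at h1
    norm_num at h1

theorem neg2 (hX : Base X) (hkr : IsKRSpace (A3 X)) (Ψ : X → X → ℝ)
    (hc : ∀ L : Set X, IsCompact L → ContinuousOn (fun p : X × X => Ψ p.1 p.2) (L ×ˢ L))
    (hs : ∀ x y, Ψ x y = Ψ y x) : Continuous (fun p : X × X => Ψ p.1 p.2) := by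
  have ht35 : T35Space X := hX.t35
  have ht2 : T2Space (FA X) := FA.t2
  have hw := neg2f_word Ψ hs
  have hE : Continuous (fun p : X × X => FA.of p.1 + FA.of p.2) := by
    have h1 := FA.continuous_of (X := X)
    fun_prop
  have hcont : ContinuousOn (neg2f Ψ) (A3 X) := by
    apply kr_cont hkr
    intro K hKA hK
    obtain ⟨L, hLc, hL⟩ := sup hX K hK
    have hcl := krc_deg_clopen (X := X) 2
    refine krc_glue hcl ?_ ?_
    · refine (krc_contOn_image (hLc.prod hLc) _ hE (neg2f Ψ) ?_).mono ?_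
      · simp only [hw]
        exact hc L hLc
      · rintro g ⟨hg, hd⟩
        obtain ⟨p, hp, hpg⟩ := neg2_words K hKA L hL g hg (by simpa using hd)
        exact ⟨p, hp, hpg⟩
    · refine continuousOn_const.congr (f := fun _ => (0 : ℝ)) ?_
      rintro g ⟨hg, hd⟩
      unfold neg2f
      rw [dif_neg]
      rintro ⟨p, hp⟩
      apply hd
      show deg g = ((2 : ℤ) : ℝ)
      rw [hp]
      simp only [map_add, deg_of]
      norm_num
  have h1 : Continuous (fun p : X × X => neg2f Ψ (FA.of p.1 + FA.of p.2)) :=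
    hcont.comp_continuous hE fun p => mem_A3_pp _ _
  simpa only [hw] using h1

end KR3
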