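import Pool.Agent.KR3.Neg2
import Pool.Agent.KR3.FSum

/-!
# KR3.Neg2S

Bumps u i supported in A i, u i (a i) = 1; v i supported in B i, v i (b i) = 1.
Ψ x y = ∑ᶠ i, (u i x * v i y + v i x * u i y): finite on L² by hfin, symmetric. neg2: Ψ continuous on X × X.
Ψ = 0 on C1 × C2 by h12; generalized tube lemma for the compact C1 × C2 inside the open set {Ψ < 1}
(`generalized_tube_lemma`): open V1 ⊇ C1, V2 ⊇ C2 with Ψ < 1 on V1 × V2. But Ψ (a i) (b i) ≥ 1.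
-/

namespace KR3

open Set Filter Topology

universe u v w

variable {X : Type u}

variable [TopologicalSpace X]

theorem neg2S (hX : Base X) (hkr : IsKRSpace (A3 X)) {ι : Type v} (a b : ι → X)
    (A B : ι → Set X) (hA : ∀ i, IsOpen (A i) ∧ a i ∈ A i) (hB : ∀ i, IsOpen (B i) ∧ b i ∈ B i)
    (hfin : ∀ L : Set X, IsCompact L → {i | (A i ∩ L).Nonempty ∧ (B i ∩ L).Nonempty}.Finite)
    (C1 C2 : Set X) (hC1 : IsCompact C1) (hC2 : IsCompact C2)
    (h12 : ∀ i, ¬ ((A i ∩ C1).Nonempty ∧ (B i ∩ C2).Nonempty) ∧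
      ¬ ((B i ∩ C1).Nonempty ∧ (A i ∩ C2).Nonempty)) :
    ∃ V1 V2 : Set X, IsOpen V1 ∧ C1 ⊆ V1 ∧ IsOpen V2 ∧ C2 ⊆ V2 ∧
      ∀ i, a i ∈ V1 → b i ∉ V2 := by
  have : T4Space X := hX.t4
  choose U hUc hU0 hU1 hUa hUs using fun i => bump (a i) (A i) (hA i).1 (hA i).2
  choose W hWc hW0 hW1 hWb hWs using fun i => bump (b i) (B i) (hB i).1 (hB i).2
  set F : ι → X × X → ℝ := fun i p => U i p.1 * W i p.2 + W i p.1 * U i p.2 with hF
  have hUm : ∀ i x, U i x ≠ 0 → x ∈ A i := fun i x h => by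
    by_contra hx; exact h (hUs i x hx)
  have hWm : ∀ i x, W i x ≠ 0 → x ∈ B i := fun i x h => by
    by_contra hx; exact h (hWs i x hx)
  have hFne : ∀ i p, F i p ≠ 0 → (p.1 ∈ A i ∧ p.2 ∈ B i) ∨ (p.1 ∈ B i ∧ p.2 ∈ A i) := by
    intro i p h
    by_contra hcon
    rw [not_or] at hcon
    apply h
    have h1 : U i p.1 * W i p.2 = 0 := by
      by_contra h1
      exact hcon.1 ⟨hUm i _ (left_ne_zero_of_mul h1), hWm i _ (right_ne_zero_of_mul h1)⟩
    have h2 : W i p.1 * U i p.2 = 0 := by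
      by_contra h2
      exact hcon.2 ⟨hWm i _ (left_ne_zero_of_mul h2), hUm i _ (right_ne_zero_of_mul h2)⟩
    simp only [hF, h1, h2, add_zero]
  have hFc : ∀ i, Continuous (F i) := fun i => by
    have h1 := hUc i
    have h2 := hWc i
    simp only [hF]
    fun_prop
  have hFfin : ∀ L : Set X, IsCompact L → {i | ∃ z ∈ L ×ˢ L, F i z ≠ 0}.Finite := by
    intro L hL
    refine (hfin L hL).subset ?_
    rintro i ⟨z, hz, hne⟩
    rcases hFne i z hne with h | h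
    · exact ⟨⟨z.1, h.1, hz.1⟩, ⟨z.2, h.2, hz.2⟩⟩
    · exact ⟨⟨z.2, h.2, hz.2⟩, ⟨z.1, h.1, hz.1⟩⟩
  have hcont : Continuous (fun p : X × X => ∑ᶠ i, F i p) := by
    refine neg2 hX hkr (fun x y => ∑ᶠ i, F i (x, y)) ?_ ?_
    · intro L hL
      exact contOn_finsum F hFc (L ×ˢ L) (hFfin L hL)
    · intro x y
      refine finsum_congr fun i => ?_
      simp only [hF]; ring
  have hopen : IsOpen {p : X × X | ∑ᶠ i, F i p < 1} := isOpen_lt hcont continuous_const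
  have hsub : C1 ×ˢ C2 ⊆ {p : X × X | ∑ᶠ i, F i p < 1} := by
    rintro p ⟨hp1, hp2⟩
    have : ∑ᶠ i, F i p = 0 := by
      rw [← finsum_zero (α := ι) (M := ℝ)]
      refine finsum_congr fun i => ?_
      by_contra hne
      rcases hFne i p hne with h | h
      · exact (h12 i).1 ⟨⟨p.1, h.1, hp1⟩, ⟨p.2, h.2, hp2⟩⟩
      · exact (h12 i).2 ⟨⟨p.1, h.1, hp1⟩, ⟨p.2, h.2, hp2⟩⟩
    change ∑ᶠ i, F i p < 1
    rw [this]; norm_num
  obtain ⟨V1, V2, hV1, hV2, h1, h2, h3⟩ := generalized_tube_lemma hC1 hC2 hopen hsub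
  refine ⟨V1, V2, hV1, h1, hV2, h2, fun i hi1 hi2 => ?_⟩
  have hlt : ∑ᶠ j, F j (a i, b i) < 1 := h3 (show (a i, b i) ∈ V1 ×ˢ V2 from ⟨hi1, hi2⟩)
  have hle : F i (a i, b i) ≤ ∑ᶠ j, F j (a i, b i) := by
    refine le_finsum (fun j => F j (a i, b i)) (fun j => ?_) ?_ i
    · simp only [hF]
      have e1 := hU0 j (a i)
      have e2 := hU0 j (b i)
      have e3 := hW0 j (a i)
      have e4 := hW0 j (b i)
      positivity
    · refine (hFfin {a i, b i} ((Set.toFinite _).isCompact)).subset ?_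
      intro j hj
      exact ⟨(a i, b i), ⟨by simp, by simp⟩, hj⟩
  have hge : 1 ≤ F i (a i, b i) := by
    simp only [hF, hUa, hWb]
    have e1 := hU0 i (b i)
    have e2 := hW0 i (a i)
    nlinarith [mul_nonneg e2 e1]
  linarith

end KR3
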