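import Pool.Agent.KR3.KRc
import Pool.Agent.KR3.Sup

/-!
# KR3.Neg3
-/

namespace KR3

open Set Filter Topology

universe u v w

variable {X : Type u}

open Classical in
/-- the function on words `x + y - z` -/
private noncomputable def neg3f (Ψ : X → X → X → ℝ) (g : FA X) : ℝ :=
  if h : ∃ p : X × X × X, g = FA.of p.1 + FA.of p.2.1 - FA.of p.2.2 then
    Ψ h.choose.1 h.choose.2.1 h.choose.2.2 else 0

private theorem neg3f_word (Ψ : X → X → X → ℝ) (hs : ∀ x y z, Ψ x y z = Ψ y x z)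
    (h0 : ∀ x y, Ψ x y y = 0) (x y z : X) :
    neg3f Ψ (FA.of x + FA.of y - FA.of z) = Ψ x y z := by
  have h : ∃ p : X × X × X, FA.of x + FA.of y - FA.of z =
      FA.of p.1 + FA.of p.2.1 - FA.of p.2.2 := ⟨(x, y, z), rfl⟩
  unfold neg3f
  rw [dif_pos h]
  have h1 := h.choose_spec
  have hz : ∀ x y z : X, (z = x ∨ z = y) → Ψ x y z = 0 := by
    rintro x y z (rfl | rfl)
    · rw [hs]
      exact h0 _ _
    · exact h0 _ _
  rcases word_eq3 h1 with ⟨h2, h3 | h3⟩ | ⟨h2, h3⟩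
  · rw [← h2, ← h3.1, ← h3.2]
  · rw [← h2, ← h3.1, ← h3.2, hs]
  · rw [hz _ _ _ h2, hz _ _ _ h3]

variable [TopologicalSpace X]

private theorem neg3_words (K : Set (FA X)) (hKA : K ⊆ A3 X) (L : Set X)
    (hL : ∀ g ∈ K, ∀ x, FA.coeff x g ≠ 0 → x ∈ L) (g : FA X) (hg : g ∈ K) (hd : deg g = 1) :
    ∃ p ∈ L ×ˢ L ×ˢ L, FA.of p.1 + FA.of p.2.1 - FA.of p.2.2 = g := by
  classical
  have hone : ∀ x, g = FA.of x → ∃ p ∈ L ×ˢ L ×ˢ L,
      FA.of p.1 + FA.of p.2.1 - FA.of p.2.2 = g := by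
    intro x hx
    have hxL : x ∈ L := by
      apply hL g hg
      rw [hx, FA.coeff_of, if_pos rfl]
      exact one_ne_zero
    refine ⟨(x, x, x), ⟨hxL, hxL, hxL⟩, ?_⟩
    rw [hx]
    exact add_sub_cancel_right _ _
  rcases A3_cases (hKA hg) with ⟨x, y, z, h⟩ | ⟨x, y, h⟩ | ⟨x, y, z, h⟩ | ⟨x, y, h⟩ |
    ⟨x, y, z, h⟩ | ⟨x, y, h⟩ | ⟨x, y, z, h⟩
  · exfalso
    rw [h] at hd
    simp only [map_add, deg_of] at hd
    norm_num at hd
  · exfalso
    rw [h] at hd
    simp only [map_add, deg_of] at hd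
    norm_num at hd
  · by_cases hx : z = x
    · apply hone y
      rw [h, hx]
      exact add_sub_cancel_left _ _
    by_cases hy : z = y
    · apply hone x
      rw [h, hy]
      exact add_sub_cancel_right _ _
    obtain ⟨h1, h2, h3⟩ := coeff_word3 hx hy
    rw [← h] at h1 h2 h3
    exact ⟨(x, y, z), ⟨hL g hg x h1, hL g hg y h2, hL g hg z h3⟩, h.symm⟩
  · exfalso
    rw [h] at hd
    simp only [map_sub, deg_of] at hd
    norm_num at hd
  · exfalso
    have h1 := congrArg deg h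
    simp only [map_neg, map_add, map_sub, deg_of] at h1
    rw [hd] at h1
    norm_num at h1
  · exfalso
    have h1 := congrArg deg h
    simp only [map_neg, map_add, deg_of] at h1
    rw [hd] at h1
    norm_num at h1
  · exfalso
    have h1 := congrArg deg h
    simp only [map_neg, map_add, deg_of] at h1
    rw [hd] at h1
    norm_num at h1

theorem neg3 (hX : Base X) (hkr : IsKRSpace (A3 X)) (Ψ : X → X → X → ℝ)
    (hc : ∀ L : Set X, IsCompact L →
      ContinuousOn (fun p : X × X × X => Ψ p.1 p.2.1 p.2.2) (L ×ˢ L ×ˢ L))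
    (hs : ∀ x y z, Ψ x y z = Ψ y x z) (h0 : ∀ x y, Ψ x y y = 0) (C : Set X) (hC : IsCompact C) :
    ∃ V : Set X, IsOpen V ∧ C ⊆ V ∧ ∃ W ∈ 𝓝 (0 : FA X),
      ∀ v ∈ V, ∀ x z, FA.of x - FA.of z ∈ W → Ψ v x z < 1 := by
  have ht35 : T35Space X := hX.t35
  have ht2 : T2Space (FA X) := FA.t2
  have hw := neg3f_word Ψ hs h0
  have hcont : ContinuousOn (neg3f Ψ) (A3 X) := by
    apply kr_cont hkr
    intro K hKA hK
    obtain ⟨L, hLc, hL⟩ := sup hX K hK
    have hcl := krc_deg_clopen (X := X) 1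
    refine krc_glue hcl ?_ ?_
    · have hE : Continuous (fun p : X × X × X => FA.of p.1 + FA.of p.2.1 - FA.of p.2.2) := by
        have h1 := FA.continuous_of (X := X)
        fun_prop
      refine (krc_contOn_image (hLc.prod (hLc.prod hLc)) _ hE (neg3f Ψ) ?_).mono ?_
      · simp only [hw]
        exact hc L hLc
      · rintro g ⟨hg, hd⟩
        obtain ⟨p, hp, hpg⟩ := neg3_words K hKA L hL g hg (by simpa using hd)
        exact ⟨p, hp, hpg⟩
    · refine continuousOn_const.congr (f := fun _ => (0 : ℝ)) ?_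
      rintro g ⟨hg, hd⟩
      unfold neg3f
      rw [dif_neg]
      rintro ⟨p, hp⟩
      apply hd
      show deg g = ((1 : ℤ) : ℝ)
      rw [hp]
      simp only [map_add, map_sub, deg_of]
      norm_num
  obtain ⟨Q, hQ, hQ'⟩ := (continuousOn_iff'.1 hcont) (Iio 1) isOpen_Iio
  have hn : IsOpen ((fun p : X × FA X => FA.of p.1 + p.2) ⁻¹' Q) := by
    apply hQ.preimage
    have h1 := FA.continuous_of (X := X)
    fun_prop
  have hCn : C ×ˢ ({0} : Set (FA X)) ⊆ (fun p : X × FA X => FA.of p.1 + p.2) ⁻¹' Q := by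
    rintro ⟨c, w⟩ ⟨hcC, hw0⟩
    have hw0' : w = 0 := hw0
    subst hw0'
    show FA.of c + 0 ∈ Q
    rw [add_zero]
    have e : FA.of c = FA.of c + FA.of c - FA.of c := (add_sub_cancel_right _ _).symm
    have h1 : FA.of c ∈ neg3f Ψ ⁻¹' Iio 1 ∩ A3 X := by
      constructor
      · show neg3f Ψ (FA.of c) < 1
        rw [e, hw, h0]
        exact one_pos
      · rw [e]
        exact mem_A3_ppm _ _ _
    rw [hQ'] at h1
    exact h1.1
  obtain ⟨V, W, hV, hW, hCV, h0W, hVW⟩ := generalized_tube_lemma hC isCompact_singleton hn hCn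
  refine ⟨V, hV, hCV, W, hW.mem_nhds (h0W rfl), fun v hv x z hxz => ?_⟩
  have h1 : FA.of v + (FA.of x - FA.of z) ∈ Q := hVW (mk_mem_prod hv hxz)
  rw [← add_sub_assoc] at h1
  have h2 : FA.of v + FA.of x - FA.of z ∈ neg3f Ψ ⁻¹' Iio 1 ∩ A3 X := by
    rw [hQ']
    exact ⟨h1, mem_A3_ppm _ _ _⟩
  have h3 : neg3f Ψ (FA.of v + FA.of x - FA.of z) < 1 := h2.1
  rwa [hw] at h3

end KR3
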