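import Pool.Agent.KR3.Neg3
import Pool.Agent.KR3.FSum

/-!
# KR3.Neg3S

Shrink: for each i choose disjoint open sets separating: let Q' i ∋ q i, A' i ∋ a i, B' i ∋ x i open subsets of Q i, A i, B i
with A' i ∩ Q' i = ∅ and B' i ∩ Q' i = ∅ (T2). Bumps u i (support A' i), v i (support B' i), w i (support Q' i) (value 1 at
the points). Ψ x y z = ∑ᶠ i, (u i x * v i y + u i y * v i x) * w i z. On L³ only the finitely many i of `hfin` contribute
(contOn_finsum with Z = X × X × X). Symmetric; Ψ x y y = 0 since v i y * w i y = 0 and u i y * w i y = 0. Apply neg3.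
If a i ∈ V and of (x i) - of (q i) ∈ W then Ψ (a i) (x i) (q i) < 1, but the i-th term is ≥ 1 (le_finsum).
-/

namespace KR3

open Set Filter Topology

universe u v w

variable {X : Type u}

variable [TopologicalSpace X]

private theorem neg3S_shrink [T2Space X] {a x q : X} {A B Q : Set X} (hA : IsOpen A ∧ a ∈ A)
    (hB : IsOpen B ∧ x ∈ B) (hQ : IsOpen Q ∧ q ∈ Q) (haq : a ≠ q) (hxq : x ≠ q) :
    ∃ A' B' Q' : Set X, (IsOpen A' ∧ a ∈ A' ∧ A' ⊆ A) ∧ (IsOpen B' ∧ x ∈ B') ∧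
      (IsOpen Q' ∧ q ∈ Q' ∧ Q' ⊆ Q) ∧ (∀ y, y ∈ A' → y ∉ Q') ∧ (∀ y, y ∈ B' → y ∉ Q') := by
  obtain ⟨U1, V1, hU1, hV1, ha1, hq1, hd1⟩ := t2_separation haq
  obtain ⟨U2, V2, hU2, hV2, hx2, hq2, hd2⟩ := t2_separation hxq
  refine ⟨A ∩ U1, B ∩ U2, Q ∩ (V1 ∩ V2), ⟨hA.1.inter hU1, ⟨hA.2, ha1⟩, inter_subset_left⟩,
    ⟨hB.1.inter hU2, hB.2, hx2⟩, ⟨hQ.1.inter (hV1.inter hV2), ⟨hQ.2, hq1, hq2⟩, inter_subset_left⟩,
    ?_, ?_⟩
  · rintro y ⟨-, hy⟩ ⟨-, hy1, -⟩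
    exact Set.disjoint_left.1 hd1 hy hy1
  · rintro y ⟨-, hy⟩ ⟨-, -, hy2⟩
    exact Set.disjoint_left.1 hd2 hy hy2

theorem neg3S (hX : Base X) (hkr : IsKRSpace (A3 X)) {ι : Type v} (a x q : ι → X)
    (A B Q : ι → Set X) (hA : ∀ i, IsOpen (A i) ∧ a i ∈ A i) (hB : ∀ i, IsOpen (B i) ∧ x i ∈ B i)
    (hQ : ∀ i, IsOpen (Q i) ∧ q i ∈ Q i) (haq : ∀ i, a i ≠ q i) (hxq : ∀ i, x i ≠ q i)
    (hfin : ∀ L : Set X, IsCompact L →
      {i | (A i ∩ L).Nonempty ∧ (Q i ∩ L).Nonempty}.Finite)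
    (C : Set X) (hC : IsCompact C) :
    ∃ V : Set X, IsOpen V ∧ C ⊆ V ∧ ∃ W ∈ 𝓝 (0 : FA X),
      ∀ i, a i ∈ V → FA.of (x i) - FA.of (q i) ∉ W := by
  have : T4Space X := hX.t4
  choose A' B' Q' hA' hB' hQ' hAQ hBQ using
    fun i => neg3S_shrink (hA i) (hB i) (hQ i) (haq i) (hxq i)
  choose U hUc hU0 hU1 hUa hUs using fun i => bump (a i) (A' i) (hA' i).1 (hA' i).2.1
  choose V hVc hV0 hV1 hVa hVs using fun i => bump (x i) (B' i) (hB' i).1 (hB' i).2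
  choose W hWc hW0 hW1 hWa hWs using fun i => bump (q i) (Q' i) (hQ' i).1 (hQ' i).2.1
  have hUm : ∀ i y, U i y ≠ 0 → y ∈ A' i := fun i y h => by
    by_contra hy; exact h (hUs i y hy)
  have hVm : ∀ i y, V i y ≠ 0 → y ∈ B' i := fun i y h => by
    by_contra hy; exact h (hVs i y hy)
  have hWm : ∀ i y, W i y ≠ 0 → y ∈ Q' i := fun i y h => by
    by_contra hy; exact h (hWs i y hy)
  set F : ι → X × X × X → ℝ :=
    fun i p => (U i p.1 * V i p.2.1 + U i p.2.1 * V i p.1) * W i p.2.2 with hF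
  have hFc : ∀ i, Continuous (F i) := fun i => by
    have h1 := hUc i
    have h2 := hVc i
    have h3 := hWc i
    simp only [hF]
    fun_prop
  have hF0 : ∀ i p, 0 ≤ F i p := fun i p => by
    simp only [hF]
    have e1 := hU0 i p.1
    have e2 := hU0 i p.2.1
    have e3 := hV0 i p.1
    have e4 := hV0 i p.2.1
    have e5 := hW0 i p.2.2
    positivity
  have hFne : ∀ i p, F i p ≠ 0 → (p.1 ∈ A' i ∨ p.2.1 ∈ A' i) ∧ p.2.2 ∈ Q' i := by
    intro i p h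
    refine ⟨?_, hWm i _ (right_ne_zero_of_mul h)⟩
    by_contra hcon
    rw [not_or] at hcon
    apply left_ne_zero_of_mul h
    rw [hUs i _ hcon.1, hUs i _ hcon.2]
    ring
  have hFfin : ∀ L : Set X, IsCompact L → {i | ∃ z ∈ L ×ˢ L ×ˢ L, F i z ≠ 0}.Finite := by
    intro L hL
    refine (hfin L hL).subset ?_
    rintro i ⟨z, hz, hne⟩
    obtain ⟨h1, h2⟩ := hFne i z hne
    refine ⟨?_, ⟨z.2.2, (hQ' i).2.2 h2, hz.2.2⟩⟩
    rcases h1 with h1 | h1
    · exact ⟨z.1, (hA' i).2.2 h1, hz.1⟩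
    · exact ⟨z.2.1, (hA' i).2.2 h1, hz.2.1⟩
  obtain ⟨O, hO, hCO, N, hN, hlt⟩ := neg3 hX hkr (fun y z t => ∑ᶠ i, F i (y, z, t))
    (fun L hL => contOn_finsum F hFc (L ×ˢ L ×ˢ L) (hFfin L hL))
    (fun y z t => finsum_congr fun i => by simp only [hF]; ring)
    (fun y z => by
      rw [← finsum_zero (α := ι) (M := ℝ)]
      refine finsum_congr fun i => ?_
      by_contra hne
      have h1 : W i z ≠ 0 := right_ne_zero_of_mul hne
      have hzQ := hWm i z h1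
      have h2 : V i z = 0 := by
        by_contra h2; exact hBQ i z (hVm i z h2) hzQ
      have h3 : U i z = 0 := by
        by_contra h3; exact hAQ i z (hUm i z h3) hzQ
      apply hne
      simp only [hF, h2, h3]
      ring) C hC
  refine ⟨O, hO, hCO, N, hN, fun i hi hmem => ?_⟩
  have h1 := hlt (a i) hi (x i) (q i) hmem
  have h2 : F i (a i, x i, q i) ≤ ∑ᶠ j, F j (a i, x i, q i) := by
    refine le_finsum (fun j => F j (a i, x i, q i)) (fun j => hF0 j _) ?_ i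
    refine (hFfin {a i, x i, q i} ((Set.toFinite _).isCompact)).subset ?_
    intro j hj
    exact ⟨(a i, x i, q i), ⟨by simp, by simp, by simp⟩, hj⟩
  have h3 : 1 ≤ F i (a i, x i, q i) := by
    simp only [hF, hUa, hVa, hWa]
    have e1 := hU0 i (x i)
    have e2 := hV0 i (a i)
    nlinarith [mul_nonneg e1 e2]
  linarith

end KR3
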