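import Pool.Agent.KR3.Neg3S
import Pool.Agent.KR3.CM

/-!
# KR3.NegA

(A) Let K, a be the M-configuration, G n ∋ q n a discrete open expansion (Base.expand), for each n a discrete open
expansion U n m ∋ a n m (m ∈ ℕ). seq_noniso: y n m → q n, y n m ≠ q n. Index set ι = {p : ℕ × ℕ | a p.1 p.2 ≠ q p.1}.
Apply neg3S with points a n m, y n m, q n, open sets U n m, univ, G n and C = K. hfin: L meets finitely many G n
(DiscFam.finite_compact), and for each such n finitely many U n m.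
We get V ⊇ K open, W ∈ 𝓝 0. Take n with a n m ∈ V for all m. of (y n m) - of (q n) → 0 (continuity), so for all large m it is
in W; and a n m ≠ q n for all but at most one m: contradiction.
-/

namespace KR3

open Set Filter Topology

universe u v w

variable {X : Type u}

variable [TopologicalSpace X]

theorem negA_lim {y : ℕ → X} {q : X} (h : Tendsto y atTop (𝓝 q)) :
    Tendsto (fun m => FA.of (y m) - FA.of q) atTop (𝓝 (0 : FA X)) := by
  have h1 : Tendsto (fun m => FA.of (y m)) atTop (𝓝 (FA.of q)) :=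
    (FA.continuous_of.tendsto q).comp h
  have h2 := h1.sub (tendsto_const_nhds (x := FA.of q))
  rwa [sub_self] at h2

theorem negA (hX : Base X) (hkr : IsKRSpace (A3 X)) (hM : HasM X) (q : ℕ → X)
    (hq : Function.Injective q) (hcd : CD (range q)) (hni : ∀ n, ¬ IsOpen ({q n} : Set X)) :
    False := by
  classical
  obtain ⟨K, a, hK, hinj, hacd, hconv⟩ := hM
  obtain ⟨G, hG, hGd⟩ := hX.expand hq hcd
  have hU : ∀ n, ∃ O : ℕ → Set X, (∀ i, IsOpen (O i) ∧ a n i ∈ O i) ∧ DiscFam O :=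
    fun n => hX.expand (hinj n) (hacd n)
  choose U hUo hUd using hU
  have hy : ∀ n, ∃ y : ℕ → X, (∀ m, y m ≠ q n) ∧ Tendsto y atTop (𝓝 (q n)) :=
    fun n => hX.seq_noniso (q n) (hni n)
  choose y hyne hylim using hy
  have hfin : ∀ L : Set X, IsCompact L →
      {p : {p : ℕ × ℕ // a p.1 p.2 ≠ q p.1} |
        (U p.1.1 p.1.2 ∩ L).Nonempty ∧ (G p.1.1 ∩ L).Nonempty}.Finite := by
    intro L hL
    have h1 := hGd.finite_compact hL
    have h2 : ∀ n, {m | (U n m ∩ L).Nonempty}.Finite := fun n => (hUd n).finite_compact hL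
    have h3 : (⋃ n ∈ {i | (G i ∩ L).Nonempty},
        (fun m => (n, m)) '' {m | (U n m ∩ L).Nonempty}).Finite :=
      h1.biUnion (fun n _ => (h2 n).image _)
    refine (h3.preimage (f := Subtype.val) Subtype.val_injective.injOn).subset ?_
    rintro p ⟨hp1, hp2⟩
    simp only [mem_preimage, mem_iUnion, mem_image, mem_ofPred_eq]
    exact ⟨p.1.1, hp2, p.1.2, hp1, rfl⟩
  obtain ⟨V, hVo, hKV, W, hW, hVW⟩ := neg3S hX hkr (ι := {p : ℕ × ℕ // a p.1 p.2 ≠ q p.1})
    (fun p => a p.1.1 p.1.2) (fun p => y p.1.1 p.1.2) (fun p => q p.1.1)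
    (fun p => U p.1.1 p.1.2) (fun _ => univ) (fun p => G p.1.1)
    (fun p => hUo p.1.1 p.1.2) (fun p => ⟨isOpen_univ, mem_univ _⟩) (fun p => hG p.1.1)
    (fun p => p.2) (fun p => hyne p.1.1 p.1.2) hfin K hK
  obtain ⟨N, hN⟩ := hconv V hVo hKV
  have hev : ∀ᶠ m in atTop, FA.of (y N m) - FA.of (q N) ∈ W := (negA_lim (hylim N)) hW
  have hev2 : ∀ᶠ m in atTop, a N m ≠ q N := by
    by_cases h : ∃ m0, a N m0 = q N
    · obtain ⟨m0, hm0⟩ := h
      filter_upwards [eventually_gt_atTop m0] with m hm heq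
      exact hm.ne' (hinj N (heq.trans hm0.symm))
    · exact Eventually.of_forall fun m hm => h ⟨m, hm⟩
  obtain ⟨m, hm1, hm2⟩ := (hev.and hev2).exists
  exact hVW ⟨(N, m), hm2⟩ (hN N le_rfl m) hm1

end KR3
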