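import Pool.Agent.KR3.Disc

/-!
# KR3.StrN

Normality and collectionwise normality of stratifiable spaces.
exists_strat: take S' U n = ⋃ m ≤ n, S U m (finite union: closure of the union = union of closures).
For closed H, K put  G(H,K) = ⋃ n, S (Kᶜ) n \ closure (S (Hᶜ) n)  (S increasing in n). If H ∩ K = ∅ then H ⊆ G(H,K)
[x ∈ H: x ∈ Kᶜ so x ∈ S Kᶜ n for some n; closure (S Hᶜ n) ⊆ Hᶜ], and G(H,K) ∩ G(K,H) = ∅ (compare the levels n, m).
More generally if H ⊆ K' and H' ⊆ K then G(H,K) ∩ G(H',K') = ∅:  x ∈ S(Kᶜ)n \ cl S(Hᶜ)n and x ∈ S(K'ᶜ)m \ cl S(H'ᶜ)m,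
if n ≤ m: Kᶜ ⊆ H'ᶜ so x ∈ S(H'ᶜ)n ⊆ S(H'ᶜ)m, contradiction; symmetric if m ≤ n.
t4: regular T1 + the case K'=H, H'=K.
expandFam: for the discrete family E of closed sets let K i = ⋃ j≠i, E j (closed), G i = G(E i, K i): pairwise
disjoint open, E i ⊆ G i. By normality pick open O with ⋃ E i ⊆ O ⊆ closure O ⊆ ⋃ G i and set O i = G i ∩ O:
a point of closure O lies in some G i, which meets only O i; a point off closure O has the nbhd (closure O)ᶜ.
-/

namespace KR3

open Set Filter Topology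

universe u v w

variable {X : Type u}

variable [TopologicalSpace X]

/-- the separating sets -/
def StrN_G (S : Set X → ℕ → Set X) (H K : Set X) : Set X :=
  ⋃ n, S Kᶜ n \ closure (S Hᶜ n)

theorem StrN_open {S : Set X → ℕ → Set X} (hS : IsStrat S) {H K : Set X}
    (hK : IsClosed K) : IsOpen (StrN_G S H K) := by
  apply isOpen_iUnion
  intro n
  exact (hS.op _ n hK.isOpen_compl).sdiff isClosed_closure

theorem StrN_sub {S : Set X → ℕ → Set X} (hS : IsStrat S) {H K : Set X}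
    (hH : IsClosed H) (hK : IsClosed K) (hd : ∀ x ∈ H, x ∉ K) : H ⊆ StrN_G S H K := by
  intro x hx
  have h1 : x ∈ ⋃ n, S Kᶜ n := by
    rw [hS.un _ hK.isOpen_compl]
    exact hd x hx
  obtain ⟨n, hn⟩ := mem_iUnion.1 h1
  refine mem_iUnion.2 ⟨n, hn, ?_⟩
  intro h2
  exact hS.cl _ n hH.isOpen_compl h2 hx

theorem StrN_disj {S : Set X → ℕ → Set X} (hS : IsStrat S) {H K H' K' : Set X}
    (hH : IsClosed H) (hK : IsClosed K) (hH' : IsClosed H') (hK' : IsClosed K')
    (h1 : H ⊆ K') (h2 : H' ⊆ K) {x : X} (hx : x ∈ StrN_G S H K) (hx' : x ∈ StrN_G S H' K') :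
    False := by
  obtain ⟨n, hn1, hn2⟩ := mem_iUnion.1 hx
  obtain ⟨m, hm1, hm2⟩ := mem_iUnion.1 hx'
  rcases le_total n m with h | h
  · apply hm2
    apply subset_closure
    apply hS.incr _ n m h
    exact hS.mono _ _ n hK.isOpen_compl hH'.isOpen_compl (compl_subset_compl.2 h2) hn1
  · apply hn2
    apply subset_closure
    apply hS.incr _ m n h
    exact hS.mono _ _ m hK'.isOpen_compl hH.isOpen_compl (compl_subset_compl.2 h1) hm1

theorem exists_strat (h : Stratifiable X) : ∃ S : Set X → ℕ → Set X, IsStrat S := by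
  obtain ⟨-, -, S, op, cl, un, mo⟩ := h
  refine ⟨fun U n => ⋃ m ∈ Iic n, S U m, ?_, ?_, ?_, ?_, ?_⟩
  · intro U n hU
    exact isOpen_biUnion fun m _ => op U m hU
  · intro U n hU
    rw [(finite_Iic n).closure_biUnion]
    exact iUnion₂_subset fun m _ => cl U m hU
  · intro U hU
    apply subset_antisymm
    · refine iUnion_subset fun n => iUnion₂_subset fun m _ => ?_
      exact subset_closure.trans (cl U m hU)
    · intro x hx
      rw [← un U hU] at hx
      obtain ⟨n, hn⟩ := mem_iUnion.1 hx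
      exact mem_iUnion.2 ⟨n, mem_biUnion (mem_Iic.2 le_rfl) hn⟩
  · intro U V n hU hV hUV
    exact iUnion₂_mono fun m _ => mo U V m hU hV hUV
  · intro U m n hmn
    exact biUnion_subset_biUnion_left (Iic_subset_Iic.2 hmn)

theorem Stratifiable.t4 (h : Stratifiable X) : T4Space X := by
  obtain ⟨S, hS⟩ := exists_strat h
  have : T1Space X := h.2.1
  have : NormalSpace X := by
    constructor
    intro s t hs ht hd
    refine ⟨StrN_G S s t, StrN_G S t s, StrN_open hS ht, StrN_open hS hs,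
      StrN_sub hS hs ht (fun x hx hx' => disjoint_left.1 hd hx hx'),
      StrN_sub hS ht hs (fun x hx hx' => disjoint_left.1 hd hx' hx), ?_⟩
    rw [disjoint_left]
    intro x hx hx'
    exact StrN_disj hS hs ht ht hs subset_rfl subset_rfl hx hx'
  exact {}

theorem Stratifiable.expandFam (h : Stratifiable X) {ι : Type v} (E : ι → Set X)
    (hE : ∀ i, IsClosed (E i)) (hd : DiscFam E) :
    ∃ O : ι → Set X, (∀ i, IsOpen (O i) ∧ E i ⊆ O i) ∧ DiscFam O := by
  obtain ⟨S, hS⟩ := exists_strat h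
  have := h.t4
  set K : ι → Set X := fun i => ⋃ j : {j // j ≠ i}, E j.1 with hK
  have hKc : ∀ i, IsClosed (K i) := by
    intro i
    exact (hd.comp (f := fun j : {j // j ≠ i} => j.1) Subtype.val_injective).closed_iUnion
      (fun j => hE j.1)
  have hEK : ∀ i, ∀ x ∈ E i, x ∉ K i := by
    intro i x hx hx'
    obtain ⟨⟨j, hj⟩, hxj⟩ := mem_iUnion.1 hx'
    obtain ⟨N, hN, hh⟩ := hd x
    have hm : x ∈ N := mem_of_mem_nhds hN
    exact hj (hh j i ⟨x, hxj, hm⟩ ⟨x, hx, hm⟩)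
  have hsub : ∀ i j, i ≠ j → E i ⊆ K j := by
    intro i j hij x hx
    exact mem_iUnion.2 ⟨⟨i, hij⟩, hx⟩
  set G : ι → Set X := fun i => StrN_G S (E i) (K i) with hG
  have hGo : ∀ i, IsOpen (G i) := fun i => StrN_open hS (hKc i)
  have hEG : ∀ i, E i ⊆ G i := fun i => StrN_sub hS (hE i) (hKc i) (hEK i)
  have hGd : ∀ i j x, x ∈ G i → x ∈ G j → i = j := by
    intro i j x hi hj
    by_contra hij
    exact StrN_disj hS (hE i) (hKc i) (hE j) (hKc j) (hsub i j hij) (hsub j i (Ne.symm hij)) hi hj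
  obtain ⟨O, hO, hEO, hOG⟩ := normal_exists_closure_subset (hd.closed_iUnion hE)
    (isOpen_iUnion hGo) (iUnion_mono hEG)
  refine ⟨fun i => G i ∩ O, fun i => ⟨(hGo i).inter hO, ?_⟩, ?_⟩
  · intro x hx
    exact ⟨hEG i hx, hEO (mem_iUnion.2 ⟨i, hx⟩)⟩
  · intro x
    by_cases hx : x ∈ closure O
    · obtain ⟨i, hi⟩ := mem_iUnion.1 (hOG hx)
      refine ⟨G i, (hGo i).mem_nhds hi, ?_⟩
      rintro j k ⟨y, ⟨hy1, -⟩, hy2⟩ ⟨z, ⟨hz1, -⟩, hz2⟩
      exact (hGd j i y hy1 hy2).trans (hGd k i z hz1 hz2).symm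
    · refine ⟨(closure O)ᶜ, isClosed_closure.isOpen_compl.mem_nhds hx, ?_⟩
      rintro j k ⟨y, ⟨-, hy1⟩, hy2⟩ -
      exact absurd (subset_closure hy1) hy2

end KR3
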