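import Pool.Agent.KR3.CM
import Pool.Agent.KR3.StrN

/-!
# KR3.NsysM

Y compact is second countable (CM) and T3 so metrizable: letI := TopologicalSpace.metrizableSpaceMetric Y. Put
N K m = Subtype.val '' (Metric.cthickening (1/(m+1)) (Subtype.val ⁻¹' K)).
(cthickening of the empty set is empty.) comp: closed in the compact space Y. nhd: Metric.thickening (1/(m+1)) is open in Y and
contains val⁻¹ K, so it is val⁻¹ of an open O of X. mono/anti: cthickening_mono, cthickening_subset_of_subset. small:
IsCompact.exists_cthickening_subset_open for val⁻¹ K compact (K compact, K ⊆ Y, Y closed).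
-/

namespace KR3

open Set Filter Topology

universe u v w

variable {X : Type u}

variable [TopologicalSpace X]

theorem nsys (hX : Base X) {Y : Set X} (hY : IsCompact Y) : ∃ N : Set X → ℕ → Set X, NSys Y N := by
  have : T4Space X := hX.strat.t4
  have : SecondCountableTopology Y := hX.secondCountable Y hY
  have : CompactSpace Y := isCompact_iff_compactSpace.1 hY
  have : TopologicalSpace.MetrizableSpace Y :=
    TopologicalSpace.metrizableSpace_of_t3_secondCountable Y
  let _ : MetricSpace Y := TopologicalSpace.metrizableSpaceMetric Y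
  have hδ : ∀ m : ℕ, (0 : ℝ) < 1 / ((m : ℝ) + 1) := fun m => by positivity
  refine ⟨fun K m => Subtype.val '' (Metric.cthickening (1 / ((m : ℝ) + 1))
    ((Subtype.val : Y → X) ⁻¹' K)), ?_, ?_, ?_, ?_, ?_, ?_, ?_⟩
  · intro K m _ _
    exact (Metric.isClosed_cthickening.isCompact).image continuous_subtype_val
  · rintro K m _ ⟨y, _, rfl⟩
    exact y.2
  · intro K m hK x hx
    exact ⟨⟨x, hK hx⟩, Metric.self_subset_cthickening _ hx, rfl⟩
  · intro K m _ hK
    obtain ⟨O, hO, hOe⟩ := isOpen_induced_iff.1
      (Metric.isOpen_thickening (δ := 1 / ((m : ℝ) + 1)) (E := (Subtype.val : Y → X) ⁻¹' K))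
    refine ⟨O, hO, fun x hx => ?_, ?_⟩
    · have h1 : (⟨x, hK hx⟩ : Y) ∈ (Subtype.val : Y → X) ⁻¹' O := by
        rw [hOe]
        exact Metric.self_subset_thickening (hδ m) _ hx
      exact h1
    · rintro x ⟨hxO, hxY⟩
      have h1 : (⟨x, hxY⟩ : Y) ∈ (Subtype.val : Y → X) ⁻¹' O := hxO
      rw [hOe] at h1
      exact ⟨⟨x, hxY⟩, Metric.thickening_subset_cthickening _ _ h1, rfl⟩
  · intro K K' m hKK'
    exact image_mono (Metric.cthickening_subset_of_subset _ (preimage_mono hKK'))
  · intro K m m' hmm'
    refine image_mono (Metric.cthickening_mono ?_ _)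
    exact one_div_le_one_div_of_le (by positivity) (by exact_mod_cast Nat.succ_le_succ hmm')
  · intro K U hKc hKY hU hKU
    have hKc' : IsCompact ((Subtype.val : Y → X) ⁻¹' K) :=
      (hKc.isClosed.preimage continuous_subtype_val).isCompact
    have hUo : IsOpen ((Subtype.val : Y → X) ⁻¹' U) := hU.preimage continuous_subtype_val
    obtain ⟨δ, hδ0, hδU⟩ := hKc'.exists_cthickening_subset_open hUo (preimage_mono hKU)
    obtain ⟨m, hm⟩ := exists_nat_one_div_lt hδ0
    refine ⟨m, ?_⟩
    rintro _ ⟨y, hy, rfl⟩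
    exact hδU (Metric.cthickening_mono hm.le _ hy)

end KR3
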