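import Pool.Agent.KR3.Words

/-!
# KR3.PosG

Generic words.  We use bump functions `f` at the letters and maxima of them, and count letters
(Hall's condition for a permutation).
-/

namespace KR3

open Set Filter Topology

universe u v w

variable {X : Type u}

variable [TopologicalSpace X]

/-- neighbourhoods from lower bounds of extended functions -/
theorem posG_low (ψ : X → ℝ) (hψ : Continuous ψ) (g : FA X) (r : ℝ) (h : r < FA.lift ψ g) :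
    {g' : FA X | r < FA.lift ψ g'} ∈ 𝓝 g :=
  (isOpen_lt continuous_const (FA.continuous_lift ψ hψ)).mem_nhds h

theorem posG_up (ψ : X → ℝ) (hψ : Continuous ψ) (g : FA X) (r : ℝ) (h : FA.lift ψ g < r) :
    {g' : FA X | FA.lift ψ g' < r} ∈ 𝓝 g :=
  (isOpen_lt (FA.continuous_lift ψ hψ) continuous_const).mem_nhds h

/-- the final propositional step: a system of distinct representatives -/
theorem posG_hall (a1 a2 a3 b1 b2 b3 c1 c2 c3 : Prop)
    (hA : a1 ∨ a2 ∨ a3) (hB : b1 ∨ b2 ∨ b3) (hC : c1 ∨ c2 ∨ c3)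
    (hAB : ((a1 ∨ b1) ∧ (a2 ∨ b2)) ∨ ((a1 ∨ b1) ∧ (a3 ∨ b3)) ∨ ((a2 ∨ b2) ∧ (a3 ∨ b3)))
    (hAC : ((a1 ∨ c1) ∧ (a2 ∨ c2)) ∨ ((a1 ∨ c1) ∧ (a3 ∨ c3)) ∨ ((a2 ∨ c2) ∧ (a3 ∨ c3)))
    (hBC : ((b1 ∨ c1) ∧ (b2 ∨ c2)) ∨ ((b1 ∨ c1) ∧ (b3 ∨ c3)) ∨ ((b2 ∨ c2) ∧ (b3 ∨ c3)))
    (hABC : (a1 ∨ b1 ∨ c1) ∧ (a2 ∨ b2 ∨ c2) ∧ (a3 ∨ b3 ∨ c3)) :
    (a1 ∧ b2 ∧ c3) ∨ (a1 ∧ b3 ∧ c2) ∨ (a2 ∧ b1 ∧ c3) ∨ (a2 ∧ b3 ∧ c1) ∨ (a3 ∧ b1 ∧ c2) ∨
      (a3 ∧ b2 ∧ c1) := by
  by_cases h1 : a1 <;> by_cases h2 : a2 <;> by_cases h3 : a3 <;> by_cases h4 : b1 <;>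
    by_cases h5 : b2 <;> by_cases h6 : b3 <;> simp only [h1, h2, h3, h4, h5, h6, true_or, or_true,
      false_or, or_false, true_and, and_true, false_and, and_false, or_self, and_self] at hA hB hC hAB hAC hBC hABC ⊢ <;> tauto

theorem posG3 [T35Space X] (x y z : X) (A B C : Set X) (hA : IsOpen A) (hB : IsOpen B)
    (hC : IsOpen C) (hx : x ∈ A) (hy : y ∈ B) (hz : z ∈ C) :
    ∃ N ∈ 𝓝 (FA.of x + FA.of y + FA.of z), ∀ x' y' z' : X, FA.of x' + FA.of y' + FA.of z' ∈ N →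
      (x' ∈ A ∧ y' ∈ B ∧ z' ∈ C) ∨ (x' ∈ A ∧ z' ∈ B ∧ y' ∈ C) ∨ (y' ∈ A ∧ x' ∈ B ∧ z' ∈ C) ∨
      (y' ∈ A ∧ z' ∈ B ∧ x' ∈ C) ∨ (z' ∈ A ∧ x' ∈ B ∧ y' ∈ C) ∨ (z' ∈ A ∧ y' ∈ B ∧ x' ∈ C) := by
  obtain ⟨f, hfc, hf0, hf1, hfx, hfA⟩ := bump x A hA hx
  obtain ⟨g, hgc, hg0, hg1, hgy, hgB⟩ := bump y B hB hy
  obtain ⟨k, hkc, hk0, hk1, hkz, hkC⟩ := bump z C hC hz
  have key : ∀ (ψ : X → ℝ) (U : Set X), Continuous ψ → (∀ t, 0 ≤ ψ t) → (∀ t, ψ t ≤ 1) →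
      (∀ t, t ∉ U → ψ t = 0) → ∀ (r : ℝ), r < ψ x + ψ y + ψ z →
      {g' : FA X | r < FA.lift ψ g'} ∈ 𝓝 (FA.of x + FA.of y + FA.of z) := by
    intro ψ U hψ _ _ _ r hr
    refine posG_low ψ hψ _ r ?_
    simpa using hr
  have c1 : ∀ (ψ : X → ℝ) (U : Set X), (∀ t, t ∉ U → ψ t = 0) → ∀ a b c : X,
      0 < FA.lift ψ (FA.of a + FA.of b + FA.of c) → a ∈ U ∨ b ∈ U ∨ c ∈ U := by
    intro ψ U h0 a b c h
    simp only [map_add, FA.lift_of] at h
    by_contra hcon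
    push Not at hcon
    rw [h0 a hcon.1, h0 b hcon.2.1, h0 c hcon.2.2] at h
    norm_num at h
  have c2 : ∀ (ψ : X → ℝ) (U : Set X), (∀ t, ψ t ≤ 1) → (∀ t, t ∉ U → ψ t = 0) → ∀ a b c : X,
      1 < FA.lift ψ (FA.of a + FA.of b + FA.of c) →
      (a ∈ U ∧ b ∈ U) ∨ (a ∈ U ∧ c ∈ U) ∨ (b ∈ U ∧ c ∈ U) := by
    intro ψ U h1 h0 a b c h
    simp only [map_add, FA.lift_of] at h
    have ha := h1 a
    have hb := h1 b
    have hc := h1 c
    by_cases h2 : a ∈ U <;> by_cases h3 : b ∈ U <;> by_cases h4 : c ∈ U <;>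
      simp only [h2, h3, h4, true_and, and_true, and_false, false_and, or_true, true_or, or_self,
        not_false_eq_true, or_false, false_or] <;>
      (try have e1 := h0 a h2) <;> (try have e2 := h0 b h3) <;> (try have e3 := h0 c h4) <;>
      linarith
  have c3 : ∀ (ψ : X → ℝ) (U : Set X), (∀ t, ψ t ≤ 1) → (∀ t, t ∉ U → ψ t = 0) → ∀ a b c : X,
      2 < FA.lift ψ (FA.of a + FA.of b + FA.of c) → a ∈ U ∧ b ∈ U ∧ c ∈ U := by
    intro ψ U h1 h0 a b c h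
    simp only [map_add, FA.lift_of] at h
    have ha := h1 a
    have hb := h1 b
    have hc := h1 c
    refine ⟨?_, ?_, ?_⟩
    · by_contra h2
      have e1 := h0 a h2
      linarith
    · by_contra h2
      have e1 := h0 b h2
      linarith
    · by_contra h2
      have e1 := h0 c h2
      linarith
  have hfg : ∀ t, t ∉ A ∪ B → max (f t) (g t) = 0 := by
    intro t ht
    rw [hfA t (fun h => ht (Or.inl h)), hgB t (fun h => ht (Or.inr h)), max_self]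
  have hfk : ∀ t, t ∉ A ∪ C → max (f t) (k t) = 0 := by
    intro t ht
    rw [hfA t (fun h => ht (Or.inl h)), hkC t (fun h => ht (Or.inr h)), max_self]
  have hgk : ∀ t, t ∉ B ∪ C → max (g t) (k t) = 0 := by
    intro t ht
    rw [hgB t (fun h => ht (Or.inl h)), hkC t (fun h => ht (Or.inr h)), max_self]
  have hfgk : ∀ t, t ∉ A ∪ (B ∪ C) → max (f t) (max (g t) (k t)) = 0 := by
    intro t ht
    rw [hfA t (fun h => ht (Or.inl h)), hgB t (fun h => ht (Or.inr (Or.inl h))),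
      hkC t (fun h => ht (Or.inr (Or.inr h))), max_self, max_self]
  have n1 := key f A hfc hf0 hf1 hfA 0 (by linarith [hf0 y, hf0 z])
  have n2 := key g B hgc hg0 hg1 hgB 0 (by linarith [hg0 x, hg0 z])
  have n3 := key k C hkc hk0 hk1 hkC 0 (by linarith [hk0 x, hk0 y])
  have n4 := key (fun t => max (f t) (g t)) (A ∪ B) (hfc.max hgc)
    (fun t => le_max_of_le_left (hf0 t)) (fun t => max_le (hf1 t) (hg1 t)) hfg 1 (by
      have e1 : (1 : ℝ) ≤ max (f x) (g x) := hfx ▸ le_max_left _ _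
      have e2 : (1 : ℝ) ≤ max (f y) (g y) := hgy ▸ le_max_right _ _
      have e3 : (0 : ℝ) ≤ max (f z) (g z) := le_max_of_le_left (hf0 z)
      linarith)
  have n5 := key (fun t => max (f t) (k t)) (A ∪ C) (hfc.max hkc)
    (fun t => le_max_of_le_left (hf0 t)) (fun t => max_le (hf1 t) (hk1 t)) hfk 1 (by
      have e1 : (1 : ℝ) ≤ max (f x) (k x) := hfx ▸ le_max_left _ _
      have e2 : (1 : ℝ) ≤ max (f z) (k z) := hkz ▸ le_max_right _ _
      have e3 : (0 : ℝ) ≤ max (f y) (k y) := le_max_of_le_left (hf0 y)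
      linarith)
  have n6 := key (fun t => max (g t) (k t)) (B ∪ C) (hgc.max hkc)
    (fun t => le_max_of_le_left (hg0 t)) (fun t => max_le (hg1 t) (hk1 t)) hgk 1 (by
      have e1 : (1 : ℝ) ≤ max (g y) (k y) := hgy ▸ le_max_left _ _
      have e2 : (1 : ℝ) ≤ max (g z) (k z) := hkz ▸ le_max_right _ _
      have e3 : (0 : ℝ) ≤ max (g x) (k x) := le_max_of_le_left (hg0 x)
      linarith)
  have n7 := key (fun t => max (f t) (max (g t) (k t))) (A ∪ (B ∪ C)) (hfc.max (hgc.max hkc))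
    (fun t => le_max_of_le_left (hf0 t)) (fun t => max_le (hf1 t) (max_le (hg1 t) (hk1 t))) hfgk 2
    (by
      have e1 : (1 : ℝ) ≤ max (f x) (max (g x) (k x)) := hfx ▸ le_max_left _ _
      have e2 : (1 : ℝ) ≤ max (f y) (max (g y) (k y)) :=
        le_max_of_le_right (hgy ▸ le_max_left _ _)
      have e3 : (1 : ℝ) ≤ max (f z) (max (g z) (k z)) :=
        le_max_of_le_right (hkz ▸ le_max_right _ _)
      linarith)
  refine ⟨_, inter_mem n1 (inter_mem n2 (inter_mem n3 (inter_mem n4 (inter_mem n5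
    (inter_mem n6 n7))))), ?_⟩
  rintro a b c ⟨m1, m2, m3, m4, m5, m6, m7⟩
  have d1 := c1 f A hfA a b c m1
  have d2 := c1 g B hgB a b c m2
  have d3 := c1 k C hkC a b c m3
  have d4 := c2 _ (A ∪ B) (fun t => max_le (hf1 t) (hg1 t)) hfg a b c m4
  have d5 := c2 _ (A ∪ C) (fun t => max_le (hf1 t) (hk1 t)) hfk a b c m5
  have d6 := c2 _ (B ∪ C) (fun t => max_le (hg1 t) (hk1 t)) hgk a b c m6
  have d7 := c3 _ (A ∪ (B ∪ C)) (fun t => max_le (hf1 t) (max_le (hg1 t) (hk1 t))) hfgk a b c m7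
  exact posG_hall _ _ _ _ _ _ _ _ _ d1 d2 d3 d4 d5 d6 d7

theorem posG2 [T35Space X] (x y : X) (A B : Set X) (hA : IsOpen A) (hB : IsOpen B)
    (hx : x ∈ A) (hy : y ∈ B) :
    ∃ N ∈ 𝓝 (FA.of x + FA.of y), ∀ x' y' : X, FA.of x' + FA.of y' ∈ N →
      (x' ∈ A ∧ y' ∈ B) ∨ (y' ∈ A ∧ x' ∈ B) := by
  obtain ⟨f, hfc, hf0, hf1, hfx, hfA⟩ := bump x A hA hx
  obtain ⟨g, hgc, hg0, hg1, hgy, hgB⟩ := bump y B hB hy
  have n1 := posG_low f hfc (FA.of x + FA.of y) 0 (by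
    simp only [map_add, FA.lift_of]; linarith [hf0 y])
  have n2 := posG_low g hgc (FA.of x + FA.of y) 0 (by
    simp only [map_add, FA.lift_of]; linarith [hg0 x])
  have n3 := posG_low (fun t => max (f t) (g t)) (hfc.max hgc) (FA.of x + FA.of y) 1 (by
    simp only [map_add, FA.lift_of]
    have e1 : (1 : ℝ) ≤ max (f x) (g x) := hfx ▸ le_max_left _ _
    have e2 : (1 : ℝ) ≤ max (f y) (g y) := hgy ▸ le_max_right _ _
    linarith)
  refine ⟨_, inter_mem n1 (inter_mem n2 n3), ?_⟩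
  rintro a b ⟨m1, m2, m3⟩
  simp only [mem_ofPred_eq, map_add, FA.lift_of] at m1 m2 m3
  have d1 : a ∈ A ∨ b ∈ A := by
    by_contra h
    push Not at h
    rw [hfA a h.1, hfA b h.2] at m1
    norm_num at m1
  have d2 : a ∈ B ∨ b ∈ B := by
    by_contra h
    push Not at h
    rw [hgB a h.1, hgB b h.2] at m2
    norm_num at m2
  have e1 : max (f a) (g a) ≤ 1 := max_le (hf1 a) (hg1 a)
  have e2 : max (f b) (g b) ≤ 1 := max_le (hf1 b) (hg1 b)
  have d3 : a ∈ A ∨ a ∈ B := by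
    by_contra h
    push Not at h
    rw [hfA a h.1, hgB a h.2, max_self] at m3
    linarith
  have d4 : b ∈ A ∨ b ∈ B := by
    by_contra h
    push Not at h
    rw [hfA b h.1, hgB b h.2, max_self] at m3
    linarith
  tauto

theorem posG1 [T35Space X] (x y z : X) (hzx : z ≠ x) (hzy : z ≠ y) (A B C : Set X)
    (hA : IsOpen A) (hB : IsOpen B) (hC : IsOpen C) (hx : x ∈ A) (hy : y ∈ B) (hz : z ∈ C) :
    ∃ N ∈ 𝓝 (FA.of x + FA.of y - FA.of z), ∀ x' y' z' : X, FA.of x' + FA.of y' - FA.of z' ∈ N →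
      z' ∈ C ∧ ((x' ∈ A ∧ y' ∈ B) ∨ (y' ∈ A ∧ x' ∈ B)) := by
  obtain ⟨f, hfc, hf0, hf1, hfx, hfA⟩ := bump x (A ∩ {z}ᶜ) (hA.inter isOpen_compl_singleton)
    ⟨hx, fun h => hzx h.symm⟩
  obtain ⟨g, hgc, hg0, hg1, hgy, hgB⟩ := bump y (B ∩ {z}ᶜ) (hB.inter isOpen_compl_singleton)
    ⟨hy, fun h => hzy h.symm⟩
  obtain ⟨k, hkc, hk0, hk1, hkz, hkC⟩ := bump z (C ∩ ({x}ᶜ ∩ {y}ᶜ))
    (hC.inter (isOpen_compl_singleton.inter isOpen_compl_singleton)) ⟨hz, hzx, hzy⟩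
  have hfz : f z = 0 := hfA z fun h => h.2 rfl
  have hgz : g z = 0 := hgB z fun h => h.2 rfl
  have hkx : k x = 0 := hkC x fun h => h.2.1 rfl
  have hky : k y = 0 := hkC y fun h => h.2.2 rfl
  have n1 := posG_low f hfc (FA.of x + FA.of y - FA.of z) 0 (by
    simp only [map_add, map_sub, FA.lift_of]; linarith [hf0 y])
  have n2 := posG_low g hgc (FA.of x + FA.of y - FA.of z) 0 (by
    simp only [map_add, map_sub, FA.lift_of]; linarith [hg0 x])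
  have n3 := posG_low (fun t => max (f t) (g t)) (hfc.max hgc) (FA.of x + FA.of y - FA.of z) 1 (by
    simp only [map_add, map_sub, FA.lift_of]
    have e1 : (1 : ℝ) ≤ max (f x) (g x) := hfx ▸ le_max_left _ _
    have e2 : (1 : ℝ) ≤ max (f y) (g y) := hgy ▸ le_max_right _ _
    have e3 : max (f z) (g z) = 0 := by rw [hfz, hgz, max_self]
    linarith)
  have n4 := posG_up k hkc (FA.of x + FA.of y - FA.of z) 0 (by
    simp only [map_add, map_sub, FA.lift_of]; linarith)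
  refine ⟨_, inter_mem n1 (inter_mem n2 (inter_mem n3 n4)), ?_⟩
  rintro a b c ⟨m1, m2, m3, m4⟩
  simp only [mem_ofPred_eq, map_add, map_sub, FA.lift_of] at m1 m2 m3 m4
  have d0 : c ∈ C := by
    by_contra h
    rw [hkC c fun h' => h h'.1] at m4
    linarith [hk0 a, hk0 b]
  have d1 : a ∈ A ∨ b ∈ A := by
    by_contra h
    push Not at h
    rw [hfA a fun h' => h.1 h'.1, hfA b fun h' => h.2 h'.1] at m1
    linarith [hf0 c]
  have d2 : a ∈ B ∨ b ∈ B := by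
    by_contra h
    push Not at h
    rw [hgB a fun h' => h.1 h'.1, hgB b fun h' => h.2 h'.1] at m2
    linarith [hg0 c]
  have e1 : max (f a) (g a) ≤ 1 := max_le (hf1 a) (hg1 a)
  have e2 : max (f b) (g b) ≤ 1 := max_le (hf1 b) (hg1 b)
  have e3 : 0 ≤ max (f c) (g c) := le_max_of_le_left (hf0 c)
  have d3 : a ∈ A ∨ a ∈ B := by
    by_contra h
    push Not at h
    rw [hfA a fun h' => h.1 h'.1, hgB a fun h' => h.2 h'.1, max_self] at m3
    linarith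
  have d4 : b ∈ A ∨ b ∈ B := by
    by_contra h
    push Not at h
    rw [hfA b fun h' => h.1 h'.1, hgB b fun h' => h.2 h'.1, max_self] at m3
    linarith
  tauto

theorem posG0 [T35Space X] (x y : X) (hxy : x ≠ y) (A B : Set X) (hA : IsOpen A) (hB : IsOpen B)
    (hx : x ∈ A) (hy : y ∈ B) :
    ∃ N ∈ 𝓝 (FA.of x - FA.of y), ∀ x' y' : X, FA.of x' - FA.of y' ∈ N → x' ∈ A ∧ y' ∈ B := by
  obtain ⟨f, hfc, hf0, hf1, hfx, hfA⟩ := bump x (A ∩ {y}ᶜ) (hA.inter isOpen_compl_singleton)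
    ⟨hx, hxy⟩
  obtain ⟨g, hgc, hg0, hg1, hgy, hgB⟩ := bump y (B ∩ {x}ᶜ) (hB.inter isOpen_compl_singleton)
    ⟨hy, fun h => hxy h.symm⟩
  have hfy : f y = 0 := hfA y fun h => h.2 rfl
  have hgx : g x = 0 := hgB x fun h => h.2 rfl
  have n1 := posG_low f hfc (FA.of x - FA.of y) 0 (by
    simp only [map_sub, FA.lift_of]; linarith)
  have n2 := posG_up g hgc (FA.of x - FA.of y) 0 (by
    simp only [map_sub, FA.lift_of]; linarith)
  refine ⟨_, inter_mem n1 n2, ?_⟩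
  rintro a b ⟨m1, m2⟩
  simp only [mem_ofPred_eq, map_sub, FA.lift_of] at m1 m2
  constructor
  · by_contra h
    rw [hfA a fun h' => h h'.1] at m1
    linarith [hf0 b]
  · by_contra h
    rw [hgB b fun h' => h h'.1] at m2
    linarith [hg0 a]

end KR3
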