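import Pool.Agent.KR3.Api

/-!
# KR3.Univ: the canonical map `X → A(X)` is a topological embedding for Tychonoff `X`

Together with `FA.continuous_lift` (every continuous map to an abelian topological group extends to
a continuous homomorphism) this shows that `FA X` is the free abelian topological group of Markov.
-/

namespace KR3

open Set Filter Topology

universe u

variable {X : Type u} [TopologicalSpace X]

omit [TopologicalSpace X] in
theorem FA.of_injective : Function.Injective (FA.of : X → FA X) := by
  classical
  intro x y h
  by_contra hne
  have h1 := FA.coeff_of x x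
  have h2 := FA.coeff_of x y
  rw [h] at h1
  rw [h1] at h2
  simp [hne] at h2

theorem FA.isEmbedding_of [T35Space X] : IsEmbedding (FA.of : X → FA X) := by
  refine ⟨isInducing_iff_nhds.2 fun x => le_antisymm ?_ ?_, FA.of_injective⟩
  · exact (FA.continuous_of.tendsto x).le_comap
  · intro V hV
    obtain ⟨U, hUV, hU, hx⟩ := mem_nhds_iff.1 hV
    obtain ⟨f, hf, -, -, hfx, hf0⟩ := bump x U hU hx
    rw [mem_comap]
    refine ⟨FA.lift f ⁻¹' Ioi (1 / 2), (FA.continuous_lift f hf).continuousAt.preimage_mem_nhds
      (Ioi_mem_nhds ?_), ?_⟩
    · rw [FA.lift_of, hfx]; norm_num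
    · intro y hy
      by_contra hyU
      have : (1 / 2 : ℝ) < FA.lift f (FA.of y) := hy
      rw [FA.lift_of, hf0 y (fun h => hyU (hUV h))] at this
      norm_num at this

end KR3
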